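import Pool.Agent.L0h79.BSS.Count

/-!
# An elementary Bezout inequality for the nondegenerate zeros of a square real polynomial system
-/

open MvPolynomial Finset Filter Topology

namespace Pool.Agent.L0h79.BSS

variable {ι : Type*} [Fintype ι]

/-- the derivative of a polynomial function -/
lemma hasStrictFDerivAt_eval [DecidableEq ι] (p : MvPolynomial ι ℝ) (x : ι → ℝ) :
    HasStrictFDerivAt (fun y : ι → ℝ => eval y p)
      (∑ i, (eval x (pderiv i p)) • (ContinuousLinearMap.proj i : (ι → ℝ) →L[ℝ] ℝ)) x := by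
  induction p using MvPolynomial.induction_on with
  | C a => simpa using hasStrictFDerivAt_const a x
  | add p q hp hq =>
    simp only [map_add, add_smul, Finset.sum_add_distrib]
    exact hp.add hq
  | mul_X p j hp =>
    have h := hp.mul (hasStrictFDerivAt_apply (𝕜 := ℝ) j x)
    simp only [map_mul, eval_X]
    refine h.congr_fderiv ?_
    ext v
    simp only [_root_.add_apply, _root_.smul_apply,
      ContinuousLinearMap.proj_apply, smul_eq_mul, _root_.sum_apply, Derivation.leibniz,
      pderiv_X, map_add, map_mul, smul_eq_mul, eval_X]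
    rw [Finset.mul_sum]
    have e : ∀ i, (eval x p * eval x ((Pi.single i (1 : MvPolynomial ι ℝ) : ι → MvPolynomial ι ℝ) j)
        + x j * eval x ((pderiv i) p)) * v i = (if i = j then eval x p * v i else 0)
          + x j * (eval x ((pderiv i) p) * v i) := by
      intro i
      by_cases h : i = j
      · subst h; simp; ring
      · rw [Pi.single_eq_of_ne (Ne.symm h)]; simp [h]; ring
    rw [Finset.sum_congr rfl fun i _ => e i, Finset.sum_add_distrib]
    simp

/-- a nonzero polynomial is nonzero somewhere in each neighbourhood of `0` -/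
lemma exists_eval_ne_zero (w : MvPolynomial ι ℝ) (hw : w ≠ 0) (U : Set (ι → ℝ)) (hU : U ∈ 𝓝 0) :
    ∃ y ∈ U, eval y w ≠ 0 := by
  obtain ⟨δ, hδ, hb⟩ := Metric.mem_nhds_iff.1 hU
  by_contra hcon
  push Not at hcon
  apply hw
  refine MvPolynomial.funext_set (fun _ => Set.Ioo (0:ℝ) δ) (fun _ => Set.Ioo_infinite hδ) ?_
  intro x hx
  rw [map_zero]
  apply hcon
  apply hb
  rw [mem_ball_zero_iff, pi_norm_lt_iff hδ]
  intro i
  have := hx i (Set.mem_univ i)
  simp only [Set.mem_Ioo] at this
  rw [Real.norm_eq_abs, abs_of_pos this.1]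
  exact this.2

/-- a linear polynomial which separates finitely many points -/
lemma exists_separating (A : Finset (ι → ℝ)) :
    ∃ g : MvPolynomial ι ℝ, g.totalDegree ≤ 1 ∧ Set.InjOn (fun x : ι → ℝ => eval x g) A := by
  classical
  let T := {p : A × A // p.1 ≠ p.2}
  obtain ⟨φ, hφ⟩ := Module.exists_dual_forall_apply_ne_zero (K := ℝ) (M := ι → ℝ)
    (fun p : T => (p.1.1 : ι → ℝ) - (p.1.2 : ι → ℝ)) (by
      rintro ⟨⟨a, b⟩, h⟩ h0
      exact h (Subtype.ext (sub_eq_zero.1 h0)))
  refine ⟨∑ i, C (φ (Pi.single i 1)) * X i, ?_, ?_⟩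
  · refine (totalDegree_finsetSum _ _).trans (Finset.sup_le fun i _ => ?_)
    refine (totalDegree_mul _ _).trans ?_
    simp
  · have e : ∀ x : ι → ℝ, eval x (∑ i, C (φ (Pi.single i 1)) * X i : MvPolynomial ι ℝ) = φ x := by
      intro x
      simp only [map_sum, map_mul, eval_C, eval_X]
      conv_rhs => rw [← Finset.univ_sum_single x]
      rw [map_sum]
      refine Finset.sum_congr rfl fun i _ => ?_
      have : (Pi.single i (x i) : ι → ℝ) = x i • (Pi.single i (1:ℝ) : ι → ℝ) := by
        rw [← Pi.single_smul]; simp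
      rw [this, map_smul, smul_eq_mul, mul_comm]
    intro a ha b hb hab
    by_contra hne
    have := hφ ⟨(⟨a, ha⟩, ⟨b, hb⟩), by
      intro h; exact hne (congrArg Subtype.val h)⟩
    apply this
    simp only [map_sub]
    simp only [e] at hab
    exact sub_eq_zero.2 hab

/-- **Bezout inequality** for nondegenerate zeros: a system of `M` real polynomials of degree at
most `d` in `M` variables has at most `d ^ M` common zeros near which it is an open map. -/
theorem bezout (d : ℕ) (f : ι → MvPolynomial ι ℝ) (hd : ∀ i, (f i).totalDegree ≤ d)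
    (A : Finset (ι → ℝ))
    (hA : ∀ a ∈ A, Filter.map (fun x : ι → ℝ => fun i => eval x (f i)) (𝓝 a) = 𝓝 0) :
    A.card ≤ d ^ Fintype.card ι := by
  classical
  rcases Nat.eq_zero_or_pos (Fintype.card ι) with hM | hM
  · rw [hM, pow_zero]
    have : IsEmpty ι := Fintype.card_eq_zero_iff.1 hM
    exact Finset.card_le_one.2 fun a _ b _ => Subsingleton.elim a b
  obtain ⟨M, hM'⟩ : ∃ M, Fintype.card ι = M + 1 := ⟨Fintype.card ι - 1, by omega⟩
  by_contra hcon
  push Not at hcon
  set K := A.card with hK
  rw [hM'] at hcon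
  obtain ⟨g, hg1, hg2⟩ := exists_separating A
  obtain ⟨D, hD⟩ := exists_count d K (M + 1) hcon K
  -- the linear dependence
  let I := Fin K × {m : ι →₀ ℕ // m ∈ expo ι D}
  let N := d * D + K
  have degprod : ∀ m : ι →₀ ℕ, m ∈ expo ι D → (∏ i, f i ^ m i).totalDegree ≤ d * D := by
    intro m hm
    rw [mem_expo, Finsupp.sum_fintype _ _ (by simp)] at hm
    refine (totalDegree_finsetProd _ _).trans ?_
    calc ∑ i, (f i ^ m i).totalDegree ≤ ∑ i, m i * d := by
          refine Finset.sum_le_sum fun i _ => (totalDegree_pow _ _).trans ?_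
          exact Nat.mul_le_mul_left _ (hd i)
      _ = (∑ i, m i) * d := by rw [Finset.sum_mul]
      _ ≤ D * d := Nat.mul_le_mul_right _ hm
      _ = d * D := mul_comm _ _
  have hdeg : ∀ p : I, (g ^ (p.1 : ℕ) * ∏ i, f i ^ (p.2 : ι →₀ ℕ) i).totalDegree ≤ N := by
    intro p
    refine (totalDegree_mul _ _).trans ?_
    have h1 : (g ^ (p.1 : ℕ)).totalDegree ≤ K := by
      refine (totalDegree_pow _ _).trans ?_
      have := p.1.2
      calc (p.1 : ℕ) * g.totalDegree ≤ p.1 * 1 := Nat.mul_le_mul_left _ hg1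
        _ ≤ K := by omega
    have h2 := degprod p.2 p.2.2
    omega
  let v : I → restrictTotalDegree ι ℝ N := fun p =>
    ⟨g ^ (p.1 : ℕ) * ∏ i, f i ^ (p.2 : ι →₀ ℕ) i, (mem_restrictTotalDegree _ _ _).2 (hdeg p)⟩
  have hfin : Module.finrank ℝ (restrictTotalDegree ι ℝ N) = (expo ι N).card := by
    have b : Module.Basis {n : ι →₀ ℕ | (n.sum fun _ e => e) ≤ N} ℝ (restrictTotalDegree ι ℝ N) :=
      basisRestrictSupport ℝ _
    rw [Module.finrank_eq_nat_card_basis b]
    have hset : {n : ι →₀ ℕ | (n.sum fun _ e => e) ≤ N} = (expo ι N : Set (ι →₀ ℕ)) := by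
      ext m; simp [mem_expo]
    rw [Nat.card_congr (Equiv.setCongr hset), Nat.card_eq_fintype_card]
    simp
  have hnot : ¬ LinearIndependent ℝ v := by
    intro hli
    have h := hli.fintype_card_le_finrank
    rw [hfin, card_expo N M hM', Fintype.card_prod, Fintype.card_fin, Fintype.card_coe,
      card_expo D M hM'] at h
    exact absurd hD (not_lt.2 h)
  obtain ⟨c, hc, ⟨i₀, hi₀⟩⟩ := Fintype.not_linearIndependent_iff.1 hnot
  -- the coefficient polynomials
  let w : Fin K → MvPolynomial ι ℝ := fun e => ∑ m : {m : ι →₀ ℕ // m ∈ expo ι D}, monomial (m : ι →₀ ℕ) (c (e, m))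
  have hw : w i₀.1 ≠ 0 := by
    intro h
    apply hi₀
    have := congrArg (coeff (i₀.2 : ι →₀ ℕ)) h
    simp only [w, coeff_sum, coeff_monomial, coeff_zero] at this
    rw [Finset.sum_eq_single i₀.2] at this
    · simpa using this
    · intro b _ hb
      rw [if_neg]
      intro h'
      exact hb (Subtype.ext h')
    · intro h'; exact absurd (Finset.mem_univ _) h'
  have hrel : ∀ x : ι → ℝ, ∑ e : Fin K, eval x g ^ (e : ℕ) * eval (fun i => eval x (f i)) (w e) = 0 := by
    intro x
    have h := congrArg (fun p : restrictTotalDegree ι ℝ N => eval x (p : MvPolynomial ι ℝ)) hc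
    simp only [v, Submodule.coe_sum, Submodule.coe_smul, map_sum, smul_eval, map_mul, map_pow,
      map_prod, Submodule.coe_zero, map_zero] at h
    rw [← h, Fintype.sum_prod_type]
    refine Finset.sum_congr rfl fun e _ => ?_
    simp only [w, map_sum, eval_monomial]
    rw [Finset.mul_sum]
    refine Finset.sum_congr rfl fun m _ => ?_
    rw [Finsupp.prod_fintype _ _ (by simp)]
    ring
  -- choose the neighbourhoods
  obtain ⟨U, hU, hUd⟩ := ((A.finite_toSet).image (fun x : ι → ℝ => eval x g)).t2_separation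
  have hV : ∀ a ∈ A, (fun x : ι → ℝ => fun i => eval x (f i)) ''
      ((fun x : ι → ℝ => eval x g) ⁻¹' (U (eval a g))) ∈ 𝓝 (0 : ι → ℝ) := by
    intro a ha
    rw [← hA a ha]
    apply Filter.image_mem_map
    exact (MvPolynomial.continuous_eval g).continuousAt.preimage_mem_nhds
      ((hU _).2.mem_nhds (hU _).1)
  obtain ⟨y, hy, hyw⟩ := exists_eval_ne_zero (w i₀.1) hw _ ((Filter.biInter_finset_mem A).2 hV)
  simp only [Set.mem_iInter, Set.mem_image, Set.mem_preimage] at hy
  choose! x hx1 hx2 using hy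
  let P : Polynomial ℝ := ∑ e : Fin K, Polynomial.C (eval y (w e)) * Polynomial.X ^ (e : ℕ)
  have hP : P = 0 := by
    refine Polynomial.eq_zero_of_natDegree_lt_card_of_eval_eq_zero P
      (f := fun a : A => eval (x a) g) ?_ ?_ ?_
    · rintro ⟨a, ha⟩ ⟨b, hb⟩ hab
      by_contra hne
      have hne' : eval a g ≠ eval b g := fun h => hne (Subtype.ext (hg2 ha hb h))
      have h1 := hUd (Set.mem_image_of_mem _ ha) (Set.mem_image_of_mem _ hb) hne'
      simp only at hab
      exact Set.disjoint_left.1 h1 (hx1 a ha) (hab ▸ hx1 b hb)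
    · rintro ⟨a, ha⟩
      simp only [P, Polynomial.eval_finsetSum, Polynomial.eval_mul, Polynomial.eval_C,
        Polynomial.eval_pow, Polynomial.eval_X]
      rw [← hrel (x a), hx2 a ha]
      exact Finset.sum_congr rfl fun e _ => mul_comm _ _
    · rw [Fintype.card_coe, ← hK]
      have : P.degree < K := by
        refine (Polynomial.degree_sum_le _ _).trans_lt ?_
        rw [Finset.sup_lt_iff (WithBot.bot_lt_coe _)]
        intro e _
        refine (Polynomial.degree_C_mul_X_pow_le _ _).trans_lt ?_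
        exact_mod_cast e.2
      by_cases hP0 : P = 0
      · rw [hP0]; simp; omega
      · exact (Polynomial.natDegree_lt_iff_degree_lt hP0).2 this
  apply hyw
  have hco := congrArg (fun q => Polynomial.coeff q (i₀.1 : ℕ)) hP
  simp only [P, Polynomial.finsetSum_coeff, Polynomial.coeff_C_mul, Polynomial.coeff_X_pow,
    Polynomial.coeff_zero] at hco
  rw [Finset.sum_eq_single i₀.1] at hco
  · simpa using hco
  · intro b _ hb
    rw [if_neg, mul_zero]
    intro h'
    exact hb (Fin.ext h'.symm)
  · intro h'; exact absurd (Finset.mem_univ _) h'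

end Pool.Agent.L0h79.BSS
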