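import Pool.Agent.L0h79.BSS.Bezout

/-!
# A Milnor-Thom type bound for the number of separated cells

If a nonnegative polynomial of degree at most `4` in `M` real variables has zeros in `R` disjoint
open sets and no zero on their frontiers, then `R ≤ 3 ^ M`.
-/

open MvPolynomial Finset Filter Topology

namespace Pool.Agent.L0h79.BSS

variable {ι : Type*} [Fintype ι]

omit [Fintype ι] in
lemma totalDegree_pderiv_le' (p : MvPolynomial ι ℝ) (i : ι) (d : ℕ) (hp : p.totalDegree ≤ d + 1) :
    (pderiv i p).totalDegree ≤ d := by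
  classical
  conv_lhs => rw [p.as_sum]
  rw [map_sum]
  refine (totalDegree_finsetSum _ _).trans (Finset.sup_le fun m hm => ?_)
  rw [pderiv_monomial]
  rcases Nat.eq_zero_or_pos (m i) with h0 | h0
  · rw [h0]; simp
  · refine (totalDegree_monomial_le _ _).trans ?_
    have h1 : (m.sum fun _ e => e) ≤ d + 1 := (le_totalDegree hm).trans hp
    have h2 : m = (m - Finsupp.single i 1) + Finsupp.single i 1 := by
      rw [tsub_add_cancel_of_le]
      rw [Finsupp.single_le_iff]
      exact h0
    have h3 : (m.sum fun _ e => e) = ((m - Finsupp.single i 1).sum fun _ e => e) + 1 := by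
      conv_lhs => rw [h2]
      rw [Finsupp.sum_add_index' (by simp) (by simp)]
      simp
    have h4 : ((m - Finsupp.single i 1).sum fun _ => (id : ℕ → ℕ))
      = ((m - Finsupp.single i 1).sum fun _ e => e) := rfl
    omega

/-- the sum of the squares of the coordinates -/
noncomputable def nrm (x : ι → ℝ) : ℝ := ∑ i, x i ^ 2

lemma nrm_nonneg (x : ι → ℝ) : 0 ≤ nrm x := Finset.sum_nonneg fun _ _ => sq_nonneg _

lemma abs_le_nrm (x : ι → ℝ) (i : ι) : |x i| ≤ 1 + nrm x := by
  have h1 : x i ^ 2 ≤ nrm x := Finset.single_le_sum (f := fun i => x i ^ 2)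
    (fun _ _ => sq_nonneg _) (Finset.mem_univ i)
  have h2 : |x i| ^ 2 = x i ^ 2 := sq_abs _
  nlinarith [sq_nonneg (|x i| - 1), abs_nonneg (x i)]

lemma continuous_nrm : Continuous (nrm : (ι → ℝ) → ℝ) := by
  unfold nrm; fun_prop

lemma isCompact_nrm_le (r : ℝ) : IsCompact {x : ι → ℝ | nrm x ≤ r} := by
  refine (isCompact_closedBall (0 : ι → ℝ) (1 + |r|)).of_isClosed_subset
    (isClosed_le continuous_nrm continuous_const) ?_
  intro x hx
  rw [mem_closedBall_zero_iff, pi_norm_le_iff_of_nonneg (by positivity)]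
  intro i
  rw [Real.norm_eq_abs]
  have := abs_le_nrm x i
  have h2 : nrm x ≤ |r| := (show nrm x ≤ r from hx).trans (le_abs_self r)
  linarith

/-- the gradient map of a polynomial -/
noncomputable def grad (G : MvPolynomial ι ℝ) (x : ι → ℝ) : ι → ℝ := fun i => eval x (pderiv i G)

/-- its derivative -/
noncomputable def hess [DecidableEq ι] (G : MvPolynomial ι ℝ) (x : ι → ℝ) :
    (ι → ℝ) →L[ℝ] (ι → ℝ) :=
  ContinuousLinearMap.pi fun i => ∑ j, (eval x (pderiv j (pderiv i G))) •
    (ContinuousLinearMap.proj j : (ι → ℝ) →L[ℝ] ℝ)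

lemma hasStrictFDerivAt_grad [DecidableEq ι] (G : MvPolynomial ι ℝ) (x : ι → ℝ) :
    HasStrictFDerivAt (grad G) (hess G x) x := by
  unfold grad hess
  rw [hasStrictFDerivAt_pi]
  intro i
  exact hasStrictFDerivAt_eval _ _

open MeasureTheory in
/-- **Sard**: arbitrarily close to `0` there are regular values of the gradient map -/
lemma exists_regular [DecidableEq ι] (G : MvPolynomial ι ℝ) (δ : ℝ) (hδ : 0 < δ) :
    ∃ a : ι → ℝ, (∀ i, |a i| < δ) ∧ ∀ x, grad G x = a → (hess G x).det ≠ 0 := by
  set s : Set (ι → ℝ) := {x | (hess G x).det = 0}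
  have h0 : volume (grad G '' s) = 0 :=
    addHaar_image_eq_zero_of_det_fderivWithin_eq_zero volume
      (fun x _ => (hasStrictFDerivAt_grad G x).hasFDerivAt.hasFDerivWithinAt) (fun x hx => hx)
  have h1 : 0 < volume (Metric.ball (0 : ι → ℝ) δ) := Metric.measure_ball_pos _ _ hδ
  have h2 : ¬ (Metric.ball (0 : ι → ℝ) δ ⊆ grad G '' s) := by
    intro h
    exact absurd (measure_mono h) (by rw [h0]; exact not_le.2 h1)
  rw [Set.not_subset] at h2
  obtain ⟨a, ha, hna⟩ := h2
  refine ⟨a, fun i => ?_, fun x hx h => hna ⟨x, h, hx⟩⟩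
  rw [mem_ball_zero_iff, pi_norm_lt_iff hδ] at ha
  exact ha i

/-- **The number of cells.** -/
theorem card_cells (F : MvPolynomial ι ℝ) (hF : F.totalDegree ≤ 4) (hpos : ∀ x, 0 ≤ eval x F)
    {κ : Type*} (S : Finset κ) (W : κ → Set (ι → ℝ)) (hW : ∀ s ∈ S, IsOpen (W s))
    (hdis : ∀ s ∈ S, ∀ t ∈ S, s ≠ t → Disjoint (W s) (W t))
    (hz : ∀ s ∈ S, ∃ x ∈ W s, eval x F = 0)
    (hfr : ∀ s ∈ S, ∀ x ∈ frontier (W s), eval x F ≠ 0) :
    S.card ≤ 3 ^ Fintype.card ι := by
  classical
  choose! p hpW hpF using hz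
  set R : ℝ := 1 + ∑ s ∈ S, nrm (p s) with hR
  have hsum : 0 ≤ ∑ s ∈ S, nrm (p s) := Finset.sum_nonneg fun _ _ => nrm_nonneg _
  have hRpos : 0 < R := by linarith
  have hpR : ∀ s ∈ S, nrm (p s) ≤ R := by
    intro s hs
    have := Finset.single_le_sum (f := fun s => nrm (p s)) (fun _ _ => nrm_nonneg _) hs
    linarith
  set B : Set (ι → ℝ) := {x | nrm x ≤ 4 * R} with hB
  have hBc : IsCompact B := isCompact_nrm_le _
  have hFc : Continuous fun x : ι → ℝ => eval x F := MvPolynomial.continuous_eval F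
  -- the lower bound on the frontiers
  obtain ⟨c, hc0, hc⟩ : ∃ c, 0 < c ∧ ∀ x ∈ ⋃ s ∈ S, (frontier (W s) ∩ B), c ≤ eval x F := by
    refine IsCompact.exists_forall_le' ?_ hFc.continuousOn ?_
    · exact S.isCompact_biUnion fun s _ => hBc.inter_left isClosed_frontier
    · intro x hx
      simp only [Set.mem_iUnion] at hx
      obtain ⟨s, hs, hx⟩ := hx
      exact lt_of_le_of_ne (hpos x) (Ne.symm (hfr s hs x hx.1))
  set ε : ℝ := c / (4 * R) with hε
  have hεpos : 0 < ε := by positivity
  have hcε : c = 4 * (ε * R) := by rw [hε]; field_simp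
  set m : ℝ := (Fintype.card ι : ℝ) with hm
  have hm0 : 0 ≤ m := by positivity
  set δ : ℝ := ε * R / (m * (1 + 4 * R) + 1) with hδ
  have hδpos : 0 < δ := by positivity
  set G : MvPolynomial ι ℝ := F + C ε * ∑ i, X i ^ 2 with hG
  have hGe : ∀ x, eval x G = eval x F + ε * nrm x := by
    intro x
    simp [hG, nrm, map_sum]
  obtain ⟨a, haδ, hreg⟩ := exists_regular G δ hδpos
  -- the linear perturbation is small on `B`
  have hlin : ∀ x ∈ B, |∑ i, a i * x i| ≤ ε * R := by
    intro x hx
    calc |∑ i, a i * x i| ≤ ∑ i, |a i * x i| := Finset.abs_sum_le_sum_abs _ _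
      _ ≤ ∑ i : ι, δ * (1 + 4 * R) := by
          refine Finset.sum_le_sum fun i _ => ?_
          rw [abs_mul]
          have h1 := abs_le_nrm x i
          have h2 : nrm x ≤ 4 * R := hx
          exact mul_le_mul (haδ i).le (by linarith) (abs_nonneg _) hδpos.le
      _ = m * (δ * (1 + 4 * R)) := by rw [Finset.sum_const, nsmul_eq_mul]; rfl
      _ ≤ ε * R := by
          have : δ * (m * (1 + 4 * R) + 1) = ε * R := by rw [hδ]; field_simp
          nlinarith
  let h : (ι → ℝ) → ℝ := fun x => eval x G - ∑ i, a i * x i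
  have hcont : Continuous h := by
    have h1 : Continuous fun x : ι → ℝ => eval x G := MvPolynomial.continuous_eval G
    have h2 : Continuous fun x : ι → ℝ => ∑ i, a i * x i := by fun_prop
    exact h1.sub h2
  have hmin : ∀ s ∈ S, ∃ y, y ∈ W s ∧ grad G y = a := by
    intro s hs
    have hpB : p s ∈ B := by
      have := hpR s hs
      show nrm (p s) ≤ 4 * R
      linarith
    have hK : IsCompact (closure (W s) ∩ B) := hBc.inter_left isClosed_closure
    obtain ⟨y, hyK, hy⟩ := hK.exists_isMinOn ⟨p s, subset_closure (hpW s hs), hpB⟩ hcont.continuousOn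
    have hy' : ∀ z ∈ closure (W s) ∩ B, h y ≤ h z := fun z hz => hy hz
    have hyp : h y ≤ 2 * (ε * R) := by
      refine (hy' _ ⟨subset_closure (hpW s hs), hpB⟩).trans ?_
      show eval (p s) G - ∑ i, a i * p s i ≤ _
      rw [hGe, hpF s hs]
      have h1 := abs_le.1 (hlin _ hpB)
      have h2 : ε * nrm (p s) ≤ ε * R := mul_le_mul_of_nonneg_left (hpR s hs) hεpos.le
      linarith [h1.1]
    have hεR : 0 < ε * R := by positivity
    have hyB := abs_le.1 (hlin y hyK.2)
    have hyh : h y = eval y F + ε * nrm y - ∑ i, a i * y i := by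
      show eval y G - _ = _
      rw [hGe]
    have hyfr : y ∉ frontier (W s) := by
      intro hfy
      have h1 : c ≤ eval y F := hc y (by
        simp only [Set.mem_iUnion]
        exact ⟨s, hs, hfy, hyK.2⟩)
      have h2 : 0 ≤ ε * nrm y := mul_nonneg hεpos.le (nrm_nonneg y)
      linarith [hyB.2]
    have hylt : nrm y < 4 * R := by
      by_contra hge
      push Not at hge
      have h1 : ε * (4 * R) ≤ ε * nrm y := mul_le_mul_of_nonneg_left hge hεpos.le
      have h2 := hpos y
      linarith [hyB.2]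
    have hyW : y ∈ W s := by
      by_contra hn
      apply hyfr
      rw [(hW s hs).frontier_eq]
      exact ⟨hyK.1, hn⟩
    refine ⟨y, hyW, ?_⟩
    have hloc : IsLocalMin h y := by
      have hopen : IsOpen (W s ∩ {x | nrm x < 4 * R}) :=
        (hW s hs).inter (isOpen_lt continuous_nrm continuous_const)
      filter_upwards [hopen.mem_nhds ⟨hyW, hylt⟩] with z hz
      exact hy' z ⟨subset_closure hz.1, (show nrm z ≤ 4 * R from le_of_lt hz.2)⟩
    have hder : HasFDerivAt h ((∑ i, (eval y (pderiv i G)) •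
        (ContinuousLinearMap.proj i : (ι → ℝ) →L[ℝ] ℝ)) -
        ∑ i, a i • (ContinuousLinearMap.proj i : (ι → ℝ) →L[ℝ] ℝ)) y := by
      refine (hasStrictFDerivAt_eval G y).hasFDerivAt.sub ?_
      refine HasFDerivAt.fun_sum fun i _ => ?_
      exact (hasFDerivAt_apply (𝕜 := ℝ) i y).const_mul (a i)
    have h0 := hloc.hasFDerivAt_eq_zero hder
    funext j
    have h1 := congrArg (fun L : (ι → ℝ) →L[ℝ] ℝ => L (Pi.single j 1)) h0
    simp only [_root_.sub_apply, _root_.sum_apply, _root_.smul_apply,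
      ContinuousLinearMap.proj_apply, smul_eq_mul, Pi.single_apply, mul_ite, mul_one, mul_zero,
      Finset.sum_ite_eq', Finset.mem_univ, if_true, _root_.zero_apply] at h1
    show eval y (pderiv j G) = a j
    linarith
  choose! y hyW hya using hmin
  have hinj : Set.InjOn y S := by
    intro s hs t ht hst
    by_contra hne
    exact Set.disjoint_left.1 (hdis s hs t ht hne) (hyW s hs) (hst ▸ hyW t ht)
  rw [← Finset.card_image_of_injOn hinj]
  refine bezout 3 (fun i => pderiv i G - C (a i)) ?_ _ ?_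
  · intro i
    refine (totalDegree_sub _ _).trans (max_le ?_ ?_)
    · refine totalDegree_pderiv_le' _ _ _ ?_
      refine (totalDegree_add _ _).trans (max_le hF ?_)
      refine (totalDegree_mul _ _).trans ?_
      rw [totalDegree_C, zero_add]
      refine (totalDegree_finsetSum _ _).trans (Finset.sup_le fun j _ => ?_)
      refine (totalDegree_pow _ _).trans ?_
      rw [totalDegree_X]; norm_num
    · rw [totalDegree_C]; norm_num
  · intro z hz
    rw [Finset.mem_image] at hz
    obtain ⟨s, hs, rfl⟩ := hz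
    have hg := hya s hs
    have hdet := hreg _ hg
    have e1 : (fun x : ι → ℝ => fun i => eval x (pderiv i G - C (a i))) = fun x => grad G x - a := by
      funext x i
      simp [grad]
    have hd : HasStrictFDerivAt (fun x => grad G x - a) (hess G (y s)) (y s) :=
      (hasStrictFDerivAt_grad G (y s)).sub_const a
    have hsurj : (hess G (y s)).range = ⊤ := by
      have := LinearMap.isUnit_iff_isUnit_det (hess G (y s) : (ι → ℝ) →ₗ[ℝ] (ι → ℝ))
      rw [LinearMap.isUnit_iff_range_eq_top] at this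
      exact this.2 (isUnit_iff_ne_zero.2 hdet)
    have hmap := hd.map_nhds_eq_of_surj hsurj
    rw [e1, hmap, hg, sub_self]

end Pool.Agent.L0h79.BSS
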