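import Mathlib

/-!
# Counting exponent vectors of bounded degree, and a growth comparison
-/

open MvPolynomial Finset Filter Topology

namespace Pool.Agent.L0h79.BSS

/-- the exponent vectors of degree at most `D` -/
noncomputable def expo (ι : Type*) [Fintype ι] (D : ℕ) : Finset (ι →₀ ℕ) := by
  classical
  exact (Finset.range (D + 1)).biUnion fun n => Finset.finsuppAntidiag Finset.univ n

lemma mem_expo {ι : Type*} [Fintype ι] {D : ℕ} {m : ι →₀ ℕ} :
    m ∈ expo ι D ↔ (m.sum fun _ e => e) ≤ D := by
  classical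
  unfold expo
  simp only [Finset.mem_biUnion, Finset.mem_range, Finset.mem_finsuppAntidiag']
  constructor
  · rintro ⟨n, hn, h, -⟩
    rw [h]; omega
  · intro h
    exact ⟨_, Nat.lt_succ_of_le h, rfl, Finset.subset_univ _⟩

lemma card_expo {ι : Type*} [Fintype ι] (D M : ℕ) (hM : Fintype.card ι = M + 1) :
    (expo ι D).card = (D + (M + 1)).choose (M + 1) := by
  classical
  unfold expo
  rw [Finset.card_biUnion]
  · simp only [Finset.card_finsuppAntidiag_nat_eq_choose]
    have h : ∀ n, (#(univ : Finset ι) + n - 1).choose n = (n + M).choose M := by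
      intro n
      rw [Finset.card_univ, hM]
      have : M + 1 + n - 1 = n + M := by omega
      rw [this, Nat.choose_symm_add]
    simp only [h]
    rw [Nat.sum_range_add_choose]
    rfl
  · intro a _ b _ hab
    rw [Function.onFun, Finset.disjoint_left]
    intro m hm hm'
    rw [Finset.mem_finsuppAntidiag] at hm hm'
    exact hab (hm.1.symm.trans hm'.1)

lemma tendsto_ratio (d a b : ℝ) :
    Tendsto (fun D : ℕ => (d * D + a) / ((D : ℝ) + b)) atTop (𝓝 d) := by
  have h1 : Tendsto (fun D : ℕ => (d + a / (D : ℝ)) / (1 + b / (D : ℝ))) atTop (𝓝 ((d + 0) / (1 + 0))) := by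
    apply Tendsto.div
    · exact tendsto_const_nhds.add (tendsto_const_div_atTop_nhds_zero_nat a)
    · exact tendsto_const_nhds.add (tendsto_const_div_atTop_nhds_zero_nat b)
    · norm_num
  rw [add_zero, add_zero, div_one] at h1
  refine h1.congr' ?_
  filter_upwards [eventually_gt_atTop 0] with D hD
  have hD' : (D : ℝ) ≠ 0 := by positivity
  rw [← mul_div_mul_left _ _ hD']
  congr 1 <;> field_simp

/-- for `K > d ^ M` there are eventually more products than monomials -/
lemma exists_count (d K M : ℕ) (hK : d ^ M < K) (r : ℕ) :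
    ∃ D : ℕ, (d * D + r + M).choose M < K * (D + M).choose M := by
  have key : ∀ D : ℕ, (((d * D + r + M).choose M : ℕ) : ℝ) / ((D + M).choose M : ℕ)
      = ∏ i ∈ Finset.range M, ((d : ℝ) * D + (r + 1 + i)) / ((D : ℝ) + (1 + i)) := by
    intro D
    rw [Finset.prod_div_distrib]
    have h1 : (∏ i ∈ Finset.range M, ((d : ℝ) * D + (r + 1 + i)))
        = (M.factorial : ℝ) * ((d * D + r + M).choose M : ℕ) := by
      have e := Nat.ascFactorial_eq_factorial_mul_choose (d * D + r) M
      rw [Nat.ascFactorial_eq_prod_range] at e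
      have e' := congrArg (Nat.cast : ℕ → ℝ) e
      push_cast at e'
      rw [← e']
      refine Finset.prod_congr rfl fun i _ => ?_
      ring
    have h2 : (∏ i ∈ Finset.range M, ((D : ℝ) + (1 + i)))
        = (M.factorial : ℝ) * ((D + M).choose M : ℕ) := by
      have e := Nat.ascFactorial_eq_factorial_mul_choose D M
      rw [Nat.ascFactorial_eq_prod_range] at e
      have e' := congrArg (Nat.cast : ℕ → ℝ) e
      push_cast at e'
      rw [← e']
      refine Finset.prod_congr rfl fun i _ => ?_
      ring
    rw [h1, h2, mul_div_mul_left]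
    exact_mod_cast M.factorial_ne_zero
  have lim : Tendsto (fun D : ℕ => (((d * D + r + M).choose M : ℕ) : ℝ) / ((D + M).choose M : ℕ))
      atTop (𝓝 ((d : ℝ) ^ M)) := by
    simp only [key]
    have : ((d : ℝ) ^ M) = ∏ i ∈ Finset.range M, (d : ℝ) := by simp
    rw [this]
    exact tendsto_finsetProd _ fun i _ => tendsto_ratio _ _ _
  have hlt : (d : ℝ) ^ M < K := by exact_mod_cast hK
  obtain ⟨D, hD⟩ := (lim.eventually_lt_const hlt).exists
  refine ⟨D, ?_⟩
  have hpos : (0 : ℝ) < ((D + M).choose M : ℕ) := by
    exact_mod_cast Nat.choose_pos (by omega)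
  rw [div_lt_iff₀ hpos] at hD
  exact_mod_cast hD

end Pool.Agent.L0h79.BSS
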