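import Pool.Agent.L0h79.BSS.Symbolic

/-!
# Counting cells with a cheap answer
-/

open MvPolynomial Finset

namespace Pool.Agent.L0h79.BSS

variable {P : Type*} {K : ℕ}

lemma cost_succ (M : Machine) (x : ℤ → ℂ) (g : ℕ → ℂ) (t : ℕ) :
    cost M x g (t + 1) = cost M x g t + (if (M.prog (run M x g t).1).costly = true then 1 else 0) := by
  unfold cost
  rw [Finset.range_add_one, Finset.filter_insert]
  split_ifs with h
  · rw [Finset.card_insert_of_notMem]
    simp
  · rfl

lemma cost_mono (M : Machine) (x : ℤ → ℂ) (g : ℕ → ℂ) : Monotone (cost M x g) :=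
  monotone_nat_of_le_succ fun t => by rw [cost_succ]; omega

lemma cost_le (M : Machine) (x : ℤ → ℂ) (g : ℕ → ℂ) (t : ℕ) : cost M x g t ≤ t := by
  unfold cost
  exact (Finset.card_filter_le _ _).trans (by simp)

lemma answers_mono (M : Machine) (x : ℤ → ℂ) (g : ℕ → ℂ) {t T : ℕ} (h : t ≤ T) {b : Bool}
    (ht : Answers M x g t b) : run M x g T = run M x g t ∧ cost M x g T = cost M x g t := by
  induction T, h using Nat.le_induction with
  | base => exact ⟨rfl, rfl⟩
  | succ T hT ih =>
    unfold Answers at ht
    have e : run M x g (T + 1) = run M x g T := by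
      show step M (g T) (run M x g T) = _
      unfold step
      rw [ih.1, ht]
    refine ⟨e.trans ih.1, ?_⟩
    rw [cost_succ, ih.1, ht, ih.2]
    simp [Node.costly]

lemma symStep_cnt (M : Machine) (β : ℕ → Bool) (s : Sym M.V P K) :
    (symStep M β s).cnt = s.cnt + (if (M.prog s.node).costly = true then 1 else 0) := by
  unfold symStep
  cases h : M.prog s.node <;> simp [Node.costly]

/-- the outcome at a costly node -/
noncomputable def bitv (M : Machine) (c : M.V × (ℤ → ℂ)) : Bool := by
  classical
  exact match M.prog c.1 with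
  | .div _ b _ _ => decide (c.2 b = 0)
  | .isZero a _ _ => decide (c.2 a = 0)
  | .isNonneg a _ _ => decide (0 ≤ (c.2 a).re)
  | _ => false

/-- the value written at a costly node -/
noncomputable def uval (M : Machine) (z : ℂ) (c : M.V × (ℤ → ℂ)) : ℂ :=
  match M.prog c.1 with
  | .mul a b _ _ => c.2 a * c.2 b
  | .div a b _ _ => c.2 a / c.2 b
  | .guess _ _ => z
  | _ => 0

/-- the witness at a costly node -/
noncomputable def vval (M : Machine) (c : M.V × (ℤ → ℂ)) : ℂ := by
  classical
  exact match M.prog c.1 with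
  | .div _ b _ _ => (c.2 b)⁻¹
  | .isZero a _ _ => (c.2 a)⁻¹
  | .isNonneg a _ _ => if 0 ≤ (c.2 a).re then ⟨√(c.2 a).re, 0⟩
      else ⟨√(-(c.2 a).re⁻¹), -(c.2 a).re⁻¹⟩
  | _ => 0

/-- the constraints hold if `β, u, v` are taken from the run -/
lemma con_eq_zero (M : Machine) (β : ℕ → Bool) (s : Sym M.V P K) (p : Idx P K → ℝ)
    (c : M.V × (ℤ → ℂ)) (hs : Describes s p c) (z : ℂ)
    (h : (M.prog c.1).costly = true →
      β s.cnt = bitv M c ∧ uu p s.cnt = uval M z c ∧ vv p s.cnt = vval M c) :
    con M β s p = (0, 0) := by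
  obtain ⟨h1, h2⟩ := hs
  unfold con
  rw [h1]
  unfold bitv uval vval at h
  cases hn : M.prog c.1 with
  | const e d n => rfl
  | scale e a d n => rfl
  | conj a d n => rfl
  | add a b d n => rfl
  | sub a b d n => rfl
  | mul a b d n =>
    simp only [hn, Node.costly, forall_const] at h
    simp only [h2, h.2.1, sub_self]
  | div a b d n =>
    simp only [hn, Node.costly, forall_const] at h
    obtain ⟨hb, hu, hv⟩ := h
    simp only
    rw [hb, hu, hv, h2, h2]
    by_cases h0 : c.2 b = 0
    · simp [h0]
    · simp only [h0, decide_false, Bool.false_eq_true, if_false]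
      rw [div_mul_cancel₀ _ h0, inv_mul_cancel₀ h0, sub_self, sub_self]
  | shift r n => rfl
  | guess d n => rfl
  | isZero a y n =>
    simp only [hn, Node.costly, forall_const] at h
    obtain ⟨hb, hu, hv⟩ := h
    simp only
    rw [hb, hv, h2]
    by_cases h0 : c.2 a = 0
    · simp [h0]
    · simp only [h0, decide_false, Bool.false_eq_true, if_false]
      rw [inv_mul_cancel₀ h0, sub_self]
  | isNonneg a y n =>
    simp only [hn, Node.costly, forall_const] at h
    obtain ⟨hb, hu, hv⟩ := h
    simp only
    rw [hb, hv, h2]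
    by_cases h0 : 0 ≤ (c.2 a).re
    · simp only [h0, decide_true, if_true]
      rw [← Complex.ofReal_mul, Real.mul_self_sqrt h0, sub_self]
    · simp only [h0, decide_false, Bool.false_eq_true, if_false]
      push Not at h0
      have h3 : 0 ≤ -(c.2 a).re⁻¹ := by
        have := inv_lt_zero.2 h0
        linarith
      rw [← Complex.ofReal_mul, Real.mul_self_sqrt h3, sub_self, ← Complex.ofReal_mul]
      have : (c.2 a).re * -(c.2 a).re⁻¹ = -1 := by
        rw [mul_neg, mul_inv_cancel₀ h0.ne]
      rw [this]; simp
  | output b => rfl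

lemma step_uval (M : Machine) (z : ℂ) (c : M.V × (ℤ → ℂ)) (w : ℂ)
    (h : (M.prog c.1).costly = true → w = uval M z c) : step M w c = step M z c := by
  unfold step
  cases hn : M.prog c.1 with
  | guess d n =>
    unfold uval at h
    simp only [hn, Node.costly, forall_const] at h
    simp only [h]
  | _ => rfl

/-- extend a bit string by `false` -/
def ext (β : Fin K → Bool) (j : ℕ) : Bool := if h : j < K then β ⟨j, h⟩ else false

/-- an actual run of cost at most `K` gives a point and a bit string at which the constraints hold -/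
lemma exists_point (M : Machine) (x : (P → ℝ) → ℤ → ℂ) (q : P → ℝ) (g : ℕ → ℂ) (T : ℕ)
    (hK : cost M (x q) g T ≤ K) :
    ∃ (β : Fin K → Bool) (p : Idx P K → ℝ), (fun a => p (.inl a)) = q ∧
      total M x (ext β) T p = 0 ∧ (sym M x (ext β) T : Sym M.V P K).node = (run M (x q) g T).1 := by
  classical
  set c := run M (x q) g with hc
  let S := {t : ℕ // (M.prog (c t).1).costly = true}
  let cS : S → ℕ := fun t => cost M (x q) g t.1
  have hcS : Function.Injective cS := by
    have key : ∀ s t : S, s.1 < t.1 → cS s < cS t := by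
      intro s t hst
      have h1 : cost M (x q) g (s.1 + 1) = cost M (x q) g s.1 + 1 := by
        rw [cost_succ, if_pos s.2]
      have h2 := cost_mono M (x q) g (show s.1 + 1 ≤ t.1 from hst)
      show cost M (x q) g s.1 < cost M (x q) g t.1
      omega
    intro s t hst
    rcases lt_trichotomy s.1 t.1 with h | h | h
    · exact absurd hst (key s t h).ne
    · exact Subtype.ext h
    · exact absurd hst (key t s h).ne'
  let B : ℕ → Bool := Function.extend cS (fun t => bitv M (c t.1)) (fun _ => false)
  let U : ℕ → ℂ := Function.extend cS (fun t => uval M (g t.1) (c t.1)) (fun _ => 0)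
  let V : ℕ → ℂ := Function.extend cS (fun t => vval M (c t.1)) (fun _ => 0)
  let β : Fin K → Bool := fun j => B j
  let p : Idx P K → ℝ := Sum.elim q fun jr =>
    if jr.2 = 0 then (U jr.1).re else if jr.2 = 1 then (U jr.1).im
      else if jr.2 = 2 then (V jr.1).re else (V jr.1).im
  have hU : ∀ j, j < K → uu p j = U j := by
    intro j hj
    unfold uu
    rw [dif_pos hj]
    apply Complex.ext <;> simp [p]
  have hV : ∀ j, j < K → vv p j = V j := by
    intro j hj
    unfold vv
    rw [dif_pos hj]
    apply Complex.ext <;> simp [p]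
  have hB : ∀ j, j < K → ext β j = B j := by
    intro j hj
    unfold ext
    rw [dif_pos hj]
  have main : ∀ t ≤ T, Describes (sym M x (ext β) t : Sym M.V P K) p (c t) ∧
      (sym M x (ext β) t : Sym M.V P K).cnt = cost M (x q) g t ∧
      ∀ t' < t, con M (ext β) (sym M x (ext β) t') p = (0, 0) := by
    intro t
    induction t with
    | zero =>
      intro _
      refine ⟨⟨rfl, fun i => rfl⟩, rfl, fun t' ht' => absurd ht' (Nat.not_lt_zero _)⟩
    | succ t ih =>
      intro ht
      obtain ⟨h1, h2, h3⟩ := ih (by omega)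
      have hcost : (M.prog (c t).1).costly = true →
          ext β (sym M x (ext β) t : Sym M.V P K).cnt = bitv M (c t) ∧
          uu p (sym M x (ext β) t : Sym M.V P K).cnt = uval M (g t) (c t) ∧
          vv p (sym M x (ext β) t : Sym M.V P K).cnt = vval M (c t) := by
        intro hco
        have e1 : cost M (x q) g (t + 1) = cost M (x q) g t + 1 := by
          rw [cost_succ, if_pos hco]
        have e2 : cost M (x q) g (t + 1) ≤ K := (cost_mono M (x q) g ht).trans hK
        have e3 : cost M (x q) g t < K := by omega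
        rw [h2, hB _ e3, hU _ e3, hV _ e3]
        have e4 : cost M (x q) g t = cS ⟨t, hco⟩ := rfl
        rw [e4]
        exact ⟨hcS.extend_apply _ _ _, hcS.extend_apply _ _ _, hcS.extend_apply _ _ _⟩
      have hcon := con_eq_zero M (ext β) _ p (c t) h1 (g t) hcost
      refine ⟨?_, ?_, ?_⟩
      · have := describes_step M (ext β) _ p (c t) h1 hcon
        have e : c (t + 1) = step M (uu p (sym M x (ext β) t : Sym M.V P K).cnt) (c t) := by
          rw [step_uval M (g t) (c t) _ fun hco => (hcost hco).2.1]
          rfl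
        rw [e]
        exact this
      · show (symStep M (ext β) _).cnt = _
        rw [symStep_cnt, h2, cost_succ, h1.1]
      · intro t' ht'
        rcases Nat.lt_succ_iff_lt_or_eq.1 ht' with h | h
        · exact h3 t' h
        · rw [h]; exact hcon
  obtain ⟨h1, -, h3⟩ := main T le_rfl
  exact ⟨β, p, rfl, (total_eq_zero _ _ _ _ _).2 h3, h1.1⟩

/-- conversely a zero of the constraints gives a run along the symbolic path -/
lemma run_of_total (M : Machine) (x : (P → ℝ) → ℤ → ℂ) (β : ℕ → Bool) (T : ℕ) (p : Idx P K → ℝ)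
    (h : total M x β T p = 0) :
    ∃ g : ℕ → ℂ, (run M (x fun a => p (.inl a)) g T).1 = (sym M x β T : Sym M.V P K).node := by
  rw [total_eq_zero] at h
  refine ⟨fun t => uu p (sym M x β t : Sym M.V P K).cnt, ?_⟩
  have main : ∀ t ≤ T, Describes (sym M x β t : Sym M.V P K) p
      (run M (x fun a => p (.inl a)) (fun t => uu p (sym M x β t : Sym M.V P K).cnt) t) := by
    intro t
    induction t with
    | zero => exact fun _ => ⟨rfl, fun i => rfl⟩
    | succ t ih =>
      intro ht
      exact describes_step M β _ p _ (ih (by omega)) (h t (by omega))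
  exact (main T le_rfl).1.symm

/-- **Few cells have a cheap answer.**  Let the input tape depend affinely on real parameters `q`,
let the open sets `U s` be disjoint, with frontiers contained in a set `Bad` of parameters for which
the machine never answers `false`.  Then at most `2 ^ K * 3 ^ (|P| + 4 K)` of these sets contain a
parameter for which some run of cost at most `K` answers `false`. -/
theorem card_easy [Fintype P] (M : Machine) (K : ℕ) (x : (P → ℝ) → ℤ → ℂ)
    (hx : ∀ i, CPoly 1 (fun q => x q i)) (Bad : Set (P → ℝ))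
    (sound : ∀ q g t, Answers M (x q) g t false → q ∉ Bad)
    {κ : Type*} (S : Finset κ) (U : κ → Set (P → ℝ)) (hU : ∀ s ∈ S, IsOpen (U s))
    (hdis : ∀ s ∈ S, ∀ t ∈ S, s ≠ t → Disjoint (U s) (U t))
    (hfr : ∀ s ∈ S, frontier (U s) ⊆ Bad)
    (easy : ∀ s ∈ S, ∃ q ∈ U s, ∃ g t, Answers M (x q) g t false ∧ cost M (x q) g t ≤ K) :
    S.card ≤ 2 ^ K * 3 ^ (Fintype.card P + 4 * K) := by
  classical
  choose! q hqU g t hans hcost using easy
  set T := S.sup t with hT
  have htT : ∀ s ∈ S, t s ≤ T := fun s hs => Finset.le_sup hs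
  have hans' : ∀ s ∈ S, Answers M (x (q s)) (g s) T false ∧ cost M (x (q s)) (g s) T ≤ K := by
    intro s hs
    obtain ⟨h1, h2⟩ := answers_mono M (x (q s)) (g s) (htT s hs) (hans s hs)
    refine ⟨?_, by rw [h2]; exact hcost s hs⟩
    unfold Answers
    rw [h1]
    exact hans s hs
  have hpt : ∀ s ∈ S, ∃ (β : Fin K → Bool) (p : Idx P K → ℝ), (fun a => p (.inl a)) = q s ∧
      total M x (ext β) T p = 0 ∧
        (sym M x (ext β) T : Sym M.V P K).node = (run M (x (q s)) (g s) T).1 :=
    fun s hs => exists_point M x (q s) (g s) T (hans' s hs).2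
  choose! β p hp1 hp2 hp3 using hpt
  have hproj : Continuous fun p : Idx P K → ℝ => fun a : P => p (.inl a) := by fun_prop
  have hfib : ∀ b ∈ S.image β, (S.filter fun s => β s = b).card ≤ 3 ^ (Fintype.card P + 4 * K) := by
    intro b hb
    obtain ⟨s₀, hs₀, rfl⟩ := Finset.mem_image.1 hb
    obtain ⟨F, hF, hFe⟩ := polyFn_total (K := K) M x hx (ext (β s₀)) T
    have hcard : Fintype.card (Idx P K) = Fintype.card P + 4 * K := by
      rw [Fintype.card_sum, Fintype.card_prod, Fintype.card_fin, Fintype.card_fin, mul_comm K 4]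
    rw [← hcard]
    refine card_cells F hF (fun y => by rw [hFe]; exact total_nonneg _ _ _ _ _) _
      (fun s => (fun p : Idx P K → ℝ => fun a : P => p (.inl a)) ⁻¹' U s) ?_ ?_ ?_ ?_
    · intro s hs
      exact (hU s (Finset.mem_filter.1 hs).1).preimage hproj
    · intro s hs t ht hst
      exact (hdis s (Finset.mem_filter.1 hs).1 t (Finset.mem_filter.1 ht).1 hst).preimage _
    · intro s hs
      obtain ⟨hs1, hs2⟩ := Finset.mem_filter.1 hs
      refine ⟨p s, ?_, ?_⟩
      · show (fun a => p s (.inl a)) ∈ U s
        rw [hp1 s hs1]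
        exact hqU s hs1
      · rw [hFe, ← hs2]
        exact hp2 s hs1
    · intro s hs y hy h0
      obtain ⟨hs1, hs2⟩ := Finset.mem_filter.1 hs
      have hy' : (fun a => y (.inl a)) ∈ frontier (U s) :=
        hproj.frontier_preimage_subset _ hy
      have hbad := hfr s hs1 hy'
      rw [hFe] at h0
      obtain ⟨g', hg'⟩ := run_of_total M x (ext (β s₀)) T y h0
      refine sound _ g' T ?_ hbad
      unfold Answers
      rw [hg', hp3 s₀ hs₀]
      exact (hans' s₀ hs₀).1
  have h1 : S.card ≤ 3 ^ (Fintype.card P + 4 * K) * (S.image β).card :=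
    Finset.card_le_mul_card_image S _ hfib
  have h2 : (S.image β).card ≤ 2 ^ K := by
    refine (Finset.card_le_univ _).trans ?_
    simp
  calc S.card ≤ _ := h1
    _ ≤ 3 ^ (Fintype.card P + 4 * K) * 2 ^ K := Nat.mul_le_mul_left _ h2
    _ = _ := mul_comm _ _

end Pool.Agent.L0h79.BSS
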