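import Mathlib

/-!
# Field automorphisms of `ℂ` moving a generic point
-/

open MvPolynomial

namespace Pool.Agent.L0h79.BSS

/-- a transcendental number is moved by an automorphism of `ℂ` which fixes the base ring -/
lemma exists_move_one {R : Type*} [CommRing R] [Algebra R ℂ] (x : ℂ)
    (hx : Transcendental R x) :
    ∃ σ : ℂ ≃+* ℂ, (∀ r : R, σ (algebraMap R ℂ r) = algebraMap R ℂ r) ∧ σ x ≠ x := by
  classical
  have hind : AlgebraicIndepOn R id ({x} : Set ℂ) := by
    have : AlgebraicIndependent R (fun i : ({x} : Set ℂ) => (i : ℂ)) := by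
      have e : Unique ({x} : Set ℂ) := Set.uniqueSingleton x
      rw [algebraicIndependent_unique_type_iff]
      rw [show ((default : ({x} : Set ℂ)) : ℂ) = x from (default : ({x} : Set ℂ)).2]
      exact hx
    exact this
  obtain ⟨t, hst, ht⟩ := exists_isTranscendenceBasis_superset hind
  have : Nontrivial R := (algebraMap R ℂ).domain_nontrivial
  let := IsAlgClosed.isAlgClosure_of_transcendence_basis (R := R) (fun i : t => (i : ℂ)) ht
  let sh : MvPolynomial t R ≃ₐ[R] MvPolynomial t R :=
    AlgEquiv.ofAlgHom (aeval fun i => X i + 1) (aeval fun i => X i - 1)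
      (by ext i; simp) (by ext i; simp)
  let e : Algebra.adjoin R (Set.range (fun i : t => (i : ℂ))) ≃+*
      Algebra.adjoin R (Set.range (fun i : t => (i : ℂ))) :=
    (ht.1.aevalEquiv.symm.trans (sh.trans ht.1.aevalEquiv)).toRingEquiv
  refine ⟨IsAlgClosure.equivOfEquiv ℂ ℂ e, fun r => ?_, ?_⟩
  · have h1 := IsAlgClosure.equivOfEquiv_algebraMap ℂ ℂ e
      (algebraMap R (Algebra.adjoin R (Set.range (fun i : t => (i : ℂ)))) r)
    have h2 : e (algebraMap R (Algebra.adjoin R (Set.range (fun i : t => (i : ℂ)))) r) =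
        algebraMap R (Algebra.adjoin R (Set.range (fun i : t => (i : ℂ)))) r :=
      (ht.1.aevalEquiv.symm.trans (sh.trans ht.1.aevalEquiv)).commutes r
    rw [h2] at h1
    exact h1
  · have hxt : x ∈ t := hst rfl
    let y : Algebra.adjoin R (Set.range (fun i : t => (i : ℂ))) :=
      ⟨x, Algebra.subset_adjoin ⟨⟨x, hxt⟩, rfl⟩⟩
    have hy : ht.1.aevalEquiv (X ⟨x, hxt⟩) = y := by
      apply Subtype.ext
      have := ht.1.algebraMap_aevalEquiv (X ⟨x, hxt⟩)
      rw [aeval_X] at this
      exact this
    have h1 := IsAlgClosure.equivOfEquiv_algebraMap ℂ ℂ e y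
    have h2 : e y = y + 1 := by
      change ht.1.aevalEquiv (sh (ht.1.aevalEquiv.symm y)) = y + 1
      rw [← hy, AlgEquiv.symm_apply_apply]
      have : sh (X ⟨x, hxt⟩) = X ⟨x, hxt⟩ + 1 := by
        change aeval (fun i => X i + 1) (X ⟨x, hxt⟩ : MvPolynomial t R) = _
        rw [aeval_X]
      rw [this, map_add, map_one]
    rw [h2, map_add, map_one] at h1
    change IsAlgClosure.equivOfEquiv ℂ ℂ e x = x + 1 at h1
    rw [h1]
    simp

/-- **Moving a generic point.** If `a` is algebraically independent over the subfield `K` and `S` has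
fewer elements than `a`, then some automorphism of `ℂ` fixes `K` and `S` but moves `a`. -/
theorem exists_move (K : Subfield ℂ) {ι : Type*} [Fintype ι] (a : ι → ℂ)
    (ha : AlgebraicIndependent K a) (S : Set ℂ) (hS : S.encard < Fintype.card ι) :
    ∃ σ : ℂ ≃+* ℂ, (∀ x ∈ K, σ x = x) ∧ (∀ x ∈ S, σ x = x) ∧ (fun i => σ (a i)) ≠ a := by
  classical
  have : FaithfulSMul K ℂ := inferInstance
  let 𝓜 := AlgebraicIndependent.matroid K ℂ
  obtain ⟨i, hi⟩ : ∃ i, a i ∉ 𝓜.closure S := by
    by_contra hcon
    push Not at hcon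
    have hI : 𝓜.Indep (Set.range a) := by
      rw [AlgebraicIndependent.matroid_indep_iff]
      exact ha.coe_range
    have h1 := hI.encard_le_eRk_of_subset (Set.range_subset_iff.2 hcon)
    rw [Matroid.eRk_closure_eq] at h1
    have h2 := h1.trans (𝓜.eRk_le_encard S)
    have h3 : (Set.range a).encard = Fintype.card ι := by
      rw [← Set.image_univ, ha.injective.encard_image, Set.encard_univ, ENat.card_eq_coe_fintype_card]
    rw [h3] at h2
    exact absurd (h2.trans_lt hS) (lt_irrefl _)
  rw [AlgebraicIndependent.matroid_closure_eq] at hi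
  have htr : Transcendental (Algebra.adjoin K S) (a i) := by
    intro h
    exact hi h
  obtain ⟨σ, hσ, hne⟩ := exists_move_one (a i) htr
  refine ⟨σ, fun x hx => ?_, fun x hx => ?_, fun h => hne (congrFun h i)⟩
  · exact hσ (algebraMap K (Algebra.adjoin K S) ⟨x, hx⟩)
  · exact hσ ⟨x, Algebra.subset_adjoin hx⟩

/-- generic points exist -/
theorem exists_generic (T : Set ℂ) (hT : T.Countable) (ι : Type) [Finite ι] :
    ∃ a : ι → ℂ, AlgebraicIndependent (Subfield.closure T) a := by
  classical
  let K := Subfield.closure T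
  obtain ⟨s, hs⟩ := exists_isTranscendenceBasis (R := K) ℂ
  have hK : Cardinal.mk K ≤ Cardinal.aleph0 := by
    refine (Subfield.cardinalMk_closure_le_max T).trans ?_
    exact max_le (Cardinal.le_aleph0_iff_set_countable.2 hT) le_rfl
  have hC : Cardinal.aleph0 < Cardinal.mk ℂ := by
    rw [Cardinal.mk_complex]; exact Cardinal.aleph0_lt_continuum
  have h1 := IsAlgClosed.cardinal_eq_cardinal_transcendence_basis_of_aleph0_lt' _ hs hK hC
  have h2 : Infinite s := by
    rw [Cardinal.infinite_iff, ← h1]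
    exact hC.le
  obtain ⟨f⟩ : Nonempty (ι ↪ s) := by
    have := Fintype.ofFinite ι
    exact ⟨(Fintype.equivFin ι).toEmbedding.trans
      ((Fin.valEmbedding).trans (Infinite.natEmbedding s))⟩
  exact ⟨fun i => (f i : ℂ), hs.1.comp f f.injective⟩

end Pool.Agent.L0h79.BSS
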