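import Pool.Agent.L0h79.BSS.Defs
import Pool.Agent.L0h79.BSS.Move

/-!
# Crossing sequences of machines over `ℂ`
-/

open Function

namespace Pool.Agent.L0h79.BSS

/-- configurations with a fixed tape and a moving head -/
structure Cfg (V : Type) where
  node : V
  head : ℤ
  tp : ℤ → ℂ

/-- all positions used by the node are at distance at most `W` from the head -/
def Node.within {V : Type} (W : ℤ) : Node V → Prop
  | const _ d _ => |d| ≤ W
  | scale _ a d _ => |a| ≤ W ∧ |d| ≤ W
  | conj a d _ => |a| ≤ W ∧ |d| ≤ W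
  | add a b d _ => |a| ≤ W ∧ |b| ≤ W ∧ |d| ≤ W
  | sub a b d _ => |a| ≤ W ∧ |b| ≤ W ∧ |d| ≤ W
  | mul a b d _ => |a| ≤ W ∧ |b| ≤ W ∧ |d| ≤ W
  | div a b d _ => |a| ≤ W ∧ |b| ≤ W ∧ |d| ≤ W
  | shift _ _ => True
  | guess d _ => |d| ≤ W
  | isZero a _ _ => |a| ≤ W
  | isNonneg a _ _ => |a| ≤ W
  | output _ => True

/-- all positions used by the nodes of the machine are between `-W` and `W` -/
def Within (M : Machine) (W : ℤ) : Prop := ∀ v, (M.prog v).within W

/-- the constant used by a node -/
def Node.cst {V : Type} : Node V → ℂ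
  | const c _ _ => c
  | scale c _ _ _ => c
  | _ => 0

lemma Node.within_mono {V : Type} {W W' : ℤ} (h : W ≤ W') (n : Node V) (hn : n.within W) :
    n.within W' := by
  cases n <;> simp only [Node.within] at hn ⊢ <;> grind

lemma Node.exists_within {V : Type} (n : Node V) : ∃ W : ℤ, n.within W := by
  cases n with
  | const c d n => exact ⟨|d|, le_refl _⟩
  | scale c a d n => exact ⟨max |a| |d|, le_max_left _ _, le_max_right _ _⟩
  | conj a d n => exact ⟨max |a| |d|, le_max_left _ _, le_max_right _ _⟩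
  | add a b d n => exact ⟨max |a| (max |b| |d|), by simp [Node.within]⟩
  | sub a b d n => exact ⟨max |a| (max |b| |d|), by simp [Node.within]⟩
  | mul a b d n => exact ⟨max |a| (max |b| |d|), by simp [Node.within]⟩
  | div a b d n => exact ⟨max |a| (max |b| |d|), by simp [Node.within]⟩
  | shift r n => exact ⟨0, trivial⟩
  | guess d n => exact ⟨|d|, le_refl _⟩
  | isZero a y n => exact ⟨|a|, le_refl _⟩
  | isNonneg a y n => exact ⟨|a|, le_refl _⟩
  | output b => exact ⟨0, trivial⟩

/-- every machine uses only positions between `-W` and `W`, for some `W` -/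
lemma exists_within (M : Machine) : ∃ W : ℕ, 1 ≤ W ∧ Within M W := by
  classical
  have := M.finite_V
  choose w hw using fun v => (M.prog v).exists_within
  obtain ⟨B, hB⟩ := (Set.finite_range w).bddAbove
  refine ⟨B.toNat + 1, by omega, fun v => Node.within_mono ?_ _ (hw v)⟩
  have := hB ⟨v, rfl⟩
  omega

variable {M : Machine}

open Classical in
/-- one step -/
noncomputable def astep (M : Machine) (g : ℂ) (s : Cfg M.V) : Cfg M.V :=
  match M.prog s.node with
  | .const c d n => ⟨n, s.head, update s.tp (s.head + d) c⟩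
  | .scale c a d n => ⟨n, s.head, update s.tp (s.head + d) (c * s.tp (s.head + a))⟩
  | .conj a d n => ⟨n, s.head, update s.tp (s.head + d) ((starRingEnd ℂ) (s.tp (s.head + a)))⟩
  | .add a b d n => ⟨n, s.head, update s.tp (s.head + d) (s.tp (s.head + a) + s.tp (s.head + b))⟩
  | .sub a b d n => ⟨n, s.head, update s.tp (s.head + d) (s.tp (s.head + a) - s.tp (s.head + b))⟩
  | .mul a b d n => ⟨n, s.head, update s.tp (s.head + d) (s.tp (s.head + a) * s.tp (s.head + b))⟩
  | .div a b d n => ⟨n, s.head, update s.tp (s.head + d) (s.tp (s.head + a) / s.tp (s.head + b))⟩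
  | .shift r n => ⟨n, if r then s.head - 1 else s.head + 1, s.tp⟩
  | .guess d n => ⟨n, s.head, update s.tp (s.head + d) g⟩
  | .isZero a y n => ⟨if s.tp (s.head + a) = 0 then y else n, s.head, s.tp⟩
  | .isNonneg a y n => ⟨if 0 ≤ (s.tp (s.head + a)).re then y else n, s.head, s.tp⟩
  | .output _ => s

/-- the tape as seen from the head -/
def Cfg.rel {V : Type} (s : Cfg V) : V × (ℤ → ℂ) := (s.node, fun i => s.tp (s.head + i))

lemma update_rel (X : ℤ → ℂ) (h d : ℤ) (w : ℂ) :
    (fun i => update X (h + d) w (h + i)) = update (fun i => X (h + i)) d w := by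
  funext i
  rcases eq_or_ne i d with rfl | hid
  · simp
  · rw [update_of_ne hid, update_of_ne (by omega)]

lemma rel_astep (g : ℂ) (s : Cfg M.V) : (astep M g s).rel = step M g s.rel := by
  unfold astep step Cfg.rel
  cases M.prog s.node with
  | shift r n =>
    simp only
    congr 1
    funext i
    cases r
    · simp only [Bool.false_eq_true, if_false]; congr 1; ring
    · simp only [if_true]; congr 1; ring
  | output b => rfl
  | isZero a y n => rfl
  | isNonneg a y n => rfl
  | _ => simp only [update_rel]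

/-- the state after `t` steps -/
noncomputable def arun (M : Machine) : ℕ → Cfg M.V → (ℕ → ℂ) → Cfg M.V
  | 0, s, _ => s
  | t + 1, s, g => arun M t (astep M (g 0) s) fun i => g (i + 1)

lemma arun_succ (t : ℕ) (s : Cfg M.V) (g : ℕ → ℂ) :
    arun M (t + 1) s g = astep M (g t) (arun M t s g) := by
  induction t generalizing s g with
  | zero => rfl
  | succ t ih =>
    change arun M (t + 1) (astep M (g 0) s) (fun i => g (i + 1)) = _
    rw [ih]
    rfl

/-- the initial configuration -/
def init (M : Machine) (x : ℤ → ℂ) : Cfg M.V := ⟨M.start, 0, x⟩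

lemma rel_arun (t : ℕ) (x : ℤ → ℂ) (g : ℕ → ℂ) :
    (arun M t (init M x) g).rel = run M x g t := by
  induction t with
  | zero => simp [arun, run, init, Cfg.rel]
  | succ t ih => rw [arun_succ, rel_astep, ih]; rfl

lemma answers_iff (t : ℕ) (x : ℤ → ℂ) (g : ℕ → ℂ) (b : Bool) :
    Answers M x g t b ↔ M.prog (arun M t (init M x) g).node = .output b := by
  unfold Answers
  rw [← rel_arun]
  rfl

/-! ### Locality -/

lemma astep_local {W : ℤ} (hW : Within M W) (g : ℂ) (s s' : Cfg M.V) (hn : s'.node = s.node)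
    (hh : s'.head = s.head) (S : Set ℤ) (hS : ∀ i, s.head - W ≤ i → i ≤ s.head + W → i ∈ S)
    (hag : ∀ i ∈ S, s'.tp i = s.tp i) :
    (astep M g s').node = (astep M g s).node ∧ (astep M g s').head = (astep M g s).head ∧
      (∀ i ∈ S, (astep M g s').tp i = (astep M g s).tp i) ∧
      (∀ i, i ∉ S → (astep M g s').tp i = s'.tp i) := by
  obtain ⟨v, h, X⟩ := s
  obtain ⟨v', h', X'⟩ := s'
  simp only at hn hh hS hag
  subst hn hh
  have key : ∀ a : ℤ, |a| ≤ W → X' (h' + a) = X (h' + a) := fun a ha =>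
    hag _ (hS _ (by linarith [(abs_le.1 ha).1]) (by linarith [(abs_le.1 ha).2]))
  have upd : ∀ (d : ℤ) (w w' : ℂ), |d| ≤ W → w' = w →
      (∀ i ∈ S, update X' (h' + d) w' i = update X (h' + d) w i) ∧
      (∀ i, i ∉ S → update X' (h' + d) w' i = X' i) := by
    intro d w w' hd hw
    subst hw
    refine ⟨fun i hi => ?_, fun i hi => ?_⟩
    · rcases eq_or_ne i (h' + d) with rfl | hid
      · simp
      · rw [update_of_ne hid, update_of_ne hid, hag i hi]
    · refine update_of_ne ?_ _ _
      rintro rfl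
      exact hi (hS _ (by linarith [(abs_le.1 hd).1]) (by linarith [(abs_le.1 hd).2]))
  have hp := hW v'
  unfold astep
  simp only
  cases hv : M.prog v' with
  | const c d n =>
    rw [hv] at hp
    exact ⟨rfl, rfl, (upd d _ _ hp rfl).1, (upd d _ _ hp rfl).2⟩
  | scale c a d n =>
    rw [hv] at hp
    have := upd d _ _ hp.2 (congrArg (c * ·) (key a hp.1))
    exact ⟨rfl, rfl, this.1, this.2⟩
  | conj a d n =>
    rw [hv] at hp
    have := upd d _ _ hp.2 (congrArg (starRingEnd ℂ) (key a hp.1))
    exact ⟨rfl, rfl, this.1, this.2⟩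
  | add a b d n =>
    rw [hv] at hp
    have := upd d _ _ hp.2.2 (congrArg₂ (· + ·) (key a hp.1) (key b hp.2.1))
    exact ⟨rfl, rfl, this.1, this.2⟩
  | sub a b d n =>
    rw [hv] at hp
    have := upd d _ _ hp.2.2 (congrArg₂ (· - ·) (key a hp.1) (key b hp.2.1))
    exact ⟨rfl, rfl, this.1, this.2⟩
  | mul a b d n =>
    rw [hv] at hp
    have := upd d _ _ hp.2.2 (congrArg₂ (· * ·) (key a hp.1) (key b hp.2.1))
    exact ⟨rfl, rfl, this.1, this.2⟩
  | div a b d n =>
    rw [hv] at hp
    have := upd d _ _ hp.2.2 (congrArg₂ (· / ·) (key a hp.1) (key b hp.2.1))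
    exact ⟨rfl, rfl, this.1, this.2⟩
  | shift r n => exact ⟨rfl, rfl, hag, fun i _ => rfl⟩
  | guess d n =>
    rw [hv] at hp
    exact ⟨rfl, rfl, (upd d _ _ hp rfl).1, (upd d _ _ hp rfl).2⟩
  | isZero a y n =>
    rw [hv] at hp
    refine ⟨?_, rfl, hag, fun i _ => rfl⟩
    simp only [key a hp]
  | isNonneg a y n =>
    rw [hv] at hp
    refine ⟨?_, rfl, hag, fun i _ => rfl⟩
    simp only [key a hp]
  | output b => exact ⟨rfl, rfl, hag, fun i _ => rfl⟩

lemma astep_head (g : ℂ) (s : Cfg M.V) :
    (astep M g s).head = s.head ∨ (astep M g s).head = s.head + 1 ∨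
      (astep M g s).head = s.head - 1 := by
  unfold astep
  cases M.prog s.node with
  | shift r n => cases r <;> simp
  | _ => simp

/-! ### Automorphisms -/

/-- apply `σ` to all entries of the tape -/
def Cfg.map {V : Type} (σ : ℂ ≃+* ℂ) (s : Cfg V) : Cfg V := ⟨s.node, s.head, fun i => σ (s.tp i)⟩

lemma map_astep (hM : ∀ v, (M.prog v).standardOrGuess) (σ : ℂ ≃+* ℂ)
    (hσ : ∀ v, σ (M.prog v).cst = (M.prog v).cst) (g : ℂ) (s : Cfg M.V) :
    astep M (σ g) (s.map σ) = (astep M g s).map σ := by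
  obtain ⟨v, h, X⟩ := s
  have hp := hM v
  have hc := hσ v
  have upd : ∀ (d : ℤ) (w w' : ℂ), w' = σ w →
      update (fun i => σ (X i)) d w' = fun i => σ (update X d w i) := by
    intro d w w' hw
    subst hw
    funext i
    rcases eq_or_ne i d with rfl | hid
    · simp
    · rw [update_of_ne hid, update_of_ne hid]
  unfold astep Cfg.map
  simp only
  cases hv : M.prog v with
  | const c d n =>
    rw [hv] at hc
    simp only [Cfg.mk.injEq, true_and]
    exact upd _ _ _ hc.symm
  | scale c a d n =>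
    rw [hv] at hc
    simp only [Cfg.mk.injEq, true_and]
    refine upd _ _ _ ?_
    rw [map_mul, show σ c = c from hc]
  | conj a d n => rw [hv] at hp; exact absurd hp (by simp [Node.standardOrGuess])
  | add a b d n =>
    simp only [Cfg.mk.injEq, true_and]
    exact upd _ _ _ (map_add σ _ _).symm
  | sub a b d n =>
    simp only [Cfg.mk.injEq, true_and]
    exact upd _ _ _ (map_sub σ _ _).symm
  | mul a b d n =>
    simp only [Cfg.mk.injEq, true_and]
    exact upd _ _ _ (map_mul σ _ _).symm
  | div a b d n =>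
    simp only [Cfg.mk.injEq, true_and]
    exact upd _ _ _ (map_div₀ σ _ _).symm
  | shift r n => rfl
  | guess d n =>
    simp only [Cfg.mk.injEq, true_and]
    exact upd _ _ _ rfl
  | isZero a y n =>
    simp only [Cfg.mk.injEq, and_true]
    by_cases h0 : X (h + a) = 0
    · rw [if_pos h0, if_pos (by rw [h0, map_zero])]
    · rw [if_neg h0, if_neg (by simpa using h0)]
  | isNonneg a y n => rw [hv] at hp; exact absurd hp (by simp [Node.standardOrGuess])
  | output b => rfl

/-! ### Phases and messages -/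

/-- the side of the boundary `p` on which the head is -/
def side {V : Type} (p : ℤ) (s : Cfg V) : Bool := decide (s.head < p)

/-- the part of the tape which is visible from both sides -/
def msg {V : Type} (p W : ℤ) (s : Cfg V) : Cfg V :=
  ⟨s.node, s.head, fun j => if p - W ≤ j ∧ j < p + W then s.tp j else 0⟩

/-- the cells which are visible from a side -/
def reg (p W : ℤ) (b : Bool) : Set ℤ := if b then {j | j < p + W} else {j | p - W ≤ j}

lemma mem_reg_true {p W j : ℤ} : j ∈ reg p W true ↔ j < p + W := by simp [reg]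

lemma mem_reg_false {p W j : ℤ} : j ∈ reg p W false ↔ p - W ≤ j := by simp [reg]

/-- the run from `s` to `d`, with the list of the messages at the crossings of `p` -/
inductive Ph (M : Machine) (p W : ℤ) : List (Cfg M.V) → Cfg M.V → Cfg M.V → Prop
  | nil (s) : Ph M p W [] s s
  | stay {L s d} (g : ℂ) : side p (astep M g s) = side p s → Ph M p W L (astep M g s) d →
      Ph M p W L s d
  | cross {L s d} (g : ℂ) : side p (astep M g s) ≠ side p s → Ph M p W L (astep M g s) d →
      Ph M p W (msg p W (astep M g s) :: L) s d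

/-- reachability -/
def Reach (M : Machine) : Cfg M.V → Cfg M.V → Prop :=
  Relation.ReflTransGen fun s s' => ∃ g, s' = astep M g s

lemma exists_arun {s d : Cfg M.V} (h : Reach M s d) : ∃ (g : ℕ → ℂ) (t : ℕ), arun M t s g = d := by
  induction h using Relation.ReflTransGen.head_induction_on with
  | refl => exact ⟨0, 0, rfl⟩
  | head h1 _ ih =>
    obtain ⟨g, rfl⟩ := h1
    obtain ⟨g', t, h⟩ := ih
    exact ⟨fun i => Nat.casesOn i g g', t + 1, h⟩

lemma window_mem {p W : ℤ} (s : Cfg M.V) (i : ℤ) (h1 : s.head - W ≤ i)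
    (h2 : i ≤ s.head + W) : i ∈ reg p W (side p s) := by
  unfold side
  by_cases h : s.head < p
  · rw [decide_eq_true h, mem_reg_true]; omega
  · rw [decide_eq_false h, mem_reg_false]; omega

lemma ph_cons {p W : ℤ} (hW : Within M W) {L₀ : List (Cfg M.V)} {s d : Cfg M.V}
    (h : Ph M p W L₀ s d) : ∀ (m : Cfg M.V) (L : List (Cfg M.V)), L₀ = m :: L →
    ∃ s₁, side p s₁ ≠ side p s ∧ msg p W s₁ = m ∧ Ph M p W L s₁ d ∧
      (∀ j, j ∉ reg p W (side p s) → s₁.tp j = s.tp j) ∧
      ∀ s' : Cfg M.V, s'.node = s.node → s'.head = s.head →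
        (∀ j ∈ reg p W (side p s), s'.tp j = s.tp j) →
        ∃ s₁', Reach M s' s₁' ∧ s₁'.node = s₁.node ∧ s₁'.head = s₁.head ∧
          (∀ j ∈ reg p W (side p s), s₁'.tp j = s₁.tp j) ∧
          ∀ j, j ∉ reg p W (side p s) → s₁'.tp j = s'.tp j := by
  induction h with
  | nil s => intro m L h; exact absurd h (by simp)
  | @stay L₀ s d g hs _ ih =>
    intro m L hL
    obtain ⟨s₁, h1, h2, h3, h4, h5⟩ := ih m L hL
    rw [hs] at h1 h4 h5
    have hself := astep_local hW g s s rfl rfl (reg p W (side p s)) (window_mem s)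
      (fun _ _ => rfl)
    refine ⟨s₁, h1, h2, h3, fun j hj => (h4 j hj).trans (hself.2.2.2 j hj),
      fun s' hn hh hag => ?_⟩
    obtain ⟨k1, k2, k3, k4⟩ := astep_local hW g s s' hn hh _ (window_mem s) hag
    obtain ⟨s₁', r1, r2, r3, r4, r5⟩ := h5 (astep M g s') k1 k2 k3
    exact ⟨s₁', Relation.ReflTransGen.head ⟨g, rfl⟩ r1, r2, r3, r4,
      fun j hj => (r5 j hj).trans (k4 j hj)⟩
  | @cross L₀ s d g hs h _ =>
    intro m L hL
    obtain ⟨rfl, rfl⟩ := List.cons.inj hL
    have hself := astep_local hW g s s rfl rfl (reg p W (side p s)) (window_mem s)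
      (fun _ _ => rfl)
    refine ⟨astep M g s, hs, rfl, h, hself.2.2.2, fun s' hn hh hag => ?_⟩
    obtain ⟨k1, k2, k3, k4⟩ := astep_local hW g s s' hn hh _ (window_mem s) hag
    exact ⟨astep M g s', Relation.ReflTransGen.single ⟨g, rfl⟩, k1, k2, k3, k4⟩

lemma ph_nil {p W : ℤ} (hW : Within M W) {L₀ : List (Cfg M.V)} {s d : Cfg M.V}
    (h : Ph M p W L₀ s d) : L₀ = [] → ∀ s' : Cfg M.V, s'.node = s.node → s'.head = s.head →
        (∀ j ∈ reg p W (side p s), s'.tp j = s.tp j) →
        ∃ d', Reach M s' d' ∧ d'.node = d.node := by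
  induction h with
  | nil s => intro _ s' hn _ _; exact ⟨s', Relation.ReflTransGen.refl, hn⟩
  | @stay L₀ s d g hs _ ih =>
    intro hL s' hn hh hag
    obtain ⟨k1, k2, k3, k4⟩ := astep_local hW g s s' hn hh _ (window_mem s) hag
    obtain ⟨d', r1, r2⟩ := ih hL (astep M g s') k1 k2 (by rw [hs]; exact k3)
    exact ⟨d', Relation.ReflTransGen.head ⟨g, rfl⟩ r1, r2⟩
  | cross g hs h _ => intro h; exact absurd h (by simp)

/-- **Cut and paste.** -/
theorem mix {p W : ℤ} (hW : Within M W) : ∀ (L : List (Cfg M.V)) (s₁ d₁ s₂ d₂ s₃ : Cfg M.V),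
    Ph M p W L s₁ d₁ → Ph M p W L s₂ d₂ → s₁.node = s₃.node → s₁.head = s₃.head →
    s₂.node = s₃.node → s₂.head = s₃.head → (∀ j ∈ reg p W true, s₃.tp j = s₁.tp j) →
    (∀ j ∈ reg p W false, s₃.tp j = s₂.tp j) →
    ∃ d₃, Reach M s₃ d₃ ∧ (d₃.node = d₁.node ∨ d₃.node = d₂.node) := by
  intro L
  induction L with
  | nil =>
    intro s₁ d₁ s₂ d₂ s₃ P1 P2 n1 h1 n2 h2 a1 a2
    by_cases hs : s₃.head < p
    · obtain ⟨d, r, hd⟩ := ph_nil hW P1 rfl s₃ n1.symm h1.symm (by
        rw [show side p s₁ = true from decide_eq_true (h1 ▸ hs)]; exact a1)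
      exact ⟨d, r, Or.inl hd⟩
    · obtain ⟨d, r, hd⟩ := ph_nil hW P2 rfl s₃ n2.symm h2.symm (by
        rw [show side p s₂ = false from decide_eq_false (h2 ▸ hs)]; exact a2)
      exact ⟨d, r, Or.inr hd⟩
  | cons m L ih =>
    intro s₁ d₁ s₂ d₂ s₃ P1 P2 n1 h1 n2 h2 a1 a2
    obtain ⟨t₁, b1, m1, Q1, c1, e1⟩ := ph_cons hW P1 m L rfl
    obtain ⟨t₂, b2, m2, Q2, c2, e2⟩ := ph_cons hW P2 m L rfl
    have hm : msg p W t₁ = msg p W t₂ := m1.trans m2.symm
    have hmn : t₁.node = t₂.node := (Cfg.mk.inj hm).1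
    have hmh : t₁.head = t₂.head := (Cfg.mk.inj hm).2.1
    have hmt : ∀ j, p - W ≤ j → j < p + W → t₁.tp j = t₂.tp j := by
      intro j hj hj'
      have this : (if p - W ≤ j ∧ j < p + W then t₁.tp j else 0) =
          (if p - W ≤ j ∧ j < p + W then t₂.tp j else 0) := congrFun (Cfg.mk.inj hm).2.2 j
      rwa [if_pos ⟨hj, hj'⟩, if_pos ⟨hj, hj'⟩] at this
    by_cases hs : s₃.head < p
    · have s1 : side p s₁ = true := decide_eq_true (h1 ▸ hs)
      have s2 : side p s₂ = true := decide_eq_true (h2 ▸ hs)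
      rw [s1] at c1 e1
      rw [s2] at c2
      obtain ⟨t₃, r, f1, f2, f3, f4⟩ := e1 s₃ n1.symm h1.symm a1
      obtain ⟨d₃, r', hd⟩ := ih t₁ d₁ t₂ d₂ t₃ Q1 Q2 f1.symm f2.symm (f1.trans hmn).symm
        (f2.trans hmh).symm f3 (by
          intro j hj
          by_cases hj' : j < p + W
          · rw [f3 j (mem_reg_true.2 hj'), hmt j (mem_reg_false.1 hj) hj']
          · have hnot : j ∉ reg p W true := fun h => hj' (mem_reg_true.1 h)
            rw [f4 j hnot, a2 j hj, c2 j hnot])
      exact ⟨d₃, Relation.ReflTransGen.trans r r', hd⟩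
    · have s1 : side p s₁ = false := decide_eq_false (h1 ▸ hs)
      have s2 : side p s₂ = false := decide_eq_false (h2 ▸ hs)
      rw [s1] at c1
      rw [s2] at c2 e2
      obtain ⟨t₃, r, f1, f2, f3, f4⟩ := e2 s₃ n2.symm h2.symm a2
      obtain ⟨d₃, r', hd⟩ := ih t₁ d₁ t₂ d₂ t₃ Q1 Q2 (f1.trans hmn.symm).symm
        (f2.trans hmh.symm).symm f1.symm f2.symm (by
          intro j hj
          by_cases hj' : p - W ≤ j
          · rw [f3 j (mem_reg_false.2 hj'), hmt j hj' (mem_reg_true.1 hj)]
          · have hnot : j ∉ reg p W false := fun h => hj' (mem_reg_false.1 h)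
            rw [f4 j hnot, a1 j hj, c1 j hnot]) f3
      exact ⟨d₃, Relation.ReflTransGen.trans r r', hd⟩

/-! ### The messages of a run -/

open Classical in
/-- the number of crossings of `p` -/
noncomputable def cr (M : Machine) (p : ℤ) : ℕ → Cfg M.V → (ℕ → ℂ) → ℕ
  | 0, _, _ => 0
  | t + 1, s, g => (if side p (astep M (g 0) s) = side p s then 0 else 1) +
      cr M p t (astep M (g 0) s) fun i => g (i + 1)

lemma exists_ph (p W : ℤ) (t : ℕ) (s : Cfg M.V) (g : ℕ → ℂ) :
    ∃ L, Ph M p W L s (arun M t s g) ∧ L.length = cr M p t s g := by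
  induction t generalizing s g with
  | zero => exact ⟨[], Ph.nil s, rfl⟩
  | succ t ih =>
    obtain ⟨L, h1, h2⟩ := ih (astep M (g 0) s) fun i => g (i + 1)
    by_cases hs : side p (astep M (g 0) s) = side p s
    · refine ⟨L, Ph.stay (g 0) hs h1, ?_⟩
      rw [h2, cr, if_pos hs, zero_add]
    · refine ⟨_ :: L, Ph.cross (g 0) hs h1, ?_⟩
      rw [List.length_cons, h2, cr, if_neg hs, add_comm]

lemma ph_zero {p W : ℤ} {L : List (Cfg M.V)} {s d : Cfg M.V} (h : Ph M p W L s d) :
    ∀ m ∈ L, ∀ j, ¬ (p - W ≤ j ∧ j < p + W) → m.tp j = 0 := by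
  induction h with
  | nil s => intro m hm; simp at hm
  | stay g _ _ ih => exact ih
  | cross g _ _ ih =>
    intro m hm j hj
    rcases List.mem_cons.1 hm with rfl | hm
    · exact if_neg hj
    · exact ih m hm j hj

lemma ph_map (hM : ∀ v, (M.prog v).standardOrGuess) (σ : ℂ ≃+* ℂ)
    (hσ : ∀ v, σ (M.prog v).cst = (M.prog v).cst) {p W : ℤ} {L : List (Cfg M.V)} {s d : Cfg M.V}
    (h : Ph M p W L s d) : Ph M p W (L.map (Cfg.map σ)) (s.map σ) (d.map σ) := by
  induction h with
  | nil s => exact Ph.nil _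
  | @stay L s d g hs _ ih =>
    have e := map_astep hM σ hσ g s
    refine Ph.stay (σ g) ?_ ?_
    · rw [e]; exact hs
    · rw [e]; exact ih
  | @cross L s d g hs _ ih =>
    have e := map_astep hM σ hσ g s
    have e2 : (msg p W (astep M g s)).map σ = msg p W (astep M (σ g) (s.map σ)) := by
      rw [e]
      unfold msg Cfg.map
      simp only [Cfg.mk.injEq, true_and]
      funext j
      split_ifs
      · rfl
      · exact map_zero σ
    rw [List.map_cons, e2]
    refine Ph.cross (σ g) ?_ ?_
    · rw [e]; exact hs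
    · rw [e]; exact ih

open Classical in
/-- the numbers of crossings of different boundaries sum up to at most the time -/
lemma sum_cr (P : Finset ℤ) (t : ℕ) (s : Cfg M.V) (g : ℕ → ℂ) : ∑ p ∈ P, cr M p t s g ≤ t := by
  induction t generalizing s g with
  | zero => simp [cr]
  | succ t ih =>
    have h1 : ∑ p ∈ P, cr M p (t + 1) s g =
        ∑ p ∈ P, (if side p (astep M (g 0) s) = side p s then 0 else 1) +
          ∑ p ∈ P, cr M p t (astep M (g 0) s) (fun i => g (i + 1)) := by
      rw [← Finset.sum_add_distrib]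
      rfl
    have h2 : ∑ p ∈ P, (if side p (astep M (g 0) s) = side p s then 0 else 1) ≤ 1 := by
      have h3 : ∑ p ∈ P, (if side p (astep M (g 0) s) = side p s then 0 else 1) =
          (P.filter fun p => side p (astep M (g 0) s) ≠ side p s).card := by
        rw [Finset.card_filter]
        refine Finset.sum_congr rfl fun p _ => ?_
        simp only [ne_eq, ite_not]
      rw [h3]
      refine Finset.card_le_one.2 fun a ha b hb => ?_
      rw [Finset.mem_filter] at ha hb
      unfold side at ha hb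
      rcases astep_head (g 0) s with h | h | h <;> rw [h] at ha hb
      · exact absurd rfl ha.2
      · have h1 := ha.2
        have h2 := hb.2
        simp only [ne_eq, decide_eq_decide] at h1 h2
        omega
      · have h1 := ha.2
        have h2 := hb.2
        simp only [ne_eq, decide_eq_decide] at h1 h2
        omega
    rw [h1]
    have := ih (astep M (g 0) s) fun i => g (i + 1)
    omega

/-- the set of constants -/
def constants (M : Machine) : Set ℂ := Set.range fun v => (M.prog v).cst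

lemma constants_countable (M : Machine) : (constants M).Countable := by
  have := M.finite_V
  exact (Set.finite_range _).countable

/-- **The dimension bound for crossing sequences.** -/
theorem crossing_dim (hM : ∀ v, (M.prog v).standardOrGuess) {W : ℕ} (hW : Within M W)
    {ι : Type*} [Fintype ι] (inp : (ι → ℂ) → (ι → ℂ) → ℤ → ℂ) (p : ℤ)
    (hinp : ∀ (σ : ℂ ≃+* ℂ) (a b : ι → ℂ) (i : ℤ),
      σ (inp a b i) = inp (fun k => σ (a k)) (fun k => σ (b k)) i)
    (hl : ∀ a b b' j, j < p + W → inp a b j = inp a b' j)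
    (hr : ∀ a a' b j, p - W ≤ j → inp a b j = inp a' b j)
    (a : ι → ℂ) (ha : AlgebraicIndependent (Subfield.closure (constants M)) a)
    (hsound : ∀ σ : ℂ ≃+* ℂ, (fun k => σ (a k)) ≠ a →
      ∀ (g : ℕ → ℂ) (t : ℕ), ¬ Answers M (inp a fun k => σ (a k)) g t false)
    (g : ℕ → ℂ) (t : ℕ) (hans : Answers M (inp a a) g t false) :
    Fintype.card ι ≤ 2 * W * cr M p t (init M (inp a a)) g := by
  classical
  by_contra hcon
  push Not at hcon
  obtain ⟨L, hL, hlen⟩ := exists_ph p (W : ℤ) t (init M (inp a a)) g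
  let F : Fin L.length × Fin (2 * W) → ℂ := fun q => (L.get q.1).tp (p - W + (q.2 : ℕ))
  have hS : (Set.range F).encard < Fintype.card ι := by
    have h1 : (Set.range F).encard ≤ (Fintype.card (Fin L.length × Fin (2 * W)) : ℕ) := by
      rw [← Set.image_univ]
      refine (Set.encard_image_le _ _).trans ?_
      rw [Set.encard_univ, ENat.card_eq_coe_fintype_card]
    refine h1.trans_lt ?_
    rw [Fintype.card_prod, Fintype.card_fin, Fintype.card_fin, hlen]
    have : cr M p t (init M (inp a a)) g * (2 * W) < Fintype.card ι := by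
      rw [mul_comm]; exact hcon
    exact_mod_cast this
  obtain ⟨σ, hK, hfix, hne⟩ := exists_move _ a ha _ hS
  have hσ : ∀ v, σ (M.prog v).cst = (M.prog v).cst := fun v =>
    hK _ (Subfield.subset_closure ⟨v, rfl⟩)
  have hLσ : L.map (Cfg.map σ) = L := by
    have h1 : ∀ m ∈ L, Cfg.map σ m = m := by
      intro m hm
      obtain ⟨i, rfl⟩ := List.get_of_mem hm
      unfold Cfg.map
      have h2 : (fun j => σ ((L.get i).tp j)) = (L.get i).tp := by
        funext j
        by_cases hj : p - (W : ℤ) ≤ j ∧ j < p + W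
        · refine hfix _ ⟨(i, ⟨(j - (p - W)).toNat, by omega⟩), ?_⟩
          simp only [F]
          congr 1
          omega
        · rw [ph_zero hL _ hm j hj, map_zero]
      rw [h2]
    calc L.map (Cfg.map σ) = L.map id := List.map_congr_left h1
      _ = L := List.map_id L
  have hP := ph_map hM σ hσ hL
  rw [hLσ] at hP
  have e1 : (init M (inp a a)).map σ = init M (inp (fun k => σ (a k)) fun k => σ (a k)) := by
    unfold init Cfg.map
    simp only [Cfg.mk.injEq, true_and]
    funext i
    exact hinp σ a a i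
  rw [e1] at hP
  obtain ⟨d₃, hr₃, hd₃⟩ := mix hW L _ _ _ _ (init M (inp a fun k => σ (a k))) hL hP rfl rfl rfl rfl
    (fun j hj => hl _ _ _ _ (mem_reg_true.1 hj)) (fun j hj => hr _ _ _ _ (mem_reg_false.1 hj))
  obtain ⟨g', t', h'⟩ := exists_arun hr₃
  refine hsound σ hne g' t' ?_
  rw [answers_iff] at hans ⊢
  rw [h']
  rcases hd₃ with h | h
  · rw [h, hans]
  · rw [h]; exact hans

end Pool.Agent.L0h79.BSS
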