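import Mathlib

/-!
# Machines over the complex numbers and the problem `HN/ℂ`

* `Node V`, `Machine`: a machine (in the sense of Blum, Shub and Smale) is a finite directed graph of
  nodes; its state is a node and a bi-infinite sequence of complex numbers (the tape).  Besides the
  usual nodes we allow (this only makes lower bounds stronger) nodes which write a constant, nodes
  which write the complex conjugate of an entry, branch nodes which test whether the real part of an
  entry is nonnegative, and *guess* nodes, which write an arbitrary complex number into an entry.
* `Standard M`: no conjugation, no order test, no guess: the machines of the problem.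
* `run M x g t`: the state after `t` steps on the tape `x`, when the values written by guess nodes
  are taken from the sequence `g`.
* `Answers M x g t b`: after `t` steps the machine is at an output node with answer `b`.
* `cost M x g t`: the number of those among the first `t` steps which are multiplications, divisions,
  guesses or tests (additions, subtractions, multiplications by constants, conjugations,
  shifts and constants are free).  So `cost M x g t ≤ t`.
* `encode mon f`: the list which encodes a polynomial system `f` (number of variables, number of
  polynomials, their degrees, all coefficients), where `mon n d` is a list of all monomials of degree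
  at most `d` in `n` variables, in any order; `size mon f` is the number of the coefficients.
-/

open MvPolynomial

namespace Pool.Agent.L0h79.BSS

/-- the kinds of nodes; `a`, `b`, `dst` are positions on the tape -/
inductive Node (V : Type) where
  /-- write the constant `c` -/
  | const (c : ℂ) (dst : ℤ) (next : V)
  /-- multiply an entry by the constant `c` -/
  | scale (c : ℂ) (a dst : ℤ) (next : V)
  /-- complex conjugation (not available to standard machines) -/
  | conj (a dst : ℤ) (next : V)
  | add (a b dst : ℤ) (next : V)
  | sub (a b dst : ℤ) (next : V)
  | mul (a b dst : ℤ) (next : V)
  /-- division (with the convention that division by zero gives zero) -/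
  | div (a b dst : ℤ) (next : V)
  /-- shift the tape by one position, to the right or to the left -/
  | shift (right : Bool) (next : V)
  /-- write an arbitrary complex number (not available to standard machines) -/
  | guess (dst : ℤ) (next : V)
  /-- test whether an entry is zero -/
  | isZero (a : ℤ) (yes no : V)
  /-- test whether the real part of an entry is nonnegative (not available to standard machines) -/
  | isNonneg (a : ℤ) (yes no : V)
  /-- halt with the answer yes or no -/
  | output (ans : Bool)

/-- a machine over `ℂ` -/
structure Machine where
  /-- the nodes -/
  V : Type
  finite_V : Finite V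
  /-- the input node -/
  start : V
  /-- the kind of each node -/
  prog : V → Node V

namespace Node

/-- the nodes of the standard machines over `ℂ` -/
def standard {V : Type} : Node V → Prop
  | conj _ _ _ => False
  | guess _ _ => False
  | isNonneg _ _ _ => False
  | _ => True

/-- the nodes of the standard nondeterministic machines over `ℂ`: guesses are allowed -/
def standardOrGuess {V : Type} : Node V → Prop
  | conj _ _ _ => False
  | isNonneg _ _ _ => False
  | _ => True

/-- the nodes which are not free: multiplications, divisions, guesses and tests -/
def costly {V : Type} : Node V → Bool
  | mul _ _ _ _ => true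
  | div _ _ _ _ => true
  | guess _ _ => true
  | isZero _ _ _ => true
  | isNonneg _ _ _ => true
  | _ => false

end Node

/-- the machine uses only standard nodes -/
def Standard (M : Machine) : Prop := ∀ v, (M.prog v).standard

/-- one step, from a node and a tape; `g` is the number written by a guess node -/
noncomputable def step (M : Machine) (g : ℂ) (s : M.V × (ℤ → ℂ)) : M.V × (ℤ → ℂ) :=
  match M.prog s.1 with
  | .const c d n => (n, Function.update s.2 d c)
  | .scale c a d n => (n, Function.update s.2 d (c * s.2 a))
  | .conj a d n => (n, Function.update s.2 d ((starRingEnd ℂ) (s.2 a)))
  | .add a b d n => (n, Function.update s.2 d (s.2 a + s.2 b))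
  | .sub a b d n => (n, Function.update s.2 d (s.2 a - s.2 b))
  | .mul a b d n => (n, Function.update s.2 d (s.2 a * s.2 b))
  | .div a b d n => (n, Function.update s.2 d (s.2 a / s.2 b))
  | .shift r n => (n, fun i => s.2 (if r then i - 1 else i + 1))
  | .guess d n => (n, Function.update s.2 d g)
  | .isZero a y n => by classical exact (if s.2 a = 0 then y else n, s.2)
  | .isNonneg a y n => by classical exact (if 0 ≤ (s.2 a).re then y else n, s.2)
  | .output _ => s

/-- the state after `t` steps -/
noncomputable def run (M : Machine) (x : ℤ → ℂ) (g : ℕ → ℂ) : ℕ → M.V × (ℤ → ℂ)
  | 0 => (M.start, x)
  | t + 1 => step M (g t) (run M x g t)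

/-- after `t` steps the machine is at an output node with the answer `b` -/
def Answers (M : Machine) (x : ℤ → ℂ) (g : ℕ → ℂ) (t : ℕ) (b : Bool) : Prop :=
  M.prog (run M x g t).1 = .output b

/-- the number of costly nodes among the first `t` nodes of the run -/
noncomputable def cost (M : Machine) (x : ℤ → ℂ) (g : ℕ → ℂ) (t : ℕ) : ℕ :=
  ((Finset.range t).filter fun i => (M.prog (run M x g i).1).costly = true).card

/-- the tape on which a list is written at the positions `0, 1, 2, …` and all other entries are `0` -/
def tape (l : List ℂ) : ℤ → ℂ := fun i => if 0 ≤ i then l.getD i.toNat 0 else 0

/-- `mon n d` lists the monomials of degree at most `d` in `n` variables, each once -/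
def IsMonomialList (mon : ∀ n : ℕ, ℕ → List (Fin n →₀ ℕ)) : Prop :=
  ∀ n d, (mon n d).Nodup ∧ ∀ m, m ∈ mon n d ↔ (m.sum fun _ e => e) ≤ d

/-- the code of a system: number of variables, number of polynomials, degrees, coefficients -/
noncomputable def encode (mon : ∀ n : ℕ, ℕ → List (Fin n →₀ ℕ)) {n k : ℕ}
    (f : Fin k → MvPolynomial (Fin n) ℂ) : List ℂ :=
  [(n : ℂ), (k : ℂ)] ++ (List.ofFn fun i => ((f i).totalDegree : ℂ)) ++
    (List.ofFn fun i => (mon n (f i).totalDegree).map fun m => coeff m (f i)).flatten

/-- the size of a system: the number of the coefficients in its code -/
def size (mon : ∀ n : ℕ, ℕ → List (Fin n →₀ ℕ)) {n k : ℕ}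
    (f : Fin k → MvPolynomial (Fin n) ℂ) : ℕ :=
  (List.ofFn fun i => (mon n (f i).totalDegree).map fun m => coeff m (f i)).flatten.length

/-- the system has a common zero in `ℂⁿ` -/
def HasZero {n k : ℕ} (f : Fin k → MvPolynomial (Fin n) ℂ) : Prop :=
  ∃ z : Fin n → ℂ, ∀ i, eval z (f i) = 0

end Pool.Agent.L0h79.BSS
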