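import Pool.Agent.L0h79.BSS.Sys

/-!
# Degrees, sizes and the input tapes of the family
-/

open MvPolynomial Finset

namespace Pool.Agent.L0h79.BSS

lemma totalDegree_eq_two {σ : Type*} (p : MvPolynomial σ ℂ) (h : p.totalDegree ≤ 2) (m : σ →₀ ℕ)
    (hm : coeff m p ≠ 0) (hd : (m.sum fun _ e => e) = 2) : p.totalDegree = 2 := by
  refine le_antisymm h ?_
  rw [← hd]
  exact le_totalDegree (mem_support_iff.2 hm)

lemma vr_inj {ℓ : ℕ} {c c' : Fin 5} {i i' : Fin ℓ} : vr ℓ c i = vr ℓ c' i' ↔ c = c' ∧ i = i' := by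
  unfold vr
  rw [finProdFinEquiv.injective.eq_iff, Prod.mk.injEq]

lemma totalDegree_blockPoly_le (ℓ : ℕ) (θ : Fin ℓ → Fin ℓ → Fin ℓ → ℂ) (c : Fin 5) (i : Fin ℓ) :
    (blockPoly ℓ θ c i).totalDegree ≤ 2 := by
  have hX : ∀ v : Fin (5 * ℓ), (X v ^ 2 - X v : MvPolynomial (Fin (5 * ℓ)) ℂ).totalDegree ≤ 2 := by
    intro v
    refine (totalDegree_sub _ _).trans (max_le ?_ ?_)
    · refine (totalDegree_pow _ _).trans ?_; rw [totalDegree_X]
    · rw [totalDegree_X]; norm_num
  unfold blockPoly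
  split_ifs
  · refine (totalDegree_add _ _).trans (max_le ?_ (hX _))
    refine (totalDegree_sub _ _).trans (max_le ?_ ?_)
    · rw [totalDegree_X]; norm_num
    · refine (totalDegree_finsetSum _ _).trans (Finset.sup_le fun j _ => ?_)
      refine (totalDegree_finsetSum _ _).trans (Finset.sup_le fun k _ => ?_)
      refine (totalDegree_mul _ _).trans ?_
      rw [totalDegree_C, zero_add]
      refine (totalDegree_mul _ _).trans ?_
      rw [totalDegree_X, totalDegree_X]
  · exact hX _

lemma totalDegree_blockPoly (ℓ : ℕ) (θ : Fin ℓ → Fin ℓ → Fin ℓ → ℂ) (c : Fin 5) (i : Fin ℓ) :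
    (blockPoly ℓ θ c i).totalDegree = 2 := by
  classical
  have hle := totalDegree_blockPoly_le ℓ θ c i
  have hXX : ∀ v : Fin (5 * ℓ), coeff (Finsupp.single v 2) (X v ^ 2 - X v : MvPolynomial (Fin (5 * ℓ)) ℂ) = 1 := by
    intro v
    rw [coeff_sub, coeff_X_pow, coeff_X, if_pos rfl, if_neg, sub_zero]
    intro h
    have := DFunLike.congr_fun h v
    simp at this
  by_cases hc : c = 4
  · subst hc
    refine totalDegree_eq_two _ hle (Finsupp.single (vr ℓ 3 i) 2) ?_ (by simp)
    unfold blockPoly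
    rw [if_pos rfl, coeff_add, hXX, coeff_sub, coeff_X, if_neg, coeff_sum]
    · rw [Finset.sum_eq_zero]
      · simp
      · intro j _
        rw [coeff_sum]
        refine Finset.sum_eq_zero fun k _ => ?_
        rw [coeff_C_mul]
        have e : (X (vr ℓ 1 j) * X (vr ℓ 2 k) : MvPolynomial (Fin (5 * ℓ)) ℂ)
            = monomial (Finsupp.single (vr ℓ 1 j) 1 + Finsupp.single (vr ℓ 2 k) 1) 1 := by
          simp [X, monomial_mul]
        rw [e, coeff_monomial, if_neg, mul_zero]
        intro h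
        have := DFunLike.congr_fun h (vr ℓ 3 i)
        simp only [Finsupp.add_apply, Finsupp.single_apply, vr_inj] at this
        simp at this
    · intro h
      have := DFunLike.congr_fun h (vr ℓ 3 i)
      simp only [Finsupp.single_apply, vr_inj] at this
      simp at this
  · refine totalDegree_eq_two _ hle (Finsupp.single (vr ℓ c i) 2) ?_ (by simp)
    unfold blockPoly
    rw [if_neg hc, hXX]
    exact one_ne_zero

lemma totalDegree_lastPoly (ℓ : ℕ) (hℓ : 0 < ℓ) : (lastPoly ℓ).totalDegree = 2 := by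
  classical
  have hle : (lastPoly ℓ).totalDegree ≤ 2 := by
    unfold lastPoly
    refine (totalDegree_sub _ _).trans (max_le ?_ ?_)
    · refine (totalDegree_sub _ _).trans (max_le ?_ ?_)
      · refine (totalDegree_finsetSum _ _).trans (Finset.sup_le fun j _ => ?_)
        refine (totalDegree_mul _ _).trans ?_
        rw [totalDegree_X, totalDegree_X]
      · rw [totalDegree_one]; norm_num
    · refine (totalDegree_finsetSum _ _).trans (Finset.sup_le fun j _ => ?_)
      refine (totalDegree_mul _ _).trans ?_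
      rw [totalDegree_C, totalDegree_X]; norm_num
  let i₀ : Fin ℓ := ⟨0, hℓ⟩
  refine totalDegree_eq_two _ hle (Finsupp.single (vr ℓ 3 i₀) 1 + Finsupp.single (vr ℓ 4 i₀) 1) ?_ ?_
  · unfold lastPoly
    rw [coeff_sub, coeff_sub, coeff_sum, coeff_sum]
    have e : ∀ i, (X (vr ℓ 3 i) * X (vr ℓ 4 i) : MvPolynomial (Fin (5 * ℓ)) ℂ)
        = monomial (Finsupp.single (vr ℓ 3 i) 1 + Finsupp.single (vr ℓ 4 i) 1) 1 := by
      intro i; simp [X, monomial_mul]
    rw [Finset.sum_eq_single i₀, Finset.sum_eq_zero]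
    · rw [e, coeff_monomial, if_pos rfl, coeff_one, if_neg]
      · norm_num
      · intro h
        have := DFunLike.congr_fun h (vr ℓ 3 i₀)
        simp only [Finsupp.add_apply, Finsupp.single_apply, vr_inj] at this
        simp at this
    · intro i _
      rw [coeff_C_mul, coeff_X, if_neg, mul_zero]
      intro h
      have := DFunLike.congr_fun h (vr ℓ 3 i₀)
      simp only [Finsupp.add_apply, Finsupp.single_apply, vr_inj] at this
      simp at this
    · intro i _ hi
      rw [e, coeff_monomial, if_neg]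
      intro h
      have := DFunLike.congr_fun h (vr ℓ 3 i)
      simp only [Finsupp.add_apply, Finsupp.single_apply, vr_inj] at this
      simp [Ne.symm hi] at this
    · intro h; exact absurd (Finset.mem_univ _) h
  · rw [Finsupp.sum_add_index' (by simp) (by simp)]
    simp

lemma totalDegree_sys (ℓ : ℕ) (hℓ : 0 < ℓ) (θ : Fin ℓ → Fin ℓ → Fin ℓ → ℂ) (e : Fin (5 * ℓ + 1)) :
    (sys ℓ θ e).totalDegree = 2 := by
  unfold sys
  split_ifs
  · exact totalDegree_blockPoly _ _ _ _
  · exact totalDegree_lastPoly ℓ hℓ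

/-- the length of a list of all monomials of degree at most `d` -/
lemma length_mon (mon : ∀ n : ℕ, ℕ → List (Fin n →₀ ℕ)) (hmon : IsMonomialList mon) (n d : ℕ) :
    (mon (n + 1) d).length = (d + (n + 1)).choose (n + 1) := by
  classical
  rw [← card_expo (ι := Fin (n + 1)) d n (by simp)]
  rw [← List.toFinset_card_of_nodup (hmon _ _).1]
  congr 1
  ext m
  rw [List.mem_toFinset, (hmon _ _).2, mem_expo]

lemma size_sys (mon : ∀ n : ℕ, ℕ → List (Fin n →₀ ℕ)) (hmon : IsMonomialList mon) (ℓ : ℕ)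
    (hℓ : 0 < ℓ) (θ : Fin ℓ → Fin ℓ → Fin ℓ → ℂ) :
    size mon (sys ℓ θ) = (5 * ℓ + 1) * (5 * ℓ + 2).choose 2 := by
  unfold size
  rw [List.length_flatten, List.map_ofFn, List.sum_ofFn]
  simp only [Function.comp_apply, List.length_map, totalDegree_sys ℓ hℓ θ, Finset.sum_const,
    Finset.card_univ, Fintype.card_fin, smul_eq_mul]
  congr 1
  obtain ⟨n, hn⟩ : ∃ n, 5 * ℓ = n + 1 := ⟨5 * ℓ - 1, by omega⟩
  rw [hn, length_mon mon hmon, add_comm 2 (n + 1)]
  rw [← Nat.choose_symm_add]

end Pool.Agent.L0h79.BSS
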