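import Pool.Agent.L0h79.BSS.Generic

/-!
# Coefficient vectors: formal tapes, the hypersurface of the solvable systems, avoiding points
-/

open MvPolynomial Finset

namespace Pool.Agent.L0h79.BSS

/-! ### The formal tape -/

open Classical in
/-- the list of polynomials in the coefficients which encodes the general system of `k` polynomials
of degree `2` in `n` variables -/
noncomputable def flist (mon : ∀ n : ℕ, ℕ → List (Fin n →₀ ℕ)) (n k : ℕ) :
    List (MvPolynomial (Fin k × Mon n) ℂ) :=
  [C (n : ℂ), C (k : ℂ)] ++ (List.ofFn fun _ : Fin k => C ((2 : ℕ) : ℂ)) ++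
    (List.ofFn fun e : Fin k => (mon n 2).map fun m =>
      if h : m ∈ expo (Fin n) 2 then X (e, (⟨m, h⟩ : Mon n)) else 0).flatten

/-- the formal tape -/
noncomputable def ftape (mon : ∀ n : ℕ, ℕ → List (Fin n →₀ ℕ)) (n k : ℕ) :
    ℤ → MvPolynomial (Fin k × Mon n) ℂ :=
  fun i => if 0 ≤ i then (flist mon n k).getD i.toNat 0 else 0

lemma encode_quad (mon : ∀ n : ℕ, ℕ → List (Fin n →₀ ℕ)) {n k : ℕ} (c : Fin k × Mon n → ℂ)
    (hc : ∀ e, (quad c e).totalDegree = 2) :
    encode mon (quad c) = (flist mon n k).map (eval c) := by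
  classical
  unfold encode flist
  simp only [hc, List.map_append, List.map_cons, List.map_nil, List.map_ofFn, List.map_flatten,
    eval_C]
  congr 1
  · congr 1
    congr 1
    funext e
    simp
  · congr 1
    congr 1
    funext e
    simp only [Function.comp_apply, List.map_map]
    refine List.map_congr_left fun m _ => ?_
    simp only [Function.comp_apply]
    rw [coeff_quad]
    split_ifs <;> simp

lemma tape_quad (mon : ∀ n : ℕ, ℕ → List (Fin n →₀ ℕ)) {n k : ℕ} (c : Fin k × Mon n → ℂ)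
    (hc : ∀ e, (quad c e).totalDegree = 2) :
    tape (encode mon (quad c)) = fun i => eval c (ftape mon n k i) := by
  funext i
  unfold tape ftape
  split_ifs with hi
  · rw [encode_quad mon c hc, List.getD_eq_getElem?_getD, List.getD_eq_getElem?_getD,
      List.getElem?_map]
    cases (flist mon n k)[i.toNat]? <;> simp
  · simp

/-- a polynomial in the coefficients which does not vanish only if all degrees are `2` -/
lemma exists_degree_poly (n k : ℕ) (hn : 0 < n) : ∃ D : MvPolynomial (Fin k × Mon n) ℂ, D ≠ 0 ∧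
    (∀ c, eval c D ≠ 0 → ∀ e, (quad c e).totalDegree = 2) ∧
    ∃ m₀ : Mon n, m₀.1 ≠ 0 ∧ D = ∏ e, X (e, m₀) := by
  classical
  let m₀ : Mon n := ⟨Finsupp.single ⟨0, hn⟩ 2, mem_expo.2 (by simp)⟩
  refine ⟨∏ e, X (e, m₀), ?_, ?_, m₀, ?_, rfl⟩
  · exact Finset.prod_ne_zero_iff.2 fun e _ => X_ne_zero _
  · intro c hc e
    rw [map_prod, Finset.prod_ne_zero_iff] at hc
    have h := hc e (Finset.mem_univ _)
    rw [eval_X] at h
    refine totalDegree_eq_two _ (totalDegree_quad_le _ _) m₀.1 ?_ (by simp [m₀])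
    rw [coeff_quad, dif_pos m₀.2]
    exact h
  · intro h
    have := DFunLike.congr_fun h ⟨0, hn⟩
    simp [m₀] at this

lemma eval_aeval_eq {J J' : Type*} (f : J → MvPolynomial J' ℂ) (b : J' → ℂ) (Q : MvPolynomial J ℂ) :
    eval b (aeval f Q) = eval (fun j => eval b (f j)) Q := by
  induction Q using MvPolynomial.induction_on with
  | C a => simp
  | add p q hp hq => rw [map_add, map_add, hp, hq, map_add]
  | mul_X p j hp => rw [map_mul, map_mul, hp, aeval_X, map_mul, eval_X]

/-! ### The solvable systems -/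

/-- the coordinates of a solvable system: a common zero, and the coefficients of the nonconstant
monomials -/
abbrev SIdx (n : ℕ) := Fin n ⊕ {j : Fin (n + 1) × Mon n // j.2.1 ≠ 0}

open Classical in
/-- the coefficients of the solvable systems as polynomials in these coordinates -/
noncomputable def phi (n : ℕ) (j : Fin (n + 1) × Mon n) : MvPolynomial (SIdx n) ℂ :=
  if h : j.2.1 = 0 then - ∑ m : Mon n, if hm : m.1 ≠ 0 then
    X (Sum.inr (⟨(j.1, m), hm⟩ : {j : Fin (n + 1) × Mon n // j.2.1 ≠ 0})) *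
      ∏ v, X (Sum.inl v) ^ (m.1 v) else 0
  else X (Sum.inr ⟨j, h⟩)

lemma eval_phi_ne {n : ℕ} (b : SIdx n → ℂ) (j : Fin (n + 1) × Mon n) (h : j.2.1 ≠ 0) :
    eval b (phi n j) = b (Sum.inr ⟨j, h⟩) := by
  unfold phi
  rw [dif_neg h, eval_X]

lemma eval_quad_phi {n : ℕ} (b : SIdx n → ℂ) (c : Fin (n + 1) × Mon n → ℂ)
    (hc : ∀ j : {j : Fin (n + 1) × Mon n // j.2.1 ≠ 0}, c j.1 = b (Sum.inr j)) (e : Fin (n + 1)) :
    eval (fun v => b (Sum.inl v)) (quad c e) = c (e, ⟨0, mem_expo.2 (by simp)⟩)
      - eval b (phi n (e, ⟨0, mem_expo.2 (by simp)⟩)) := by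
  classical
  rw [eval_quad]
  unfold phi
  rw [dif_pos rfl, map_neg, map_sum, sub_neg_eq_add]
  rw [← Finset.add_sum_erase _ _ (Finset.mem_univ (⟨0, mem_expo.2 (by simp)⟩ : Mon n))]
  congr 1
  · simp
  · rw [← Finset.add_sum_erase _ _ (Finset.mem_univ (⟨0, mem_expo.2 (by simp)⟩ : Mon n))]
    rw [dif_neg (by simp), map_zero, zero_add]
    refine Finset.sum_congr rfl fun m hm => ?_
    have hm' : m.1 ≠ 0 := by
      intro h
      rw [Finset.mem_erase] at hm
      exact hm.1 (Subtype.ext h)
    rw [dif_pos hm', map_mul, eval_X, map_prod]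
    rw [hc ⟨(e, m), hm'⟩]
    congr 1
    refine Finset.prod_congr rfl fun v _ => ?_
    rw [map_pow, eval_X]

/-- these systems are solvable -/
lemma hasZero_phi {n : ℕ} (b : SIdx n → ℂ) : HasZero (quad fun j => eval b (phi n j)) := by
  refine ⟨fun v => b (Sum.inl v), fun e => ?_⟩
  rw [eval_quad_phi b _ (fun j => eval_phi_ne b j.1 j.2) e]
  exact sub_self _

/-- all solvable systems are of this form -/
lemma exists_phi {n : ℕ} (c : Fin (n + 1) × Mon n → ℂ) (h : HasZero (quad c)) :
    ∃ b : SIdx n → ℂ, ∀ j, c j = eval b (phi n j) := by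
  obtain ⟨z, hz⟩ := h
  let b : SIdx n → ℂ := Sum.elim z fun j => c j.1
  refine ⟨b, fun j => ?_⟩
  by_cases hj : j.2.1 = 0
  · have h1 := eval_quad_phi b c (fun j => rfl) j.1
    have h2 : eval (fun v => b (Sum.inl v)) (quad c j.1) = 0 := hz j.1
    rw [h2] at h1
    have h3 : j = (j.1, (⟨0, mem_expo.2 (by simp)⟩ : Mon n)) := Prod.ext rfl (Subtype.ext hj)
    rw [h3]
    exact (sub_eq_zero.1 h1.symm)
  · rw [eval_phi_ne b j hj]
    rfl

/-- **The solvable systems are contained in a hypersurface.** -/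
theorem exists_resultant (n : ℕ) : ∃ R : MvPolynomial (Fin (n + 1) × Mon n) ℂ, R ≠ 0 ∧
    ∀ c, HasZero (quad c) → eval c R = 0 := by
  classical
  have hcard : Fintype.card (SIdx n) < Fintype.card (Fin (n + 1) × Mon n) := by
    let m₁ : Mon n := ⟨0, mem_expo.2 (by simp)⟩
    refine Fintype.card_lt_of_injective_of_notMem
      (Sum.elim (fun v : Fin n => ((Fin.castSucc v, m₁) : Fin (n + 1) × Mon n)) fun j => j.1) ?_
      (b := (Fin.last n, m₁)) ?_
    · rintro (v | j) (v' | j') h
      · simp only [Sum.elim_inl, Prod.mk.injEq, and_true] at h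
        rw [Fin.castSucc_injective _ h]
      · simp only [Sum.elim_inl, Sum.elim_inr] at h
        exact absurd (by rw [← h]) j'.2
      · simp only [Sum.elim_inl, Sum.elim_inr] at h
        exact absurd (by rw [h]) j.2
      · simp only [Sum.elim_inr] at h
        rw [Subtype.ext h]
    · rintro ⟨v | j, h⟩
      · simp only [Sum.elim_inl, Prod.mk.injEq, and_true] at h
        exact absurd h (Fin.castSucc_lt_last v).ne
      · simp only [Sum.elim_inr] at h
        exact absurd (by rw [h]) j.2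
  have hnot : ¬ AlgebraicIndependent ℂ (phi n) := by
    intro h
    have h1 := h.lift_cardinalMk_le_trdeg
    rw [MvPolynomial.trdeg_of_isDomain] at h1
    simp only [Cardinal.mk_fintype, Cardinal.lift_natCast, Nat.cast_le] at h1
    omega
  rw [algebraicIndependent_iff] at hnot
  push Not at hnot
  obtain ⟨R, hR, hR0⟩ := hnot
  refine ⟨R, hR0, fun c hc => ?_⟩
  obtain ⟨b, hb⟩ := exists_phi c hc
  have h1 : c = fun j => eval b (phi n j) := funext hb
  rw [h1]
  have h2 := eval_aeval_eq (phi n) b R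
  rw [← h2, hR, map_zero]

/-! ### Avoiding points -/

/-- a nonzero polynomial does not vanish at some small real point -/
lemma real_avoid {J : Type*} (Q : MvPolynomial J ℂ) (hQ : Q ≠ 0) (r : ℝ) (hr : 0 < r) :
    ∃ c : J → ℝ, (∀ j, |c j| ≤ r) ∧ eval (fun j => (c j : ℂ)) Q ≠ 0 := by
  by_contra hcon
  push Not at hcon
  apply hQ
  refine MvPolynomial.funext_set (fun _ => (fun x : ℝ => (x : ℂ)) '' Set.Icc 0 r) ?_ ?_
  · intro _
    refine Set.Infinite.image ?_ (Set.Icc_infinite hr)
    exact Complex.ofReal_injective.injOn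
  · intro x hx
    rw [map_zero]
    choose c hc hcx using fun j => hx j (Set.mem_univ j)
    have h1 := hcon c fun j => by
      rw [abs_of_nonneg (hc j).1]; exact (hc j).2
    have h2 : (fun j => ((c j : ℝ) : ℂ)) = x := funext hcx
    rw [h2] at h1
    exact h1

/-- finitely many translates of a nonzero polynomial do not vanish at a common small real point -/
lemma real_avoid_translates {J κ : Type*} [Fintype κ] (Q : MvPolynomial J ℂ) (hQ : Q ≠ 0)
    (base : κ → J → ℂ) (r : ℝ) (hr : 0 < r) :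
    ∃ c : J → ℝ, (∀ j, |c j| ≤ r) ∧ ∀ τ, eval (fun j => base τ j + (c j : ℂ)) Q ≠ 0 := by
  classical
  have hne : ∀ τ, aeval (fun j => (C (base τ j) + X j : MvPolynomial J ℂ)) Q ≠ 0 := by
    intro τ h0
    apply hQ
    refine MvPolynomial.funext fun x => ?_
    rw [map_zero]
    have h1 := eval_aeval_eq (fun j => (C (base τ j) + X j : MvPolynomial J ℂ))
      (fun j => x j - base τ j) Q
    rw [h0, map_zero] at h1
    simp only [map_add, eval_C, eval_X, add_sub_cancel] at h1
    exact h1.symm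
  obtain ⟨c, hc, hc'⟩ := real_avoid (∏ τ, aeval (fun j => (C (base τ j) + X j : MvPolynomial J ℂ)) Q)
    (Finset.prod_ne_zero_iff.2 fun τ _ => hne τ) r hr
  refine ⟨c, hc, fun τ => ?_⟩
  rw [map_prod, Finset.prod_ne_zero_iff] at hc'
  have h1 := hc' τ (Finset.mem_univ _)
  rw [eval_aeval_eq] at h1
  simpa only [map_add, eval_C, eval_X] using h1

end Pool.Agent.L0h79.BSS
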