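import Pool.Agent.L0h79.BSS.PCells

/-!
# Few perturbed cells have a cheap answer
-/

open MvPolynomial Finset Metric

namespace Pool.Agent.L0h79.BSS

lemma coeff_lead_block (ℓ : ℕ) (c : Fin 5) (i : Fin ℓ) :
    ∃ m : Fin (5 * ℓ) →₀ ℕ, (m.sum fun _ e => e) = 2 ∧
      ∀ θ, coeff m (blockPoly ℓ θ c i) = 1 := by
  classical
  have hXX : ∀ v : Fin (5 * ℓ), coeff (Finsupp.single v 2) (X v ^ 2 - X v : MvPolynomial (Fin (5 * ℓ)) ℂ) = 1 := by
    intro v
    rw [coeff_sub, coeff_X_pow, coeff_X, if_pos rfl, if_neg, sub_zero]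
    intro h
    have := DFunLike.congr_fun h v
    simp at this
  by_cases hc : c = 4
  · subst hc
    refine ⟨Finsupp.single (vr ℓ 3 i) 2, by simp, fun θ => ?_⟩
    unfold blockPoly
    rw [if_pos rfl, coeff_add, hXX, coeff_sub, coeff_X, if_neg, coeff_sum]
    · rw [Finset.sum_eq_zero]
      · simp
      · intro j _
        rw [coeff_sum]
        refine Finset.sum_eq_zero fun k _ => ?_
        rw [coeff_C_mul]
        have e : (X (vr ℓ 1 j) * X (vr ℓ 2 k) : MvPolynomial (Fin (5 * ℓ)) ℂ)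
            = monomial (Finsupp.single (vr ℓ 1 j) 1 + Finsupp.single (vr ℓ 2 k) 1) 1 := by
          simp [X, monomial_mul]
        rw [e, coeff_monomial, if_neg, mul_zero]
        intro h
        have := DFunLike.congr_fun h (vr ℓ 3 i)
        simp only [Finsupp.add_apply, Finsupp.single_apply, vr_inj] at this
        simp at this
    · intro h
      have := DFunLike.congr_fun h (vr ℓ 3 i)
      simp only [Finsupp.single_apply, vr_inj] at this
      simp at this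
  · refine ⟨Finsupp.single (vr ℓ c i) 2, by simp, fun θ => ?_⟩
    unfold blockPoly
    rw [if_neg hc, hXX]

lemma coeff_lead_last (ℓ : ℕ) (hℓ : 0 < ℓ) :
    ∃ m : Fin (5 * ℓ) →₀ ℕ, (m.sum fun _ e => e) = 2 ∧ coeff m (lastPoly ℓ) = 1 := by
  classical
  let i₀ : Fin ℓ := ⟨0, hℓ⟩
  refine ⟨Finsupp.single (vr ℓ 3 i₀) 1 + Finsupp.single (vr ℓ 4 i₀) 1, ?_, ?_⟩
  · rw [Finsupp.sum_add_index' (by simp) (by simp)]
    simp
  · unfold lastPoly
    rw [coeff_sub, coeff_sub, coeff_sum, coeff_sum]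
    have e : ∀ i, (X (vr ℓ 3 i) * X (vr ℓ 4 i) : MvPolynomial (Fin (5 * ℓ)) ℂ)
        = monomial (Finsupp.single (vr ℓ 3 i) 1 + Finsupp.single (vr ℓ 4 i) 1) 1 := by
      intro i; simp [X, monomial_mul]
    rw [Finset.sum_eq_single i₀, Finset.sum_eq_zero]
    · rw [e, coeff_monomial, if_pos rfl, coeff_one, if_neg]
      · norm_num
      · intro h
        have := DFunLike.congr_fun h (vr ℓ 3 i₀)
        simp only [Finsupp.add_apply, Finsupp.single_apply, vr_inj] at this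
        simp at this
    · intro i _
      rw [coeff_C_mul, coeff_X, if_neg, mul_zero]
      intro h
      have := DFunLike.congr_fun h (vr ℓ 3 i₀)
      simp only [Finsupp.add_apply, Finsupp.single_apply, vr_inj] at this
      simp at this
    · intro i _ hi
      rw [e, coeff_monomial, if_neg]
      intro h
      have := DFunLike.congr_fun h (vr ℓ 3 i)
      simp only [Finsupp.add_apply, Finsupp.single_apply, vr_inj] at this
      simp [Ne.symm hi] at this
    · intro h; exact absurd (Finset.mem_univ _) h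

lemma exists_lead (ℓ : ℕ) (hℓ : 0 < ℓ) (e : Fin (5 * ℓ + 1)) :
    ∃ m : Fin (5 * ℓ) →₀ ℕ, (m.sum fun _ e => e) = 2 ∧ ∀ θ, coeff m (sys ℓ θ e) = 1 := by
  unfold sys
  by_cases h : (e : ℕ) < 5 * ℓ
  · obtain ⟨m, h1, h2⟩ := coeff_lead_block ℓ (finProdFinEquiv.symm ⟨e, h⟩).1
      (finProdFinEquiv.symm ⟨e, h⟩).2
    exact ⟨m, h1, fun θ => by rw [dif_pos h]; exact h2 θ⟩
  · obtain ⟨m, h1, h2⟩ := coeff_lead_last ℓ hℓ
    exact ⟨m, h1, fun θ => by rw [dif_neg h]; exact h2⟩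

lemma coeff_quad {n k : ℕ} (c : Fin k × Mon n → ℂ) (e : Fin k) (m : Fin n →₀ ℕ) :
    coeff m (quad c e) = if h : m ∈ expo (Fin n) 2 then c (e, ⟨m, h⟩) else 0 := by
  classical
  unfold quad
  rw [coeff_sum]
  simp only [coeff_monomial]
  split_ifs with h
  · rw [Finset.sum_eq_single (⟨m, h⟩ : Mon n)]
    · rw [if_pos rfl]
    · intro m' _ hm'
      rw [if_neg]
      intro h'
      exact hm' (Subtype.ext h')
    · intro h'; exact absurd (Finset.mem_univ _) h'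
  · refine Finset.sum_eq_zero fun m' _ => ?_
    rw [if_neg]
    rintro rfl
    exact h m'.2

lemma totalDegree_quad_le {n k : ℕ} (c : Fin k × Mon n → ℂ) (e : Fin k) :
    (quad c e).totalDegree ≤ 2 := by
  unfold quad
  refine (totalDegree_finsetSum _ _).trans (Finset.sup_le fun m _ => ?_)
  refine (totalDegree_monomial_le _ _).trans ?_
  exact mem_expo.1 m.2

lemma totalDegree_tsys (ℓ : ℕ) (hℓ : 0 < ℓ) (c : Fin (5 * ℓ + 1) × Mon (5 * ℓ) → ℝ)
    (hc : ∀ j, |c j| < 1) (q : Par ℓ → ℝ) (e : Fin (5 * ℓ + 1)) :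
    (tsys ℓ c q e).totalDegree = 2 := by
  obtain ⟨m, h1, h2⟩ := exists_lead ℓ hℓ e
  refine totalDegree_eq_two _ ?_ m ?_ h1
  · refine (totalDegree_add _ _).trans (max_le ?_ (totalDegree_quad_le _ _))
    exact (totalDegree_sys ℓ hℓ _ e).le
  · unfold tsys psys
    rw [coeff_add, h2, coeff_quad, dif_pos (mem_expo.2 h1.le)]
    intro h0
    have h3 : (((1 + c (e, ⟨m, mem_expo.2 h1.le⟩) : ℝ)) : ℂ) = 0 := by
      push_cast; exact h0
    have h4 : 1 + c (e, ⟨m, mem_expo.2 h1.le⟩) = 0 := by exact_mod_cast h3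
    have h5 := hc (e, ⟨m, mem_expo.2 h1.le⟩)
    rw [abs_lt] at h5
    linarith [h5.1]

lemma cpoly_coeff_tsys (ℓ : ℕ) (c : Fin (5 * ℓ + 1) × Mon (5 * ℓ) → ℝ) (e : Fin (5 * ℓ + 1))
    (m : Fin (5 * ℓ) →₀ ℕ) : CPoly 1 (fun q : Par ℓ → ℝ => coeff m (tsys ℓ c q e)) := by
  unfold tsys
  simp only [coeff_add]
  exact (cpoly_coeff ℓ e m).add (CPoly.const _ _)

/-- each entry of the input tape depends affinely on the parameters -/
lemma cpoly_tape_tsys (mon : ∀ n : ℕ, ℕ → List (Fin n →₀ ℕ)) (ℓ : ℕ) (hℓ : 0 < ℓ)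
    (c : Fin (5 * ℓ + 1) × Mon (5 * ℓ) → ℝ) (hc : ∀ j, |c j| < 1) (i : ℤ) :
    CPoly 1 (fun q : Par ℓ → ℝ => tape (encode mon (tsys ℓ c q)) i) := by
  let L : List ((Par ℓ → ℝ) → ℂ) :=
    [fun _ => ((5 * ℓ : ℕ) : ℂ), fun _ => ((5 * ℓ + 1 : ℕ) : ℂ)]
      ++ (List.ofFn fun _ : Fin (5 * ℓ + 1) => fun _ => ((2 : ℕ) : ℂ))
      ++ (List.ofFn fun e : Fin (5 * ℓ + 1) =>
        (mon (5 * ℓ) 2).map fun m => fun q => coeff m (tsys ℓ c q e)).flatten
  have hL : ∀ q, encode mon (tsys ℓ c q) = L.map fun φ => φ q := by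
    intro q
    unfold encode
    have hd : ∀ e, (tsys ℓ c q e).totalDegree = 2 := fun e => totalDegree_tsys ℓ hℓ c hc q e
    simp only [hd, L, List.map_append, List.map_cons, List.map_nil, List.map_ofFn, List.map_flatten]
    congr 1
    congr 1
    congr 1
    funext e
    simp [Function.comp_def]
  have hC : ∀ φ ∈ L, CPoly 1 φ := by
    intro φ hφ
    simp only [L, List.mem_append, List.mem_cons, List.not_mem_nil, or_false, List.mem_ofFn,
      List.mem_flatten] at hφ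
    rcases hφ with ((rfl | rfl) | ⟨_, rfl⟩) | ⟨l, ⟨e, rfl⟩, hl⟩
    · exact CPoly.const _ _
    · exact CPoly.const _ _
    · exact CPoly.const _ _
    · rw [List.mem_map] at hl
      obtain ⟨m, _, rfl⟩ := hl
      exact cpoly_coeff_tsys ℓ c e m
  unfold tape
  split_ifs with hi
  · have e : ∀ q, (encode mon (tsys ℓ c q)).getD i.toNat 0 = (L.getD i.toNat (fun _ => 0)) q := by
      intro q
      rw [hL]
      rw [List.getD_eq_getElem?_getD, List.getD_eq_getElem?_getD, List.getElem?_map]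
      cases L[i.toNat]? <;> rfl
    simp only [e]
    rw [List.getD_eq_getElem?_getD]
    cases h : L[i.toNat]? with
    | none => exact CPoly.const _ _
    | some φ => exact hC φ (List.mem_of_getElem? h)
  · exact CPoly.const _ _

/-- the size of a system of polynomials of degree `2` -/
lemma size_of_degree_two (mon : ∀ n : ℕ, ℕ → List (Fin n →₀ ℕ)) (hmon : IsMonomialList mon)
    {n k : ℕ} (hn : 0 < n) (f : Fin k → MvPolynomial (Fin n) ℂ) (hf : ∀ e, (f e).totalDegree = 2) :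
    size mon f = k * (n + 2).choose 2 := by
  unfold size
  rw [List.length_flatten, List.map_ofFn, List.sum_ofFn]
  simp only [Function.comp_apply, List.length_map, hf, Finset.sum_const,
    Finset.card_univ, Fintype.card_fin, smul_eq_mul]
  congr 1
  obtain ⟨n', hn'⟩ : ∃ n', n = n' + 1 := ⟨n - 1, by omega⟩
  rw [hn', length_mon mon hmon, add_comm 2 (n' + 1)]
  rw [← Nat.choose_symm_add]

/-- few cells contain a cheap instance in the core -/
theorem card_easy_cores (mon : ∀ n : ℕ, ℕ → List (Fin n →₀ ℕ)) (ℓ : ℕ) (hℓ : 0 < ℓ) :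
    ∃ r > 0, r < 1 ∧ ∀ (M : Machine) (K : ℕ) (c : Fin (5 * ℓ + 1) × Mon (5 * ℓ) → ℝ),
      (∀ j, |c j| ≤ r) →
      (∀ q g t, Answers M (tape (encode mon (tsys ℓ c q))) g t false → ¬ HasZero (tsys ℓ c q)) →
      Nat.card {τ : Par ℓ → Fin (2 ^ ℓ - 1) // ∃ q ∈ core τ, ∃ g t,
        Answers M (tape (encode mon (tsys ℓ c q))) g t false ∧
          cost M (tape (encode mon (tsys ℓ c q))) g t ≤ K} ≤ 2 ^ K * 3 ^ (ℓ ^ 3 + 4 * K) := by
  classical
  obtain ⟨r, hr, hr1, hcells⟩ := exists_cells ℓ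
  refine ⟨r, hr, hr1, fun M K c hc sound => ?_⟩
  obtain ⟨U, hU, hcore, hdis, hfr⟩ := hcells c hc
  rw [Nat.card_eq_fintype_card, Fintype.card_subtype]
  have hP : Fintype.card (Par ℓ) = ℓ ^ 3 := by
    rw [Fintype.card_prod, Fintype.card_prod, Fintype.card_fin]; ring
  rw [← hP]
  refine card_easy M K (fun q => tape (encode mon (tsys ℓ c q)))
    (cpoly_tape_tsys mon ℓ hℓ c fun j => (hc j).trans_lt hr1)
    {q | HasZero (tsys ℓ c q)} sound _ U ?_ ?_ ?_ ?_
  · intro τ _; exact hU τ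
  · intro τ _ σ _ h; exact hdis τ σ h
  · intro τ _; exact hfr τ
  · intro τ hτ
    obtain ⟨q, hq, h⟩ := (Finset.mem_filter.1 hτ).2
    exact ⟨q, hcore τ hq, h⟩

/-- a cost which is small in terms of the size is at most `0.052 ℓ ^ 4` -/
lemma cost_le_of_size (ℓ : ℕ) (hℓ : 50 ≤ ℓ) (s c : ℕ)
    (hs : s = (5 * ℓ + 1) * (5 * ℓ + 2).choose 2)
    (h : 5000 * (c : ℝ) ≤ (s : ℝ) ^ (4 / 3 : ℝ)) : c ≤ ℓ ^ 4 * 13 / 250 := by
  classical
  -- use the bound for the unperturbed system and some listing of the monomials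
  let mon : ∀ n : ℕ, ℕ → List (Fin n →₀ ℕ) := fun n d => (expo (Fin n) d).toList
  have hmon : IsMonomialList mon := fun n d =>
    ⟨Finset.nodup_toList _, fun m => by rw [Finset.mem_toList, mem_expo]⟩
  refine cost_le_of mon hmon ℓ hℓ (fun _ _ _ => 0) c ?_
  rw [size_sys mon hmon ℓ (by omega), ← hs]
  exact h

/-- **Almost all cells are hard after every small perturbation.** -/
theorem almost_all_perturbed (mon : ∀ n : ℕ, ℕ → List (Fin n →₀ ℕ)) (hmon : IsMonomialList mon)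
    (ℓ : ℕ) (hℓ : 50 ≤ ℓ) :
    ∃ r > 0, r < 1 ∧ ∀ (M : Machine) (c : Fin (5 * ℓ + 1) × Mon (5 * ℓ) → ℝ), (∀ j, |c j| ≤ r) →
      (∀ q g t, Answers M (tape (encode mon (tsys ℓ c q))) g t false → ¬ HasZero (tsys ℓ c q)) →
      (2 : ℝ) ^ ((ℓ : ℝ) ^ 4 / 2) * (Nat.card {τ : Par ℓ → Fin (2 ^ ℓ - 1) // ∃ q ∈ core τ, ∃ g t,
        Answers M (tape (encode mon (tsys ℓ c q))) g t false ∧
          5000 * (cost M (tape (encode mon (tsys ℓ c q))) g t : ℝ)
            ≤ (size mon (tsys ℓ c q) : ℝ) ^ (4 / 3 : ℝ)} : ℝ) ≤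
        (Nat.card (Par ℓ → Fin (2 ^ ℓ - 1)) : ℝ) := by
  classical
  obtain ⟨r, hr, hr1, hcard⟩ := card_easy_cores mon ℓ (by omega)
  refine ⟨r, hr, hr1, fun M c hc sound => ?_⟩
  set K := ℓ ^ 4 * 13 / 250 with hK
  have h1 := hcard M K c hc sound
  have h2 : Nat.card {τ : Par ℓ → Fin (2 ^ ℓ - 1) // ∃ q ∈ core τ, ∃ g t,
      Answers M (tape (encode mon (tsys ℓ c q))) g t false ∧
        5000 * (cost M (tape (encode mon (tsys ℓ c q))) g t : ℝ)
          ≤ (size mon (tsys ℓ c q) : ℝ) ^ (4 / 3 : ℝ)} ≤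
      Nat.card {τ : Par ℓ → Fin (2 ^ ℓ - 1) // ∃ q ∈ core τ, ∃ g t,
      Answers M (tape (encode mon (tsys ℓ c q))) g t false ∧
        cost M (tape (encode mon (tsys ℓ c q))) g t ≤ K} := by
    refine Nat.card_le_card_of_injective (fun τ => ⟨τ.1, ?_⟩) ?_
    · obtain ⟨q, hq, g, t, h3, h4⟩ := τ.2
      refine ⟨q, hq, g, t, h3, cost_le_of_size ℓ hℓ _ _ ?_ h4⟩
      exact size_of_degree_two mon hmon (by omega) _ fun e =>
        totalDegree_tsys ℓ (by omega) c (fun j => (hc j).trans_lt hr1) q e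
    · intro τ σ h
      have h' := congrArg Subtype.val h
      exact Subtype.ext h'
  have h3 : Nat.card (Par ℓ → Fin (2 ^ ℓ - 1)) = (2 ^ ℓ - 1) ^ (ℓ ^ 3) := by
    rw [Nat.card_eq_fintype_card, Fintype.card_fun, Fintype.card_fin, Fintype.card_prod,
      Fintype.card_prod, Fintype.card_fin]
    congr 1
    ring
  rw [h3]
  refine le_trans ?_ (numeric ℓ hℓ K le_rfl)
  have h4 := h2.trans h1
  have h5 : (Nat.card {τ : Par ℓ → Fin (2 ^ ℓ - 1) // ∃ q ∈ core τ, ∃ g t,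
      Answers M (tape (encode mon (tsys ℓ c q))) g t false ∧
        5000 * (cost M (tape (encode mon (tsys ℓ c q))) g t : ℝ)
          ≤ (size mon (tsys ℓ c q) : ℝ) ^ (4 / 3 : ℝ)} : ℝ) ≤ ((2 ^ K * 3 ^ (ℓ ^ 3 + 4 * K) : ℕ) : ℝ) := by
    exact_mod_cast h4
  gcongr

end Pool.Agent.L0h79.BSS
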