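import Pool.Agent.L0h79.BSS.Cross
import Pool.Agent.L0h79.BSS.PCount

/-!
# Systems which compare two lists of quadratic polynomials
-/

open MvPolynomial Finset

namespace Pool.Agent.L0h79.BSS

/-- the variables of the quadratic polynomials -/
def zv (m l : ℕ) (i : Fin m) : Fin (m + 3 * l) := ⟨i, by omega⟩
/-- the values of the first list -/
def uv (m l : ℕ) (j : Fin l) : Fin (m + 3 * l) := ⟨m + j, by omega⟩
/-- the values of the second list -/
def wv (m l : ℕ) (j : Fin l) : Fin (m + 3 * l) := ⟨m + l + j, by omega⟩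
/-- the multipliers -/
def yv (m l : ℕ) (j : Fin l) : Fin (m + 3 * l) := ⟨m + 2 * l + j, by omega⟩

/-- the equation in the middle: some of the differences `u_j - w_j` is not zero -/
noncomputable def midPoly (m l : ℕ) : MvPolynomial (Fin (m + 3 * l)) ℂ :=
  ∑ j, X (yv m l j) * (X (uv m l j) - X (wv m l j)) - 1

/-- the system `u_j = P_j(z)` (`j < l`), `∑ y_j (u_j - w_j) = 1` (`r` times), `w_j = Q_j(z)`
(`j < l`); the quadratic polynomials `P_j`, `Q_j` have the coefficients `a`, `b` -/
noncomputable def esys (m l r : ℕ) (a b : Fin l × Mon m → ℂ) (e : Fin (l + r + l)) :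
    MvPolynomial (Fin (m + 3 * l)) ℂ :=
  if h : (e : ℕ) < l then X (uv m l ⟨e, h⟩) - rename (zv m l) (quad a ⟨e, h⟩)
  else if h' : (e : ℕ) < l + r then midPoly m l
  else X (wv m l ⟨e - (l + r), by omega⟩) - rename (zv m l) (quad b ⟨e - (l + r), by omega⟩)

lemma eval_left {m l : ℕ} (a : Fin l × Mon m → ℂ) (j : Fin l) (v : Fin m → Fin (m + 3 * l))
    (x : Fin (m + 3 * l)) (Z : Fin (m + 3 * l) → ℂ) :
    eval Z (X x - rename v (quad a j)) = Z x - eval (fun i => Z (v i)) (quad a j) := by
  rw [map_sub, eval_X, eval_rename]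
  rfl

/-- the systems are unsolvable if the two lists are equal -/
theorem not_hasZero_diag {m l r : ℕ} (hr : 0 < r) (a : Fin l × Mon m → ℂ) :
    ¬ HasZero (esys m l r a a) := by
  rintro ⟨Z, hZ⟩
  have h1 : ∀ j : Fin l, Z (uv m l j) = eval (fun i => Z (zv m l i)) (quad a j) := by
    intro j
    have := hZ ⟨j, by omega⟩
    unfold esys at this
    rw [dif_pos j.2, eval_left] at this
    exact sub_eq_zero.1 this
  have h2 : ∀ j : Fin l, Z (wv m l j) = eval (fun i => Z (zv m l i)) (quad a j) := by
    intro j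
    have := hZ ⟨l + r + j, by omega⟩
    unfold esys at this
    rw [dif_neg (by simp only; omega), dif_neg (by simp only; omega), eval_left] at this
    simp only [Nat.add_sub_cancel_left, Fin.eta] at this
    exact sub_eq_zero.1 this
  have h3 := hZ ⟨l, by omega⟩
  unfold esys at h3
  rw [dif_neg (by simp), dif_pos (by simp only; omega)] at h3
  unfold midPoly at h3
  simp only [map_sub, map_sum, map_mul, eval_X, map_one, h1, h2, sub_self, mul_zero,
    Finset.sum_const_zero] at h3
  norm_num at h3

/-- the systems are solvable if the two lists are different -/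
theorem hasZero_of_ne {m l r : ℕ} (a b : Fin l × Mon m → ℂ) (hab : a ≠ b) :
    HasZero (esys m l r a b) := by
  obtain ⟨⟨j₀, μ⟩, hj⟩ := Function.ne_iff.1 hab
  have hq : quad a j₀ ≠ quad b j₀ := by
    intro h
    have := congrArg (coeff μ.1) h
    rw [coeff_quad, coeff_quad, dif_pos μ.2, dif_pos μ.2] at this
    exact hj this
  obtain ⟨z, hz⟩ : ∃ z, eval z (quad a j₀) ≠ eval z (quad b j₀) := by
    by_contra hcon
    push Not at hcon
    exact hq (MvPolynomial.funext hcon)
  let Z : Fin (m + 3 * l) → ℂ := fun v =>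
    if h : (v : ℕ) < m then z ⟨v, h⟩
    else if h : (v : ℕ) - m < l then eval z (quad a ⟨v - m, h⟩)
    else if h : (v : ℕ) - m - l < l then eval z (quad b ⟨v - m - l, h⟩)
    else if (v : ℕ) - m - 2 * l = j₀ then (eval z (quad a j₀) - eval z (quad b j₀))⁻¹ else 0
  have hzv : (fun i => Z (zv m l i)) = z := by
    funext i
    simp only [Z, zv]
    rw [dif_pos i.2]
  have huv : ∀ j, Z (uv m l j) = eval z (quad a j) := by
    intro j
    simp only [Z, uv]
    rw [dif_neg (by omega), dif_pos (by omega)]
    congr 3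
    omega
  have hwv : ∀ j, Z (wv m l j) = eval z (quad b j) := by
    intro j
    simp only [Z, wv]
    rw [dif_neg (by omega), dif_neg (by omega), dif_pos (by omega)]
    congr 3
    omega
  have hyv : ∀ j : Fin l, Z (yv m l j) =
      if j = j₀ then (eval z (quad a j₀) - eval z (quad b j₀))⁻¹ else 0 := by
    intro j
    simp only [Z, yv]
    rw [dif_neg (by omega), dif_neg (by omega), dif_neg (by omega)]
    refine if_congr ?_ rfl rfl
    rw [Fin.ext_iff]
    omega
  refine ⟨Z, fun e => ?_⟩
  unfold esys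
  split_ifs with h1 h2
  · rw [eval_left, huv, hzv, sub_self]
  · unfold midPoly
    simp only [map_sub, map_sum, map_mul, eval_X, map_one, huv, hwv, hyv]
    rw [Finset.sum_eq_single j₀]
    · rw [if_pos rfl, inv_mul_cancel₀ (sub_ne_zero.2 hz), sub_self]
    · intro j _ hj; rw [if_neg hj, zero_mul]
    · intro h; exact absurd (Finset.mem_univ _) h
  · rw [eval_left, hwv, hzv, sub_self]

/-! ### Degrees -/

lemma totalDegree_left_le {m l : ℕ} (a : Fin l × Mon m → ℂ) (j : Fin l)
    (v : Fin m → Fin (m + 3 * l)) (x : Fin (m + 3 * l)) :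
    (X x - rename v (quad a j)).totalDegree ≤ 2 := by
  refine (totalDegree_sub _ _).trans (max_le ?_ ?_)
  · rw [totalDegree_X]; norm_num
  · exact (totalDegree_rename_le _ _).trans (totalDegree_quad_le _ _)

lemma zv_injective (m l : ℕ) : Function.Injective (zv m l) := by
  intro i j h
  have := congrArg Fin.val h
  simp only [zv] at this
  exact Fin.ext this

lemma totalDegree_left {m l : ℕ} (a : Fin l × Mon m → ℂ) (j : Fin l)
    (x : Fin (m + 3 * l)) (i : Fin m)
    (ha : a (j, ⟨Finsupp.single i 2, mem_expo.2 (by simp)⟩) ≠ 0) :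
    (X x - rename (zv m l) (quad a j)).totalDegree = 2 := by
  refine totalDegree_eq_two _ (totalDegree_left_le _ _ _ _)
    (Finsupp.mapDomain (zv m l) (Finsupp.single i 2)) ?_ ?_
  · rw [coeff_sub, coeff_rename_mapDomain _ (zv_injective m l), coeff_quad,
      dif_pos (mem_expo.2 (by simp)), Finsupp.mapDomain_single, coeff_X, if_neg, zero_sub]
    · exact neg_ne_zero.2 ha
    · intro h
      have := DFunLike.congr_fun h (zv m l i)
      simp only [Finsupp.single_apply] at this
      split_ifs at this
      all_goals omega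
  · rw [Finsupp.mapDomain_single]
    simp

lemma totalDegree_mid {m l : ℕ} (hl : 0 < l) : (midPoly m l).totalDegree = 2 := by
  have hle : (midPoly m l).totalDegree ≤ 2 := by
    unfold midPoly
    refine (totalDegree_sub _ _).trans (max_le ?_ ?_)
    · refine (totalDegree_finsetSum _ _).trans (Finset.sup_le fun j _ => ?_)
      refine (totalDegree_mul _ _).trans ?_
      have h1 : (X (uv m l j) - X (wv m l j) : MvPolynomial (Fin (m + 3 * l)) ℂ).totalDegree ≤ 1 := by
        refine (totalDegree_sub _ _).trans (max_le ?_ ?_) <;> rw [totalDegree_X]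
      rw [totalDegree_X]
      omega
    · rw [totalDegree_one]; norm_num
  let j₀ : Fin l := ⟨0, hl⟩
  have e1 : ∀ j, (X (yv m l j) * (X (uv m l j) - X (wv m l j)) : MvPolynomial (Fin (m + 3 * l)) ℂ)
      = monomial (Finsupp.single (yv m l j) 1 + Finsupp.single (uv m l j) 1) 1
        - monomial (Finsupp.single (yv m l j) 1 + Finsupp.single (wv m l j) 1) 1 := by
    intro j; simp [X, monomial_mul, mul_sub]
  refine totalDegree_eq_two _ hle (Finsupp.single (yv m l j₀) 1 + Finsupp.single (uv m l j₀) 1)
    ?_ ?_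
  · unfold midPoly
    rw [coeff_sub, coeff_sum, Finset.sum_eq_single j₀]
    · rw [e1, coeff_sub, coeff_monomial, coeff_monomial, if_pos rfl, if_neg, coeff_one, if_neg]
      · norm_num
      · intro h
        have := DFunLike.congr_fun h (uv m l j₀)
        simp [Finsupp.single_apply, yv, uv] at this
      · intro h
        have := DFunLike.congr_fun h (uv m l j₀)
        simp only [Finsupp.add_apply, Finsupp.single_apply, yv, uv, wv, Fin.mk.injEq, j₀] at this
        split_ifs at this <;> omega
    · intro j _ hj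
      have hj' : (j : ℕ) ≠ 0 := fun h => hj (Fin.ext h)
      rw [e1, coeff_sub, coeff_monomial, coeff_monomial, if_neg, if_neg, sub_zero]
      · intro h
        have := DFunLike.congr_fun h (uv m l j₀)
        simp only [Finsupp.add_apply, Finsupp.single_apply, yv, uv, wv, Fin.mk.injEq, j₀] at this
        split_ifs at this <;> omega
      · intro h
        have := DFunLike.congr_fun h (uv m l j₀)
        simp only [Finsupp.add_apply, Finsupp.single_apply, yv, uv, Fin.mk.injEq, j₀] at this
        split_ifs at this <;> omega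
    · intro h; exact absurd (Finset.mem_univ _) h
  · rw [Finsupp.sum_add_index' (by simp) (by simp)]
    simp

lemma totalDegree_esys {m l r : ℕ} (hl : 0 < l) (i : Fin m) (a b : Fin l × Mon m → ℂ)
    (ha : ∀ j, a j ≠ 0) (hb : ∀ j, b j ≠ 0) (e : Fin (l + r + l)) :
    (esys m l r a b e).totalDegree = 2 := by
  unfold esys
  split_ifs
  · exact totalDegree_left a _ _ i (ha _)
  · exact totalDegree_mid hl
  · exact totalDegree_left b _ _ i (hb _)

/-! ### The entries of the tape -/

/-- the entries of the tape, if all degrees are `2` -/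
noncomputable def entry (mon : ∀ n : ℕ, ℕ → List (Fin n →₀ ℕ)) {n k : ℕ}
    (f : Fin k → MvPolynomial (Fin n) ℂ) (i : ℤ) : ℂ :=
  if i < 0 then 0 else if i.toNat < 2 + k then
    ([(n : ℂ), (k : ℂ)] ++ (List.ofFn fun _ : Fin k => ((2 : ℕ) : ℂ))).getD i.toNat 0
  else if h : (i.toNat - (2 + k)) / (mon n 2).length < k then
    ((mon n 2).map fun μ => coeff μ (f ⟨(i.toNat - (2 + k)) / (mon n 2).length, h⟩)).getD
      ((i.toNat - (2 + k)) % (mon n 2).length) 0
  else 0

lemma flatten_getD {k L : ℕ} (hL : 0 < L) (G : Fin k → List ℂ) (hG : ∀ e, (G e).length = L)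
    (q : ℕ) : ((List.ofFn G).flatten).getD q 0 =
      if h : q / L < k then (G ⟨q / L, h⟩).getD (q % L) 0 else 0 := by
  induction k generalizing q with
  | zero => simp
  | succ k ih =>
    rw [List.ofFn_succ, List.flatten_cons]
    by_cases hq : q < L
    · rw [List.getD_append _ _ _ _ (by rw [hG]; exact hq)]
      have h0 : q / L = 0 := Nat.div_eq_of_lt hq
      have h1 : q % L = q := Nat.mod_eq_of_lt hq
      rw [dif_pos (by rw [h0]; omega), h1]
      congr 2
      exact Fin.ext h0.symm
    · rw [List.getD_append_right _ _ _ _ (by rw [hG]; omega), hG, ih _ fun e => hG _]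
      have h1 : q / L = (q - L) / L + 1 := by
        rw [← Nat.add_div_right _ hL, Nat.sub_add_cancel (by omega)]
      have h2 : q % L = (q - L) % L := by
        rw [Nat.mod_eq_sub_mod (by omega)]
      by_cases h : (q - L) / L < k
      · rw [dif_pos h, dif_pos (by omega), h2]
        congr 2
        exact Fin.ext (by simp only [Fin.val_succ]; omega)
      · rw [dif_neg h, dif_neg (by omega)]

lemma tape_encode (mon : ∀ n : ℕ, ℕ → List (Fin n →₀ ℕ)) {n k : ℕ}
    (hL : 0 < (mon n 2).length) (f : Fin k → MvPolynomial (Fin n) ℂ)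
    (hf : ∀ e, (f e).totalDegree = 2) : tape (encode mon f) = entry mon f := by
  funext i
  unfold tape entry encode
  by_cases hi : 0 ≤ i
  · rw [if_pos hi, if_neg (by omega)]
    simp only [hf]
    have hlen : ([(n : ℂ), (k : ℂ)] ++ (List.ofFn fun _ : Fin k => ((2 : ℕ) : ℂ))).length
        = 2 + k := by
      rw [List.length_append, List.length_ofFn]; rfl
    by_cases h2 : i.toNat < 2 + k
    · rw [if_pos h2, List.getD_append _ _ _ _ (by rw [hlen]; exact h2)]
    · rw [if_neg h2, List.getD_append_right _ _ _ _ (by rw [hlen]; omega), hlen]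
      exact flatten_getD hL (fun e => (mon n 2).map fun μ => coeff μ (f e))
        (fun e => List.length_map _) _
  · rw [if_neg hi, if_pos (by omega)]

lemma map_quad {n k : ℕ} (σ : ℂ ≃+* ℂ) (c : Fin k × Mon n → ℂ) (e : Fin k) :
    MvPolynomial.map (σ : ℂ →+* ℂ) (quad c e) = quad (fun j => σ (c j)) e := by
  ext μ
  rw [coeff_map, coeff_quad, coeff_quad]
  split_ifs
  · rfl
  · exact map_zero _

lemma map_esys {m l r : ℕ} (σ : ℂ ≃+* ℂ) (a b : Fin l × Mon m → ℂ) (e : Fin (l + r + l)) :
    MvPolynomial.map (σ : ℂ →+* ℂ) (esys m l r a b e) =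
      esys m l r (fun j => σ (a j)) (fun j => σ (b j)) e := by
  unfold esys midPoly
  split_ifs
  · rw [map_sub, map_X, map_rename, map_quad]
  · simp only [map_sub, map_sum, map_mul, map_X, map_one]
  · rw [map_sub, map_X, map_rename, map_quad]

lemma map_getD (σ : ℂ ≃+* ℂ) (L : List ℂ) (i : ℕ) : σ (L.getD i 0) = (L.map σ).getD i 0 := by
  rw [List.getD_eq_getElem?_getD, List.getD_eq_getElem?_getD, List.getElem?_map]
  cases L[i]? <;> simp

lemma map_entry (mon : ∀ n : ℕ, ℕ → List (Fin n →₀ ℕ)) {m l r : ℕ} (σ : ℂ ≃+* ℂ)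
    (a b : Fin l × Mon m → ℂ) (i : ℤ) :
    σ (entry mon (esys m l r a b) i) =
      entry mon (esys m l r (fun j => σ (a j)) fun j => σ (b j)) i := by
  unfold entry
  split_ifs
  · exact map_zero σ
  · rw [map_getD]
    congr 1
    rw [List.map_append, List.map_cons, List.map_cons, List.map_nil, map_natCast, map_natCast,
      List.map_ofFn]
    congr 2
    funext e
    exact map_natCast σ 2
  · rw [map_getD, List.map_map]
    congr 1
    refine List.map_congr_left fun μ _ => ?_
    rw [Function.comp_apply, ← map_esys, coeff_map]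
    rfl
  · exact map_zero σ

/-- the entries at the left depend only on `a` -/
lemma entry_left (mon : ∀ n : ℕ, ℕ → List (Fin n →₀ ℕ)) {m l r : ℕ} (a b b' : Fin l × Mon m → ℂ)
    (i : ℤ) (hi : i < 2 + (l + r + l : ℕ) + (l + r) * (mon (m + 3 * l) 2).length) :
    entry mon (esys m l r a b) i = entry mon (esys m l r a b') i := by
  unfold entry
  split_ifs with h1 h2 h3
  · rfl
  · rfl
  · have h4 : (i.toNat - (2 + (l + r + l))) / (mon (m + 3 * l) 2).length < l + r := by
      rw [Nat.div_lt_iff_lt_mul]
      · have h5 : (i.toNat : ℤ) < 2 + (l + r + l : ℕ) + (l + r) * (mon (m + 3 * l) 2).length := by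
          omega
        have h6 : i.toNat < 2 + (l + r + l) + (l + r) * (mon (m + 3 * l) 2).length := by
          exact_mod_cast h5
        omega
      · rcases Nat.eq_zero_or_pos (mon (m + 3 * l) 2).length with h0 | h0
        · exfalso
          have h5 : i < 2 + (l + r + l : ℕ) := by
            rw [h0] at hi
            simpa using hi
          omega
        · exact h0
    have h5 : esys m l r a b ⟨_, h3⟩ = esys m l r a b' ⟨_, h3⟩ := by
      unfold esys
      split_ifs <;> rfl
    rw [h5]
  · rfl

/-- the entries at the right depend only on `b` -/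
lemma entry_right (mon : ∀ n : ℕ, ℕ → List (Fin n →₀ ℕ)) {m l r : ℕ}
    (hL : 0 < (mon (m + 3 * l) 2).length) (a a' b : Fin l × Mon m → ℂ)
    (i : ℤ) (hi : 2 + (l + r + l : ℕ) + l * (mon (m + 3 * l) 2).length ≤ i) :
    entry mon (esys m l r a b) i = entry mon (esys m l r a' b) i := by
  unfold entry
  split_ifs with h1 h2 h3
  · rfl
  · rfl
  · have h4 : l ≤ (i.toNat - (2 + (l + r + l))) / (mon (m + 3 * l) 2).length := by
      rw [Nat.le_div_iff_mul_le hL]
      have h5 : 2 + (l + r + l : ℕ) + l * (mon (m + 3 * l) 2).length ≤ (i.toNat : ℤ) := by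
        omega
      have h6 : 2 + (l + r + l) + l * (mon (m + 3 * l) 2).length ≤ i.toNat := by
        exact_mod_cast h5
      omega
    have h5 : esys m l r a b ⟨_, h3⟩ = esys m l r a' b ⟨_, h3⟩ := by
      have h6 : ¬ ((i.toNat - (2 + (l + r + l))) / (mon (m + 3 * l) 2).length < l) := not_lt.2 h4
      unfold esys
      simp only [h6, dite_false]
    rw [h5]
  · rfl

/-- **The main estimate.** -/
theorem eq_long (mon : ∀ n : ℕ, ℕ → List (Fin n →₀ ℕ)) (hmon : IsMonomialList mon)
    {m l r : ℕ} (hm : 0 < m) (hl : 0 < l) (hr : 0 < r) (M : Machine)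
    (hM : ∀ v, (M.prog v).standardOrGuess) {W : ℕ} (hW : Within M W)
    (hsound : ∀ (f : Fin (l + r + l) → MvPolynomial (Fin (m + 3 * l)) ℂ) (g : ℕ → ℂ) (t : ℕ),
      Answers M (tape (encode mon f)) g t false → ¬ HasZero f)
    (a : Fin l × Mon m → ℂ) (ha : AlgebraicIndependent (Subfield.closure (constants M)) a) :
    (∀ e, (esys m l r a a e).totalDegree = 2) ∧ ¬ HasZero (esys m l r a a) ∧
    ∀ (g : ℕ → ℂ) (t : ℕ), Answers M (tape (encode mon (esys m l r a a))) g t false →
      ((r * (m + 3 * l + 2).choose 2 : ℤ) - 2 * W) * (l * (m + 2).choose 2 : ℕ) ≤ 2 * W * t := by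
  classical
  have hLen : (mon (m + 3 * l) 2).length = (m + 3 * l + 2).choose 2 := by
    obtain ⟨n', hn'⟩ : ∃ n', m + 3 * l = n' + 1 := ⟨m + 3 * l - 1, by omega⟩
    rw [hn', length_mon mon hmon, add_comm 2 (n' + 1), ← Nat.choose_symm_add]
  have hL : 0 < (mon (m + 3 * l) 2).length := by
    rw [hLen]; exact Nat.choose_pos (by omega)
  have hcard : Fintype.card (Fin l × Mon m) = l * (m + 2).choose 2 := by
    obtain ⟨n', rfl⟩ : ∃ n', m = n' + 1 := ⟨m - 1, by omega⟩
    rw [Fintype.card_prod, Fintype.card_fin, Fintype.card_coe, card_expo 2 n' (by simp),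
      add_comm 2 (n' + 1), ← Nat.choose_symm_add]
  have hne : ∀ a' : Fin l × Mon m → ℂ,
      AlgebraicIndependent (Subfield.closure (constants M)) a' → ∀ j, a' j ≠ 0 :=
    fun a' h j => h.ne_zero j
  have hσne : ∀ (σ : ℂ ≃+* ℂ) (j : Fin l × Mon m), σ (a j) ≠ 0 := by
    intro σ j h
    exact hne a ha j (by simpa using h)
  let i₀ : Fin m := ⟨0, hm⟩
  have hdeg : ∀ e, (esys m l r a a e).totalDegree = 2 :=
    fun e => totalDegree_esys hl i₀ a a (hne a ha) (hne a ha) e
  refine ⟨hdeg, not_hasZero_diag hr a, fun g t hans => ?_⟩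
  rw [tape_encode mon hL _ hdeg] at hans
  set L := (mon (m + 3 * l) 2).length with hLdef
  set B : ℤ := 2 + (l + r + l : ℕ) with hB
  have hp : ∀ p ∈ Finset.Icc (B + l * L + W) (B + (l + r) * L - W),
      l * (m + 2).choose 2 ≤ 2 * W * cr M p t (init M (entry mon (esys m l r a a))) g := by
    intro p hp
    rw [Finset.mem_Icc] at hp
    rw [← hcard]
    refine crossing_dim hM hW (fun a b => entry mon (esys m l r a b)) p
      (fun σ a b i => map_entry mon σ a b i) ?_ ?_ a ha ?_ g t hans
    · intro a b b' j hj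
      refine entry_left mon a b b' j ?_
      have : j < B + (l + r) * L := by linarith [hp.2]
      rw [hB] at this
      exact this
    · intro a a' b j hj
      refine entry_right mon hL a a' b j ?_
      have : B + l * L ≤ j := by linarith [hp.1]
      rw [hB] at this
      exact this
    · intro σ hσ g' t' h'
      have hdeg' : ∀ e, (esys m l r a (fun k => σ (a k)) e).totalDegree = 2 :=
        fun e => totalDegree_esys hl i₀ a _ (hne a ha) (hσne σ) e
      rw [← tape_encode mon hL _ hdeg'] at h'
      exact hsound _ g' t' h' (hasZero_of_ne _ _ (Ne.symm hσ))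
  by_cases hneg : (r * L : ℤ) - 2 * W ≤ 0
  · rw [← hLen]
    have h1 : ((r * L : ℤ) - 2 * W) * (l * (m + 2).choose 2 : ℕ) ≤ 0 :=
      mul_nonpos_of_nonpos_of_nonneg hneg (by positivity)
    have h2 : (0 : ℤ) ≤ 2 * W * t := by positivity
    linarith
  · push Not at hneg
    have h1 : (Finset.Icc (B + l * L + W) (B + (l + r) * L - W)).card • (l * (m + 2).choose 2) ≤
        ∑ p ∈ Finset.Icc (B + l * L + W) (B + (l + r) * L - W),
          2 * W * cr M p t (init M (entry mon (esys m l r a a))) g :=
      Finset.card_nsmul_le_sum _ _ _ hp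
    rw [← Finset.mul_sum, smul_eq_mul] at h1
    have h2 := sum_cr (M := M) (Finset.Icc (B + l * L + W) (B + (l + r) * L - W)) t
      (init M (entry mon (esys m l r a a))) g
    have h3 : (Finset.Icc (B + l * L + W) (B + (l + r) * L - W)).card * (l * (m + 2).choose 2) ≤
        2 * W * t := h1.trans (Nat.mul_le_mul_left _ h2)
    have h4 : ((Finset.Icc (B + l * L + W) (B + (l + r) * L - W)).card : ℤ) =
        r * L - 2 * W + 1 := by
      rw [Int.card_Icc, Int.toNat_of_nonneg]
      · ring
      · have : B + (l + r) * L - W + 1 - (B + l * L + W) = r * L - 2 * W + 1 := by ring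
        rw [this]
        linarith
    have h5 : ((Finset.Icc (B + l * L + W) (B + (l + r) * L - W)).card : ℤ) *
        (l * (m + 2).choose 2 : ℕ) ≤ 2 * W * t := by exact_mod_cast h3
    rw [h4] at h5
    rw [← hLen]
    have h6 : (0 : ℤ) ≤ (l * (m + 2).choose 2 : ℕ) := by positivity
    nlinarith

end Pool.Agent.L0h79.BSS
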