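import Pool.Agent.L0h79.BSS.Degree

/-!
# Cells for the family of systems
-/

open MvPolynomial Finset

namespace Pool.Agent.L0h79.BSS

/-- the index set of the parameters -/
abbrev Par (ℓ : ℕ) := Fin ℓ × Fin ℓ × Fin ℓ

/-- the system with real parameters `q` -/
noncomputable def psys (ℓ : ℕ) (q : Par ℓ → ℝ) : Fin (5 * ℓ + 1) → MvPolynomial (Fin (5 * ℓ)) ℂ :=
  sys ℓ fun i j k => ((q (i, j, k) : ℝ) : ℂ)

lemma cpoly_coeff (ℓ : ℕ) (e : Fin (5 * ℓ + 1)) (m : Fin (5 * ℓ) →₀ ℕ) :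
    CPoly 1 (fun q : Par ℓ → ℝ => coeff m (psys ℓ q e)) := by
  unfold psys sys
  split_ifs with h
  · unfold blockPoly
    split_ifs with hc
    · simp only [coeff_add, coeff_sub, coeff_sum, coeff_C_mul]
      refine ((CPoly.const _ _).sub ?_).add ((CPoly.const _ _).sub (CPoly.const _ _))
      refine CPoly.sum _ fun j _ => CPoly.sum _ fun k _ => ?_
      have h1 : CPoly 1 (fun q : Par ℓ → ℝ =>
          ((q ((finProdFinEquiv.symm ⟨(e : ℕ), h⟩).2, j, k) : ℝ) : ℂ)) :=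
        CPoly.ofReal (PolyFn.coord _)
      simpa using h1.mul (CPoly.const 0 _)
    · exact CPoly.const _ _
  · exact CPoly.const _ _

/-- each entry of the input tape depends affinely on the parameters -/
lemma cpoly_tape (mon : ∀ n : ℕ, ℕ → List (Fin n →₀ ℕ)) (ℓ : ℕ) (hℓ : 0 < ℓ) (i : ℤ) :
    CPoly 1 (fun q : Par ℓ → ℝ => tape (encode mon (psys ℓ q)) i) := by
  let L : List ((Par ℓ → ℝ) → ℂ) :=
    [fun _ => ((5 * ℓ : ℕ) : ℂ), fun _ => ((5 * ℓ + 1 : ℕ) : ℂ)]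
      ++ (List.ofFn fun _ : Fin (5 * ℓ + 1) => fun _ => ((2 : ℕ) : ℂ))
      ++ (List.ofFn fun e : Fin (5 * ℓ + 1) =>
        (mon (5 * ℓ) 2).map fun m => fun q => coeff m (psys ℓ q e)).flatten
  have hL : ∀ q, encode mon (psys ℓ q) = L.map fun φ => φ q := by
    intro q
    unfold encode
    have hd : ∀ e, (psys ℓ q e).totalDegree = 2 := fun e => totalDegree_sys ℓ hℓ _ e
    simp only [hd, L, List.map_append, List.map_cons, List.map_nil, List.map_ofFn, List.map_flatten]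
    congr 1
    congr 1
    congr 1
    funext e
    simp [Function.comp_def]
  have hC : ∀ φ ∈ L, CPoly 1 φ := by
    intro φ hφ
    simp only [L, List.mem_append, List.mem_cons, List.not_mem_nil, or_false, List.mem_ofFn,
      List.mem_flatten] at hφ
    rcases hφ with ((rfl | rfl) | ⟨_, rfl⟩) | ⟨l, ⟨e, rfl⟩, hl⟩
    · exact CPoly.const _ _
    · exact CPoly.const _ _
    · exact CPoly.const _ _
    · rw [List.mem_map] at hl
      obtain ⟨m, _, rfl⟩ := hl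
      exact cpoly_coeff ℓ e m
  unfold tape
  split_ifs with hi
  · have e : ∀ q, (encode mon (psys ℓ q)).getD i.toNat 0 = (L.getD i.toNat (fun _ => 0)) q := by
      intro q
      rw [hL]
      rw [List.getD_eq_getElem?_getD, List.getD_eq_getElem?_getD, List.getElem?_map]
      cases L[i.toNat]? <;> rfl
    simp only [e]
    rw [List.getD_eq_getElem?_getD]
    cases h : L[i.toNat]? with
    | none => exact CPoly.const _ _
    | some φ => exact hC φ (List.mem_of_getElem? h)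
  · exact CPoly.const _ _

/-- the open box of a vector `τ` of natural numbers -/
def box {ℓ : ℕ} (τ : Par ℓ → Fin (2 ^ ℓ - 1)) : Set (Par ℓ → ℝ) :=
  {q | ∀ a, 2 * ((τ a : ℕ) : ℝ) + 1 < q a ∧ q a < 2 * ((τ a : ℕ) : ℝ) + 3}

lemma isOpen_box {ℓ : ℕ} (τ : Par ℓ → Fin (2 ^ ℓ - 1)) : IsOpen (box τ) := by
  have : box τ = ⋂ a, {q : Par ℓ → ℝ | 2 * ((τ a : ℕ) : ℝ) + 1 < q a ∧ q a < 2 * ((τ a : ℕ) : ℝ) + 3} := by
    ext q; simp [box]
  rw [this]
  refine isOpen_iInter_of_finite fun a => ?_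
  exact (isOpen_lt continuous_const (continuous_apply a)).inter
    (isOpen_lt (continuous_apply a) continuous_const)

lemma disjoint_box {ℓ : ℕ} (τ σ : Par ℓ → Fin (2 ^ ℓ - 1)) (h : τ ≠ σ) :
    Disjoint (box τ) (box σ) := by
  rw [Set.disjoint_left]
  intro q hq hq'
  apply h
  funext a
  have h1 := hq a
  have h2 := hq' a
  apply Fin.ext
  have h3 : ((τ a : ℕ) : ℝ) < (σ a : ℕ) + 1 := by linarith [h1.1, h2.2]
  have h4 : ((σ a : ℕ) : ℝ) < (τ a : ℕ) + 1 := by linarith [h1.2, h2.1]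
  have h5 : (τ a : ℕ) < (σ a : ℕ) + 1 := by exact_mod_cast h3
  have h6 : (σ a : ℕ) < (τ a : ℕ) + 1 := by exact_mod_cast h4
  omega

lemma frontier_box {ℓ : ℕ} (τ : Par ℓ → Fin (2 ^ ℓ - 1)) :
    frontier (box τ) ⊆ {q | HasZero (psys ℓ q)} := by
  intro q hq
  rw [(isOpen_box τ).frontier_eq] at hq
  obtain ⟨hcl, hn⟩ := hq
  have hle : ∀ a, 2 * ((τ a : ℕ) : ℝ) + 1 ≤ q a ∧ q a ≤ 2 * ((τ a : ℕ) : ℝ) + 3 := by
    have hclosed : IsClosed {q : Par ℓ → ℝ | ∀ a, 2 * ((τ a : ℕ) : ℝ) + 1 ≤ q a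
        ∧ q a ≤ 2 * ((τ a : ℕ) : ℝ) + 3} := by
      have : {q : Par ℓ → ℝ | ∀ a, 2 * ((τ a : ℕ) : ℝ) + 1 ≤ q a ∧ q a ≤ 2 * ((τ a : ℕ) : ℝ) + 3}
          = ⋂ a, {q : Par ℓ → ℝ | 2 * ((τ a : ℕ) : ℝ) + 1 ≤ q a ∧ q a ≤ 2 * ((τ a : ℕ) : ℝ) + 3} := by
        ext q; simp
      rw [this]
      refine isClosed_iInter fun a => ?_
      exact (isClosed_le continuous_const (continuous_apply a)).inter
        (isClosed_le (continuous_apply a) continuous_const)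
    have hsub : box τ ⊆ {q : Par ℓ → ℝ | ∀ a, 2 * ((τ a : ℕ) : ℝ) + 1 ≤ q a
        ∧ q a ≤ 2 * ((τ a : ℕ) : ℝ) + 3} := fun q hq a => ⟨(hq a).1.le, (hq a).2.le⟩
    exact closure_minimal hsub hclosed hcl
  simp only [box, Set.mem_ofPred_eq, not_forall] at hn
  obtain ⟨⟨i, j, k⟩, ha⟩ := hn
  have hτ := (τ (i, j, k)).2
  have h1 := hle (i, j, k)
  show HasZero (psys ℓ q)
  unfold psys
  by_cases hc : 2 * ((τ (i, j, k) : ℕ) : ℝ) + 1 < q (i, j, k)
  · have h2 : q (i, j, k) = 2 * ((τ (i, j, k) : ℕ) : ℝ) + 3 := by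
      refine le_antisymm h1.2 ?_
      by_contra hlt
      push Not at hlt
      exact ha ⟨hc, hlt⟩
    refine hasZero_of_odd ℓ _ i j k ((τ (i, j, k) : ℕ) + 1) (by omega) ?_
    rw [h2]
    push_cast
    ring
  · have h2 : q (i, j, k) = 2 * ((τ (i, j, k) : ℕ) : ℝ) + 1 := le_antisymm (not_lt.1 hc) h1.1
    refine hasZero_of_odd ℓ _ i j k (τ (i, j, k) : ℕ) (by omega) ?_
    rw [h2]
    push_cast
    ring

/-- the centre of a box -/
def centre {ℓ : ℕ} (τ : Par ℓ → Fin (2 ^ ℓ - 1)) : Par ℓ → ℝ := fun a => 2 * ((τ a : ℕ) : ℝ) + 2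

lemma centre_mem {ℓ : ℕ} (τ : Par ℓ → Fin (2 ^ ℓ - 1)) : centre τ ∈ box τ := by
  intro a
  unfold centre
  constructor <;> linarith

lemma not_hasZero_centre {ℓ : ℕ} (τ : Par ℓ → Fin (2 ^ ℓ - 1)) : ¬ HasZero (psys ℓ (centre τ)) := by
  have := not_hasZero_of_even ℓ fun i j k => ((τ (i, j, k) : ℕ) : ℤ) + 1
  have e : psys ℓ (centre τ) = sys ℓ fun i j k =>
      ((2 * (((τ (i, j, k) : ℕ) : ℤ) + 1) : ℤ) : ℂ) := by
    unfold psys centre
    congr 1
    funext i j k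
    push_cast
    ring
  rw [e]
  exact this

/-- few boxes contain a cheap instance -/
theorem card_easy_boxes (mon : ∀ n : ℕ, ℕ → List (Fin n →₀ ℕ)) (M : Machine) (ℓ K : ℕ)
    (hℓ : 0 < ℓ)
    (sound : ∀ q g t, Answers M (tape (encode mon (psys ℓ q))) g t false → ¬ HasZero (psys ℓ q)) :
    Nat.card {τ : Par ℓ → Fin (2 ^ ℓ - 1) // ∃ q ∈ box τ, ∃ g t,
      Answers M (tape (encode mon (psys ℓ q))) g t false ∧
        cost M (tape (encode mon (psys ℓ q))) g t ≤ K} ≤ 2 ^ K * 3 ^ (ℓ ^ 3 + 4 * K) := by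
  classical
  rw [Nat.card_eq_fintype_card, Fintype.card_subtype]
  have hP : Fintype.card (Par ℓ) = ℓ ^ 3 := by
    rw [Fintype.card_prod, Fintype.card_prod, Fintype.card_fin]; ring
  rw [← hP]
  refine card_easy M K (fun q => tape (encode mon (psys ℓ q))) (cpoly_tape mon ℓ hℓ)
    {q | HasZero (psys ℓ q)} sound _ box ?_ ?_ ?_ ?_
  · intro τ _; exact isOpen_box τ
  · intro τ _ σ _ h; exact disjoint_box τ σ h
  · intro τ _; exact frontier_box τ
  · intro τ hτ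
    exact (Finset.mem_filter.1 hτ).2

end Pool.Agent.L0h79.BSS
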