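import Pool.Agent.L0h79.BSS.Family

/-!
# The numerical part and the lower bounds
-/

open MvPolynomial Finset

namespace Pool.Agent.L0h79.BSS

/-- a run whose cost is small in terms of the size has cost at most `0.052 ℓ ^ 4` -/
lemma cost_le_of (mon : ∀ n : ℕ, ℕ → List (Fin n →₀ ℕ)) (hmon : IsMonomialList mon) (ℓ : ℕ)
    (hℓ : 50 ≤ ℓ) (θ : Fin ℓ → Fin ℓ → Fin ℓ → ℂ) (c : ℕ)
    (h : 5000 * (c : ℝ) ≤ (size mon (sys ℓ θ) : ℝ) ^ (4 / 3 : ℝ)) : c ≤ ℓ ^ 4 * 13 / 250 := by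
  rw [Nat.le_div_iff_mul_le (by norm_num)]
  by_contra hcon
  push Not at hcon
  set s := size mon (sys ℓ θ) with hs
  have hs' : (s : ℝ) ≤ (5 * ℓ + 2) ^ 3 / 2 := by
    have h1 : 2 * s ≤ (5 * ℓ + 2) ^ 3 := by
      rw [hs, size_sys mon hmon ℓ (by omega)]
      have h2 : 2 * (5 * ℓ + 2).choose 2 = (5 * ℓ + 2) * (5 * ℓ + 1) := by
        rw [Nat.choose_two_right, Nat.mul_div_cancel']
        · rfl
        · exact (Nat.even_mul_pred_self _).two_dvd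
      calc 2 * ((5 * ℓ + 1) * (5 * ℓ + 2).choose 2)
          = (5 * ℓ + 1) * (2 * (5 * ℓ + 2).choose 2) := by ring
        _ = (5 * ℓ + 1) * ((5 * ℓ + 2) * (5 * ℓ + 1)) := by rw [h2]
        _ ≤ (5 * ℓ + 2) * ((5 * ℓ + 2) * (5 * ℓ + 2)) := by gcongr <;> omega
        _ = _ := by ring
    have h3 : ((2 * s : ℕ) : ℝ) ≤ (((5 * ℓ + 2) ^ 3 : ℕ) : ℝ) := by exact_mod_cast h1
    push_cast at h3
    linarith
  have hcube : (5000 * (c : ℝ)) ^ 3 ≤ (s : ℝ) ^ 4 := by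
    have h1 : (5000 * (c : ℝ)) ^ 3 ≤ ((s : ℝ) ^ (4 / 3 : ℝ)) ^ 3 :=
      pow_le_pow_left₀ (by positivity) h 3
    have h2 : ((s : ℝ) ^ (4 / 3 : ℝ)) ^ 3 = (s : ℝ) ^ 4 := by
      rw [← Real.rpow_natCast, ← Real.rpow_mul (by positivity), ← Real.rpow_natCast]
      norm_num
    rwa [h2] at h1
  have hℓ' : (50 : ℝ) ≤ ℓ := by exact_mod_cast hℓ
  have h5 : (5 * (ℓ : ℝ) + 2) ≤ 126 / 25 * ℓ := by linarith
  have h6 : (s : ℝ) ^ 4 ≤ (((126 / 25 * (ℓ : ℝ)) ^ 3) / 2) ^ 4 := by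
    refine pow_le_pow_left₀ (by positivity) (hs'.trans ?_) 4
    have := pow_le_pow_left₀ (by positivity) h5 3
    linarith
  have h7 : (ℓ : ℝ) ^ 4 * 13 < c * 250 := by exact_mod_cast hcon
  have h8 : (260 * (ℓ : ℝ) ^ 4) ^ 3 ≤ (5000 * (c : ℝ)) ^ 3 := by
    refine pow_le_pow_left₀ (by positivity) ?_ 3
    linarith
  have h9 : (260 * (ℓ : ℝ) ^ 4) ^ 3 ≤ (((126 / 25 * (ℓ : ℝ)) ^ 3) / 2) ^ 4 := h8.trans (hcube.trans h6)
  have h10 : (260 * (ℓ : ℝ) ^ 4) ^ 3 = 260 ^ 3 * (ℓ : ℝ) ^ 12 := by ring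
  have h11 : (((126 / 25 * (ℓ : ℝ)) ^ 3) / 2) ^ 4 = (126 / 25) ^ 12 / 16 * (ℓ : ℝ) ^ 12 := by ring
  rw [h10, h11] at h9
  have hpos : (0 : ℝ) < (ℓ : ℝ) ^ 12 := by positivity
  have h12 : (260 : ℝ) ^ 3 ≤ (126 / 25) ^ 12 / 16 := le_of_mul_le_mul_right h9 hpos
  norm_num at h12

lemma three_pow_le (n : ℕ) : (3 : ℝ) ^ n ≤ (2 : ℝ) ^ ((8 / 5 : ℝ) * n) := by
  have h : (3 : ℝ) ≤ (2 : ℝ) ^ (8 / 5 : ℝ) := by
    have h1 : (3 : ℝ) ^ (5 : ℕ) ≤ ((2 : ℝ) ^ (8 / 5 : ℝ)) ^ (5 : ℕ) := by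
      rw [← Real.rpow_natCast ((2 : ℝ) ^ (8 / 5 : ℝ)), ← Real.rpow_mul (by norm_num)]
      norm_num
    exact le_of_pow_le_pow_left₀ (by norm_num) (by positivity) h1
  calc (3 : ℝ) ^ n ≤ ((2 : ℝ) ^ (8 / 5 : ℝ)) ^ n := pow_le_pow_left₀ (by norm_num) h n
    _ = _ := by rw [← Real.rpow_natCast, ← Real.rpow_mul (by norm_num)]

/-- the numerical inequality -/
lemma numeric (ℓ : ℕ) (hℓ : 50 ≤ ℓ) (K : ℕ) (hK : K ≤ ℓ ^ 4 * 13 / 250) :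
    (2 : ℝ) ^ ((ℓ : ℝ) ^ 4 / 2) * ((2 ^ K * 3 ^ (ℓ ^ 3 + 4 * K) : ℕ) : ℝ)
      ≤ (((2 ^ ℓ - 1) ^ (ℓ ^ 3) : ℕ) : ℝ) := by
  have hℓ' : (50 : ℝ) ≤ ℓ := by exact_mod_cast hℓ
  have hK' : (K : ℝ) ≤ 13 / 250 * (ℓ : ℝ) ^ 4 := by
    rw [Nat.le_div_iff_mul_le (by norm_num)] at hK
    have : (K : ℝ) * 250 ≤ (ℓ : ℝ) ^ 4 * 13 := by exact_mod_cast hK
    linarith
  have h1 : (2 ^ (ℓ - 1)) ^ (ℓ ^ 3) ≤ (2 ^ ℓ - 1) ^ (ℓ ^ 3) := by
    apply Nat.pow_le_pow_left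
    obtain ⟨m, rfl⟩ : ∃ m, ℓ = m + 1 := ⟨ℓ - 1, by omega⟩
    have : 1 ≤ 2 ^ m := Nat.one_le_two_pow
    rw [pow_succ]
    simp only [Nat.add_sub_cancel]
    omega
  have h2 : (2 : ℝ) ^ (((ℓ : ℝ) - 1) * (ℓ : ℝ) ^ 3) ≤ (((2 ^ ℓ - 1) ^ (ℓ ^ 3) : ℕ) : ℝ) := by
    have e : (2 : ℝ) ^ (((ℓ : ℝ) - 1) * (ℓ : ℝ) ^ 3) = (((2 ^ (ℓ - 1)) ^ (ℓ ^ 3) : ℕ) : ℝ) := by
      have e' : ((ℓ : ℝ) - 1) * (ℓ : ℝ) ^ 3 = (((ℓ - 1) * ℓ ^ 3 : ℕ) : ℝ) := by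
        push_cast [Nat.cast_sub (show 1 ≤ ℓ by omega)]
        rfl
      rw [e', Real.rpow_natCast, pow_mul]
      push_cast
      rfl
    rw [e]
    exact_mod_cast h1
  refine le_trans ?_ h2
  push_cast
  calc (2 : ℝ) ^ ((ℓ : ℝ) ^ 4 / 2) * (2 ^ K * 3 ^ (ℓ ^ 3 + 4 * K))
      ≤ (2 : ℝ) ^ ((ℓ : ℝ) ^ 4 / 2) * ((2 : ℝ) ^ (K : ℝ) * (2 : ℝ) ^ ((8 / 5 : ℝ) * ((ℓ ^ 3 + 4 * K : ℕ) : ℝ))) := by
        rw [Real.rpow_natCast]
        have := three_pow_le (ℓ ^ 3 + 4 * K)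
        gcongr
    _ = (2 : ℝ) ^ ((ℓ : ℝ) ^ 4 / 2 + (K + (8 / 5 : ℝ) * ((ℓ ^ 3 + 4 * K : ℕ) : ℝ))) := by
        rw [Real.rpow_add (by norm_num), Real.rpow_add (by norm_num)]
    _ ≤ (2 : ℝ) ^ (((ℓ : ℝ) - 1) * (ℓ : ℝ) ^ 3) := by
        apply Real.rpow_le_rpow_of_exponent_le (by norm_num)
        push_cast
        have h3 : (ℓ : ℝ) ^ 3 * 50 ≤ (ℓ : ℝ) ^ 4 := by
          have : (0 : ℝ) ≤ (ℓ : ℝ) ^ 3 := by positivity
          nlinarith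
        have h4 : ((ℓ : ℝ) - 1) * (ℓ : ℝ) ^ 3 = (ℓ : ℝ) ^ 4 - (ℓ : ℝ) ^ 3 := by ring
        rw [h4]
        linarith

/-- **Almost all instances are hard.** -/
theorem almost_all (mon : ∀ n : ℕ, ℕ → List (Fin n →₀ ℕ)) (hmon : IsMonomialList mon)
    (M : Machine) (ℓ : ℕ) (hℓ : 50 ≤ ℓ)
    (sound : ∀ q g t, Answers M (tape (encode mon (psys ℓ q))) g t false → ¬ HasZero (psys ℓ q)) :
    (2 : ℝ) ^ ((ℓ : ℝ) ^ 4 / 2) * (Nat.card {τ : Par ℓ → Fin (2 ^ ℓ - 1) // ∃ q ∈ box τ, ∃ g t,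
      Answers M (tape (encode mon (psys ℓ q))) g t false ∧
        5000 * (cost M (tape (encode mon (psys ℓ q))) g t : ℝ)
          ≤ (size mon (psys ℓ q) : ℝ) ^ (4 / 3 : ℝ)} : ℝ) ≤
      (Nat.card (Par ℓ → Fin (2 ^ ℓ - 1)) : ℝ) := by
  classical
  set K := ℓ ^ 4 * 13 / 250 with hK
  have h1 := card_easy_boxes mon M ℓ K (by omega) sound
  have h2 : Nat.card {τ : Par ℓ → Fin (2 ^ ℓ - 1) // ∃ q ∈ box τ, ∃ g t,
      Answers M (tape (encode mon (psys ℓ q))) g t false ∧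
        5000 * (cost M (tape (encode mon (psys ℓ q))) g t : ℝ)
          ≤ (size mon (psys ℓ q) : ℝ) ^ (4 / 3 : ℝ)} ≤
      Nat.card {τ : Par ℓ → Fin (2 ^ ℓ - 1) // ∃ q ∈ box τ, ∃ g t,
      Answers M (tape (encode mon (psys ℓ q))) g t false ∧
        cost M (tape (encode mon (psys ℓ q))) g t ≤ K} := by
    refine Nat.card_le_card_of_injective (fun τ => ⟨τ.1, ?_⟩) ?_
    · obtain ⟨q, hq, g, t, h3, h4⟩ := τ.2
      exact ⟨q, hq, g, t, h3, cost_le_of mon hmon ℓ hℓ _ _ h4⟩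
    · intro τ σ h
      have h' := congrArg Subtype.val h
      exact Subtype.ext h'
  have h3 : Nat.card (Par ℓ → Fin (2 ^ ℓ - 1)) = (2 ^ ℓ - 1) ^ (ℓ ^ 3) := by
    rw [Nat.card_eq_fintype_card, Fintype.card_fun, Fintype.card_fin, Fintype.card_prod,
      Fintype.card_prod, Fintype.card_fin]
    congr 1
    ring
  rw [h3]
  refine le_trans ?_ (numeric ℓ hℓ K le_rfl)
  have h4 := h2.trans h1
  have h5 : (Nat.card {τ : Par ℓ → Fin (2 ^ ℓ - 1) // ∃ q ∈ box τ, ∃ g t,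
      Answers M (tape (encode mon (psys ℓ q))) g t false ∧
        5000 * (cost M (tape (encode mon (psys ℓ q))) g t : ℝ)
          ≤ (size mon (psys ℓ q) : ℝ) ^ (4 / 3 : ℝ)} : ℝ) ≤ ((2 ^ K * 3 ^ (ℓ ^ 3 + 4 * K) : ℕ) : ℝ) := by
    exact_mod_cast h4
  gcongr

/-- there is a hard unsolvable instance with even integral parameters -/
theorem exists_hard (mon : ∀ n : ℕ, ℕ → List (Fin n →₀ ℕ)) (hmon : IsMonomialList mon)
    (M : Machine) (ℓ : ℕ) (hℓ : 50 ≤ ℓ)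
    (sound : ∀ q g t, Answers M (tape (encode mon (psys ℓ q))) g t false → ¬ HasZero (psys ℓ q)) :
    ∃ τ : Par ℓ → Fin (2 ^ ℓ - 1), ∀ q ∈ box τ, ∀ g t,
      Answers M (tape (encode mon (psys ℓ q))) g t false →
        (size mon (psys ℓ q) : ℝ) ^ (4 / 3 : ℝ)
          < 5000 * (cost M (tape (encode mon (psys ℓ q))) g t : ℝ) := by
  classical
  by_contra hcon
  push Not at hcon
  have h := almost_all mon hmon M ℓ hℓ sound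
  have h2 : Nat.card {τ : Par ℓ → Fin (2 ^ ℓ - 1) // ∃ q ∈ box τ, ∃ g t,
      Answers M (tape (encode mon (psys ℓ q))) g t false ∧
        5000 * (cost M (tape (encode mon (psys ℓ q))) g t : ℝ)
          ≤ (size mon (psys ℓ q) : ℝ) ^ (4 / 3 : ℝ)} = Nat.card (Par ℓ → Fin (2 ^ ℓ - 1)) := by
    exact Nat.card_congr (Equiv.subtypeUnivEquiv fun τ => by
      obtain ⟨q, hq, g, t, h1, h2⟩ := hcon τ
      exact ⟨q, hq, g, t, h1, h2⟩)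
  rw [h2] at h
  have hpos : (0 : ℝ) < (Nat.card (Par ℓ → Fin (2 ^ ℓ - 1)) : ℝ) := by
    have : Nonempty (Par ℓ → Fin (2 ^ ℓ - 1)) := by
      have : 2 ≤ 2 ^ ℓ := by
        calc 2 = 2 ^ 1 := rfl
          _ ≤ 2 ^ ℓ := Nat.pow_le_pow_right (by norm_num) (by omega)
      exact ⟨fun _ => ⟨0, by omega⟩⟩
    exact_mod_cast Nat.card_pos
  have h3 : (1 : ℝ) < (2 : ℝ) ^ ((ℓ : ℝ) ^ 4 / 2) := by
    apply Real.one_lt_rpow (by norm_num)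
    have : (0 : ℝ) < ℓ := by exact_mod_cast (show 0 < ℓ by omega)
    positivity
  nlinarith

/-- standard machines do not use the guesses -/
lemma run_standard (M : Machine) (hM : Standard M) (x : ℤ → ℂ) (g g' : ℕ → ℂ) (t : ℕ) :
    run M x g t = run M x g' t := by
  induction t with
  | zero => rfl
  | succ t ih =>
    show step M (g t) (run M x g t) = step M (g' t) (run M x g' t)
    rw [ih]
    have h := hM (run M x g' t).1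
    unfold step
    cases hn : M.prog (run M x g' t).1 with
    | guess d n => rw [hn] at h; exact absurd h (by simp [Node.standard])
    | _ => rfl

/-- a machine gives at most one answer -/
lemma answers_unique (M : Machine) (x : ℤ → ℂ) (g : ℕ → ℂ) {t t' : ℕ} {b b' : Bool}
    (h : Answers M x g t b) (h' : Answers M x g t' b') : b = b' := by
  have key : ∀ {t t' : ℕ} {b b' : Bool}, t ≤ t' → Answers M x g t b → Answers M x g t' b' → b = b' := by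
    intro t t' b b' htt h h'
    unfold Answers at h'
    rw [(answers_mono M x g htt h).1] at h'
    unfold Answers at h
    rw [h] at h'
    exact Node.output.inj h'
  rcases le_total t t' with h0 | h0
  · exact key h0 h h'
  · exact (key h0 h' h).symm

open Classical in
/-- `M` decides `HN/ℂ` -/
def DecidesHN (mon : ∀ n : ℕ, ℕ → List (Fin n →₀ ℕ)) (M : Machine) : Prop :=
  ∀ (n k : ℕ) (f : Fin k → MvPolynomial (Fin n) ℂ),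
    ∃ t, Answers M (tape (encode mon f)) 0 t (decide (HasZero f))

end Pool.Agent.L0h79.BSS
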