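import Pool.Agent.L0h79.BSS.PCount

/-!
# The run of a machine on a generic input
-/

open MvPolynomial Finset

namespace Pool.Agent.L0h79.BSS

variable {J : Type*}

/-- generic states: the tape consists of the fractions `num i / den i`; they describe the state for
all coefficient vectors at which `P` does not vanish -/
structure GState (V : Type) (J : Type*) where
  P : MvPolynomial J ℂ
  node : V
  num : ℤ → MvPolynomial J ℂ
  den : ℤ → MvPolynomial J ℂ

open Classical in
/-- a step for generic inputs -/
noncomputable def gstep (M : Machine) (z : ℂ) (s : GState M.V J) : GState M.V J :=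
  match M.prog s.node with
  | .const e d n => ⟨s.P, n, Function.update s.num d (C e), Function.update s.den d 1⟩
  | .scale e a d n => ⟨s.P, n, Function.update s.num d (C e * s.num a),
      Function.update s.den d (s.den a)⟩
  | .conj _ _ n => ⟨s.P, n, s.num, s.den⟩
  | .add a b d n => ⟨s.P, n, Function.update s.num d (s.num a * s.den b + s.num b * s.den a),
      Function.update s.den d (s.den a * s.den b)⟩
  | .sub a b d n => ⟨s.P, n, Function.update s.num d (s.num a * s.den b - s.num b * s.den a),
      Function.update s.den d (s.den a * s.den b)⟩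
  | .mul a b d n => ⟨s.P, n, Function.update s.num d (s.num a * s.num b),
      Function.update s.den d (s.den a * s.den b)⟩
  | .div a b d n => if s.num b = 0 then ⟨s.P, n, Function.update s.num d 0,
      Function.update s.den d 1⟩ else
      ⟨s.P * s.num b, n, Function.update s.num d (s.num a * s.den b),
        Function.update s.den d (s.den a * s.num b)⟩
  | .shift r n => ⟨s.P, n, fun i => s.num (if r then i - 1 else i + 1),
      fun i => s.den (if r then i - 1 else i + 1)⟩
  | .guess d n => ⟨s.P, n, Function.update s.num d (C z), Function.update s.den d 1⟩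
  | .isZero a y n => if s.num a = 0 then ⟨s.P, y, s.num, s.den⟩ else
      ⟨s.P * s.num a, n, s.num, s.den⟩
  | .isNonneg _ _ n => ⟨s.P, n, s.num, s.den⟩
  | .output _ => s

/-- the generic state describes a state at `c` -/
def Repr {V : Type} (s : GState V J) (c : J → ℂ) (conf : V × (ℤ → ℂ)) : Prop :=
  conf.1 = s.node ∧ ∀ i, eval c (s.den i) ≠ 0 ∧ conf.2 i = eval c (s.num i) / eval c (s.den i)

lemma gstep_P_ne (M : Machine) (z : ℂ) (s : GState M.V J) (h : s.P ≠ 0) : (gstep M z s).P ≠ 0 := by
  unfold gstep
  cases hn : M.prog s.node with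
  | div a b d n =>
    simp only
    split_ifs with h0
    · exact h
    · exact mul_ne_zero h h0
  | isZero a y n =>
    simp only
    split_ifs with h0
    · exact h
    · exact mul_ne_zero h h0
  | _ => exact h

lemma eval_gstep_P (M : Machine) (z : ℂ) (s : GState M.V J) (c : J → ℂ)
    (h : eval c (gstep M z s).P ≠ 0) : eval c s.P ≠ 0 := by
  unfold gstep at h
  cases hn : M.prog s.node with
  | div a b d n =>
    simp only [hn] at h
    split_ifs at h with h0
    · exact h
    · rw [map_mul] at h
      exact left_ne_zero_of_mul h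
  | isZero a y n =>
    simp only [hn] at h
    split_ifs at h with h0
    · exact h
    · rw [map_mul] at h
      exact left_ne_zero_of_mul h
  | _ => simp only [hn] at h; exact h

lemma repr_update {V : Type} {s : GState V J} {c : J → ℂ} {conf : V × (ℤ → ℂ)}
    (h : Repr s c conf) (P : MvPolynomial J ℂ) (n : V) (d : ℤ) (N D : MvPolynomial J ℂ) (w : ℂ)
    (hD : eval c D ≠ 0) (hw : w = eval c N / eval c D) :
    Repr ⟨P, n, Function.update s.num d N, Function.update s.den d D⟩ c
      (n, Function.update conf.2 d w) := by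
  refine ⟨rfl, fun i => ?_⟩
  rcases eq_or_ne i d with rfl | hid
  · simp only [Function.update_self]
    exact ⟨hD, hw⟩
  · simp only [Function.update_of_ne hid]
    exact h.2 i

lemma gstep_repr (M : Machine) (z : ℂ) (s : GState M.V J) (c : J → ℂ) (conf : M.V × (ℤ → ℂ))
    (hM : (M.prog s.node).standardOrGuess) (h : Repr s c conf)
    (hP : eval c (gstep M z s).P ≠ 0) : Repr (gstep M z s) c (step M z conf) := by
  have hnode := h.1
  unfold gstep at hP ⊢
  unfold step
  rw [hnode]
  cases hn : M.prog s.node with
  | const e d n =>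
    exact repr_update h _ _ _ _ _ _ (by simp) (by simp)
  | scale e a d n =>
    refine repr_update h _ _ _ _ _ _ (h.2 a).1 ?_
    rw [(h.2 a).2, map_mul, eval_C, mul_div_assoc]
  | conj a d n => rw [hn] at hM; exact absurd hM (by simp [Node.standardOrGuess])
  | add a b d n =>
    have ha := h.2 a
    have hb := h.2 b
    refine repr_update h _ _ _ _ _ _ (by rw [map_mul]; exact mul_ne_zero ha.1 hb.1) ?_
    rw [ha.2, hb.2, map_add, map_mul, map_mul, map_mul]
    have := ha.1
    have := hb.1
    field_simp
  | sub a b d n =>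
    have ha := h.2 a
    have hb := h.2 b
    refine repr_update h _ _ _ _ _ _ (by rw [map_mul]; exact mul_ne_zero ha.1 hb.1) ?_
    rw [ha.2, hb.2, map_sub, map_mul, map_mul, map_mul]
    have := ha.1
    have := hb.1
    field_simp
  | mul a b d n =>
    have ha := h.2 a
    have hb := h.2 b
    refine repr_update h _ _ _ _ _ _ (by rw [map_mul]; exact mul_ne_zero ha.1 hb.1) ?_
    rw [ha.2, hb.2, map_mul, map_mul]
    have := ha.1
    have := hb.1
    field_simp
  | div a b d n =>
    have ha := h.2 a
    have hb := h.2 b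
    simp only [hn] at hP ⊢
    split_ifs at hP ⊢ with h0
    · refine repr_update h _ _ _ _ _ _ (by simp) ?_
      rw [hb.2, h0]
      simp
    · rw [map_mul] at hP
      have hb' := right_ne_zero_of_mul hP
      refine repr_update h _ _ _ _ _ _ (by rw [map_mul]; exact mul_ne_zero ha.1 hb') ?_
      rw [ha.2, hb.2, map_mul, map_mul]
      have := ha.1
      have := hb.1
      field_simp
  | shift r n => exact ⟨rfl, fun i => h.2 _⟩
  | guess d n => exact repr_update h _ _ _ _ _ _ (by simp) (by simp)
  | isZero a y n =>
    have ha := h.2 a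
    simp only [hn] at hP ⊢
    split_ifs at hP ⊢ with h0 h1 h1
    · exact ⟨rfl, h.2⟩
    · exact absurd (by rw [ha.2, h0]; simp) h1
    · rw [map_mul] at hP
      have ha' := right_ne_zero_of_mul hP
      rw [ha.2] at h1
      exact absurd h1 (div_ne_zero ha' ha.1)
    · exact ⟨rfl, h.2⟩
  | isNonneg a y n => rw [hn] at hM; exact absurd hM (by simp [Node.standardOrGuess])
  | output b => exact h

/-- the generic run with the guesses `g`, from the input tape with the polynomials `X₀` -/
noncomputable def gseq (M : Machine) (g : ℕ → ℂ) (X₀ : ℤ → MvPolynomial J ℂ) : ℕ → GState M.V J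
  | 0 => ⟨1, M.start, X₀, fun _ => 1⟩
  | t + 1 => gstep M (g t) (gseq M g X₀ t)

lemma gseq_P_ne (M : Machine) (g : ℕ → ℂ) (X₀ : ℤ → MvPolynomial J ℂ) (t : ℕ) :
    (gseq M g X₀ t).P ≠ 0 := by
  induction t with
  | zero => exact one_ne_zero
  | succ t ih => exact gstep_P_ne M _ _ ih

lemma gseq_repr (M : Machine) (hM : ∀ v, (M.prog v).standardOrGuess) (g : ℕ → ℂ)
    (X₀ : ℤ → MvPolynomial J ℂ) (c : J → ℂ) (t : ℕ) (h : eval c (gseq M g X₀ t).P ≠ 0) :
    Repr (gseq M g X₀ t) c (run M (fun i => eval c (X₀ i)) g t) := by
  induction t with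
  | zero => exact ⟨rfl, fun i => by simp [gseq, run]⟩
  | succ t ih =>
    exact gstep_repr M (g t) _ c _ (hM _) (ih (eval_gstep_P M _ _ c h)) h

/-! ### The machine which follows the generic path -/

open Classical in
/-- the nodes of the path machine: `none` rejects the path, `some (2 * T)` is its end -/
noncomputable def pathNode (M : Machine) (g : ℕ → ℂ) (X₀ : ℤ → MvPolynomial J ℂ) (T : ℕ)
    (s : Fin (2 * T + 1)) : Node (Option (Fin (2 * T + 1))) :=
  if h : (s : ℕ) = 2 * T then .output false else
    if (s : ℕ) % 2 = 0 then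
      match M.prog (gseq M g X₀ ((s : ℕ) / 2)).node with
      | .div _ b _ _ => if (gseq M g X₀ ((s : ℕ) / 2)).num b = 0 then
          .scale 1 0 0 (some ⟨s + 1, by omega⟩) else .isZero b none (some ⟨s + 1, by omega⟩)
      | _ => .scale 1 0 0 (some ⟨s + 1, by omega⟩)
    else
      match M.prog (gseq M g X₀ ((s : ℕ) / 2)).node with
      | .const e d _ => .const e d (some ⟨s + 1, by omega⟩)
      | .scale e a d _ => .scale e a d (some ⟨s + 1, by omega⟩)
      | .conj _ _ _ => .scale 1 0 0 (some ⟨s + 1, by omega⟩)
      | .add a b d _ => .add a b d (some ⟨s + 1, by omega⟩)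
      | .sub a b d _ => .sub a b d (some ⟨s + 1, by omega⟩)
      | .mul a b d _ => .mul a b d (some ⟨s + 1, by omega⟩)
      | .div a b d _ => .div a b d (some ⟨s + 1, by omega⟩)
      | .shift r _ => .shift r (some ⟨s + 1, by omega⟩)
      | .guess d _ => .const (g ((s : ℕ) / 2)) d (some ⟨s + 1, by omega⟩)
      | .isZero a _ _ => if (gseq M g X₀ ((s : ℕ) / 2)).num a = 0 then
          .scale 1 0 0 (some ⟨s + 1, by omega⟩) else .isZero a none (some ⟨s + 1, by omega⟩)
      | .isNonneg _ _ _ => .scale 1 0 0 (some ⟨s + 1, by omega⟩)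
      | .output _ => .scale 1 0 0 (some ⟨s + 1, by omega⟩)

/-- the path machine -/
noncomputable abbrev pathMachine (M : Machine) (g : ℕ → ℂ) (X₀ : ℤ → MvPolynomial J ℂ) (T : ℕ) :
    Machine where
  V := Option (Fin (2 * T + 1))
  finite_V := inferInstance
  start := some ⟨0, by omega⟩
  prog := fun v => match v with
    | none => .output true
    | some s => pathNode M g X₀ T s

lemma standard_pathMachine (M : Machine) (g : ℕ → ℂ) (X₀ : ℤ → MvPolynomial J ℂ) (T : ℕ) :
    Standard (pathMachine M g X₀ T) := by
  intro v
  cases v with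
  | none => trivial
  | some s =>
    show (pathNode M g X₀ T s).standard
    unfold pathNode
    split_ifs
    · trivial
    · cases M.prog (gseq M g X₀ ((s : ℕ) / 2)).node with
      | div a b d n => simp only; split_ifs <;> trivial
      | _ => trivial
    · cases M.prog (gseq M g X₀ ((s : ℕ) / 2)).node with
      | isZero a y n => simp only; split_ifs <;> trivial
      | _ => trivial

lemma update_self_eq (x : ℤ → ℂ) (d : ℤ) : Function.update x d (1 * x d) = x := by
  rw [one_mul, Function.update_eq_self]

open Classical in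
/-- the test made before a step -/
def okEven (M : Machine) (s : GState M.V J) (x : ℤ → ℂ) : Prop :=
  match M.prog s.node with
  | .div _ b _ _ => s.num b = 0 ∨ x b ≠ 0
  | _ => True

open Classical in
/-- the test made in a step -/
def okOdd (M : Machine) (s : GState M.V J) (x : ℤ → ℂ) : Prop :=
  match M.prog s.node with
  | .isZero a _ _ => s.num a = 0 ∨ x a ≠ 0
  | _ => True

lemma ok_iff (M : Machine) (z : ℂ) (s : GState M.V J) (c : J → ℂ) (x : ℤ → ℂ)
    (hr : Repr s c (s.node, x)) (hP : eval c s.P ≠ 0) :
    eval c (gstep M z s).P ≠ 0 ↔ okEven M s x ∧ okOdd M s x := by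
  unfold gstep okEven okOdd
  cases hn : M.prog s.node with
  | div a b d n =>
    simp only
    have hb := hr.2 b
    simp only at hb
    by_cases h0 : s.num b = 0
    · simp [h0, hP]
    · simp only [h0, if_false, map_mul, false_or, and_true]
      rw [hb.2]
      constructor
      · intro h
        exact div_ne_zero (right_ne_zero_of_mul h) hb.1
      · intro h h'
        rcases mul_eq_zero.1 h' with h' | h'
        · exact hP h'
        · exact h (by rw [h', zero_div])
  | isZero a y n =>
    simp only
    have hb := hr.2 a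
    simp only at hb
    by_cases h0 : s.num a = 0
    · simp [h0, hP]
    · simp only [h0, if_false, map_mul, false_or, true_and]
      rw [hb.2]
      constructor
      · intro h
        exact div_ne_zero (right_ne_zero_of_mul h) hb.1
      · intro h h'
        rcases mul_eq_zero.1 h' with h' | h'
        · exact hP h'
        · exact h (by rw [h', zero_div])
  | _ => simp [hP]

open Classical in
lemma path_even (M : Machine) (g : ℕ → ℂ) (X₀ : ℤ → MvPolynomial J ℂ) (T t : ℕ) (ht : t < T)
    (x : ℤ → ℂ) (z : ℂ) :
    step (pathMachine M g X₀ T) z ((some ⟨2 * t, by omega⟩ : Option (Fin (2 * T + 1))), x) =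
      ((if okEven M (gseq M g X₀ t) x then some ⟨2 * t + 1, by omega⟩ else none :
        Option (Fin (2 * T + 1))), x) := by
  have e : 2 * t / 2 = t := by omega
  have h1 : (pathMachine M g X₀ T).prog (some ⟨2 * t, by omega⟩ : Option (Fin (2 * T + 1))) =
      pathNode M g X₀ T ⟨2 * t, by omega⟩ := rfl
  unfold step okEven
  rw [h1]
  unfold pathNode
  rw [dif_neg (by simp only; omega), if_pos (by simp)]
  simp only [e]
  cases hn : M.prog (gseq M g X₀ t).node with
  | div a b d n =>
    simp only
    by_cases h0 : (gseq M g X₀ t).num b = 0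
    · simp [h0]
    · by_cases h2 : x b = 0
      · simp [h0, h2]
      · simp [h0, h2]
  | _ => simp

open Classical in
lemma path_odd (M : Machine) (hM : ∀ v, (M.prog v).standardOrGuess) (g : ℕ → ℂ)
    (X₀ : ℤ → MvPolynomial J ℂ) (T t : ℕ) (ht : t < T) (x : ℤ → ℂ) (z : ℂ) :
    step (pathMachine M g X₀ T) z ((some ⟨2 * t + 1, by omega⟩ : Option (Fin (2 * T + 1))), x) =
      ((if okOdd M (gseq M g X₀ t) x then some ⟨2 * (t + 1), by omega⟩ else none :
        Option (Fin (2 * T + 1))), (step M (g t) ((gseq M g X₀ t).node, x)).2) := by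
  have e : (2 * t + 1) / 2 = t := by omega
  have h1 : (pathMachine M g X₀ T).prog (some ⟨2 * t + 1, by omega⟩ : Option (Fin (2 * T + 1))) =
      pathNode M g X₀ T ⟨2 * t + 1, by omega⟩ := rfl
  unfold step okOdd
  rw [h1]
  unfold pathNode
  rw [dif_neg (by simp only; omega), if_neg (by simp only; omega)]
  simp only [e]
  have hMn := hM (gseq M g X₀ t).node
  cases hn : M.prog (gseq M g X₀ t).node with
  | conj a d n => rw [hn] at hMn; exact absurd hMn (by simp [Node.standardOrGuess])
  | isNonneg a y n => rw [hn] at hMn; exact absurd hMn (by simp [Node.standardOrGuess])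
  | isZero a y n =>
    simp only
    by_cases h0 : (gseq M g X₀ t).num a = 0
    · simp [h0, Nat.mul_add]
    · by_cases h2 : x a = 0
      · simp [h0, h2]
      · simp [h0, h2, Nat.mul_add]
  | _ => simp [Nat.mul_add]

/-- the state of the path machine after `2 t` steps -/
theorem run_path (M : Machine) (hM : ∀ v, (M.prog v).standardOrGuess) (g : ℕ → ℂ)
    (X₀ : ℤ → MvPolynomial J ℂ) (T : ℕ) (c : J → ℂ) (g' : ℕ → ℂ) (t : ℕ) (ht : t ≤ T) :
    (eval c (gseq M g X₀ t).P ≠ 0 →
      run (pathMachine M g X₀ T) (fun i => eval c (X₀ i)) g' (2 * t) =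
        ((some ⟨2 * t, by omega⟩ : Option (Fin (2 * T + 1))),
          (run M (fun i => eval c (X₀ i)) g t).2)) ∧
    ((run (pathMachine M g X₀ T) (fun i => eval c (X₀ i)) g' (2 * t)).1 ≠
      (none : Option (Fin (2 * T + 1))) → eval c (gseq M g X₀ t).P ≠ 0) := by
  classical
  induction t with
  | zero =>
    refine ⟨fun _ => rfl, fun _ => ?_⟩
    show eval c (1 : MvPolynomial J ℂ) ≠ 0
    simp
  | succ t ih =>
    obtain ⟨ih1, ih2⟩ := ih (by omega)
    have e : run (pathMachine M g X₀ T) (fun i => eval c (X₀ i)) g' (2 * (t + 1)) =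
        step (pathMachine M g X₀ T) (g' (2 * t + 1)) (step (pathMachine M g X₀ T) (g' (2 * t))
          (run (pathMachine M g X₀ T) (fun i => eval c (X₀ i)) g' (2 * t))) := rfl
    have main : eval c (gseq M g X₀ t).P ≠ 0 →
        run (pathMachine M g X₀ T) (fun i => eval c (X₀ i)) g' (2 * (t + 1)) =
        ((if eval c (gseq M g X₀ (t + 1)).P ≠ 0 then some ⟨2 * (t + 1), by omega⟩ else none :
          Option (Fin (2 * T + 1))), (run M (fun i => eval c (X₀ i)) g (t + 1)).2) ∨
        (¬ eval c (gseq M g X₀ (t + 1)).P ≠ 0 ∧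
          (run (pathMachine M g X₀ T) (fun i => eval c (X₀ i)) g' (2 * (t + 1))).1 =
            (none : Option (Fin (2 * T + 1)))) := by
      intro hP
      have hrep := gseq_repr M hM g X₀ c t hP
      set x := (run M (fun i => eval c (X₀ i)) g t).2 with hx
      have hconf : run M (fun i => eval c (X₀ i)) g t = ((gseq M g X₀ t).node, x) :=
        Prod.ext hrep.1 rfl
      rw [hconf] at hrep
      have hok := ok_iff M (g t) (gseq M g X₀ t) c x hrep hP
      have hsucc : (gseq M g X₀ (t + 1)) = gstep M (g t) (gseq M g X₀ t) := rfl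
      rw [hsucc, e, ih1 hP, path_even M g X₀ T t (by omega)]
      by_cases h1 : okEven M (gseq M g X₀ t) x
      · rw [if_pos h1, path_odd M hM g X₀ T t (by omega)]
        left
        have e2 : run M (fun i => eval c (X₀ i)) g (t + 1) = step M (g t) ((gseq M g X₀ t).node, x) := by
          rw [← hconf]; rfl
        rw [e2]
        by_cases h2 : okOdd M (gseq M g X₀ t) x
        · rw [if_pos h2, if_pos (hok.2 ⟨h1, h2⟩)]
        · rw [if_neg h2, if_neg (fun h => h2 (hok.1 h).2)]
      · rw [if_neg h1]
        right
        exact ⟨fun h => h1 (hok.1 h).1, rfl⟩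
    constructor
    · intro hP
      rcases main (eval_gstep_P M _ _ c hP) with h | h
      · rw [h, if_pos hP]
      · exact absurd hP h.1
    · intro hne
      have h1 : eval c (gseq M g X₀ t).P ≠ 0 := by
        apply ih2
        intro h0
        apply hne
        rw [e]
        have h2 : ∀ (z : ℂ) (x : ℤ → ℂ), step (pathMachine M g X₀ T) z
            ((none : Option (Fin (2 * T + 1))), x) = ((none : Option (Fin (2 * T + 1))), x) :=
          fun z x => rfl
        have h3 : run (pathMachine M g X₀ T) (fun i => eval c (X₀ i)) g' (2 * t) =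
          ((none : Option (Fin (2 * T + 1))),
            (run (pathMachine M g X₀ T) (fun i => eval c (X₀ i)) g' (2 * t)).2) := Prod.ext h0 rfl
        rw [h3, h2, h2]
      by_contra hcon
      rcases main h1 with h | h
      · rw [h, if_neg (fun h' => h' hcon)] at hne
        exact hne rfl
      · exact hne h.2

/-- the path machine answers `false` exactly at the points where the polynomial of the path does
not vanish -/
theorem path_answers (M : Machine) (hM : ∀ v, (M.prog v).standardOrGuess) (g : ℕ → ℂ)
    (X₀ : ℤ → MvPolynomial J ℂ) (T : ℕ) (c : J → ℂ) (g' : ℕ → ℂ) :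
    (eval c (gseq M g X₀ T).P ≠ 0 →
      Answers (pathMachine M g X₀ T) (fun i => eval c (X₀ i)) g' (2 * T) false) ∧
    (∀ t, Answers (pathMachine M g X₀ T) (fun i => eval c (X₀ i)) g' t false →
      eval c (gseq M g X₀ T).P ≠ 0) := by
  obtain ⟨h1, h2⟩ := run_path M hM g X₀ T c g' T le_rfl
  constructor
  · intro hP
    unfold Answers
    rw [h1 hP]
    show pathNode M g X₀ T ⟨2 * T, _⟩ = _
    unfold pathNode
    rw [dif_pos rfl]
  · intro t ht
    apply h2
    intro hnone
    have h3 : Answers (pathMachine M g X₀ T) (fun i => eval c (X₀ i)) g' (2 * T) true := by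
      unfold Answers
      rw [hnone]
    have := answers_unique _ _ _ ht h3
    exact absurd this (by decide)

end Pool.Agent.L0h79.BSS
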