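import Pool.Agent.L0h79.BSS.Dim

/-!
# Generic systems are hard
-/

open MvPolynomial Finset

namespace Pool.Agent.L0h79.BSS

/-- the perturbed system in terms of its coefficients -/
lemma tsys_eq_quad (ℓ : ℕ) (hℓ : 0 < ℓ) (c : Fin (5 * ℓ + 1) × Mon (5 * ℓ) → ℝ) (q : Par ℓ → ℝ) :
    tsys ℓ c q = quad fun j => coeff j.2.1 (psys ℓ q j.1) + (c j : ℂ) := by
  funext e
  ext m
  rw [coeff_quad]
  unfold tsys
  rw [coeff_add, coeff_quad]
  split_ifs with h
  · rfl
  · rw [add_zero]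
    apply coeff_eq_zero_of_totalDegree_lt
    have h1 : (psys ℓ q e).totalDegree = 2 := totalDegree_sys ℓ hℓ _ e
    rw [h1]
    rw [mem_expo] at h
    push Not at h
    exact h

/-- the number of the coefficients of a system of `5 ℓ + 1` quadratic polynomials in `5 ℓ` variables -/
def sz (ℓ : ℕ) : ℕ := (5 * ℓ + 1) * (5 * ℓ + 2).choose 2

/-- there is no machine which is sound, and which certifies cheaply that generic systems are
unsolvable -/
theorem no_generic_certificate (mon : ∀ n : ℕ, ℕ → List (Fin n →₀ ℕ)) (hmon : IsMonomialList mon)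
    (ℓ : ℕ) (hℓ : 50 ≤ ℓ) (M : Machine)
    (Q : MvPolynomial (Fin (5 * ℓ + 1) × Mon (5 * ℓ)) ℂ) (hQ : Q ≠ 0)
    (sound : ∀ c : Fin (5 * ℓ + 1) × Mon (5 * ℓ) → ℂ, (∀ e, (quad c e).totalDegree = 2) →
      ∀ g t, Answers M (tape (encode mon (quad c))) g t false → ¬ HasZero (quad c))
    (easy : ∀ c : Fin (5 * ℓ + 1) × Mon (5 * ℓ) → ℂ, (∀ e, (quad c e).totalDegree = 2) →
      eval c Q ≠ 0 → ∃ g t, Answers M (tape (encode mon (quad c))) g t false ∧
        5000 * (cost M (tape (encode mon (quad c))) g t : ℝ) ≤ (sz ℓ : ℝ) ^ (4 / 3 : ℝ)) : False := by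
  classical
  have hℓ0 : 0 < ℓ := by omega
  obtain ⟨r, hr, hr1, hall⟩ := almost_all_perturbed mon hmon ℓ hℓ
  obtain ⟨c, hc, hcQ⟩ := real_avoid_translates Q hQ
    (fun (τ : Par ℓ → Fin (2 ^ ℓ - 1)) (j : Fin (5 * ℓ + 1) × Mon (5 * ℓ)) =>
      coeff j.2.1 (psys ℓ (centre τ) j.1)) r hr
  have hdeg : ∀ q e, (tsys ℓ c q e).totalDegree = 2 :=
    totalDegree_tsys ℓ hℓ0 c fun j => (hc j).trans_lt hr1
  have h1 := hall M c hc fun q g t h => by
    rw [tsys_eq_quad ℓ hℓ0] at h ⊢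
    exact sound _ (fun e => by rw [← tsys_eq_quad ℓ hℓ0]; exact hdeg q e) g t h
  have h2 : Nat.card {τ : Par ℓ → Fin (2 ^ ℓ - 1) // ∃ q ∈ core τ, ∃ g t,
      Answers M (tape (encode mon (tsys ℓ c q))) g t false ∧
        5000 * (cost M (tape (encode mon (tsys ℓ c q))) g t : ℝ)
          ≤ (size mon (tsys ℓ c q) : ℝ) ^ (4 / 3 : ℝ)} = Nat.card (Par ℓ → Fin (2 ^ ℓ - 1)) := by
    refine Nat.card_congr (Equiv.subtypeUnivEquiv fun τ => ?_)
    have hd : ∀ e, (quad (fun j : Fin (5 * ℓ + 1) × Mon (5 * ℓ) =>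
        coeff j.2.1 (psys ℓ (centre τ) j.1) + (c j : ℂ)) e).totalDegree = 2 := by
      intro e
      rw [← tsys_eq_quad ℓ hℓ0]
      exact hdeg _ e
    obtain ⟨g, t, h3, h4⟩ := easy _ hd (hcQ τ)
    refine ⟨centre τ, fun a => by simp [centre], g, t, ?_, ?_⟩
    · rw [tsys_eq_quad ℓ hℓ0]
      exact h3
    · have hsz : size mon (tsys ℓ c (centre τ)) = sz ℓ :=
        size_of_degree_two mon hmon (by omega) _ (hdeg _)
      rw [hsz, tsys_eq_quad ℓ hℓ0]
      exact h4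
  rw [h2] at h1
  have hpos : (0 : ℝ) < (Nat.card (Par ℓ → Fin (2 ^ ℓ - 1)) : ℝ) := by
    have : Nonempty (Par ℓ → Fin (2 ^ ℓ - 1)) := by
      have : 2 ≤ 2 ^ ℓ := by
        calc 2 = 2 ^ 1 := rfl
          _ ≤ 2 ^ ℓ := Nat.pow_le_pow_right (by norm_num) (by omega)
      exact ⟨fun _ => ⟨0, by omega⟩⟩
    exact_mod_cast Nat.card_pos
  have h3 : (1 : ℝ) < (2 : ℝ) ^ ((ℓ : ℝ) ^ 4 / 2) := by
    apply Real.one_lt_rpow (by norm_num)
    have : (0 : ℝ) < ℓ := by exact_mod_cast hℓ0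
    positivity
  nlinarith

/-- **Generic systems are hard for deterministic machines.** -/
theorem generic_hard (mon : ∀ n : ℕ, ℕ → List (Fin n →₀ ℕ)) (hmon : IsMonomialList mon)
    (ℓ : ℕ) (hℓ : 50 ≤ ℓ) (M : Machine) (hM : Standard M)
    (hD : ∀ (c : Fin (5 * ℓ + 1) × Mon (5 * ℓ) → ℂ) (t : ℕ) (b : Bool),
      Answers M (tape (encode mon (quad c))) 0 t b → (HasZero (quad c) ↔ b = true)) :
    ∃ Q : MvPolynomial (Fin (5 * ℓ + 1) × Mon (5 * ℓ)) ℂ, Q ≠ 0 ∧ ∀ c, eval c Q ≠ 0 →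
      (∀ e, (quad c e).totalDegree = 2) ∧ ¬ HasZero (quad c) ∧
      ∀ t b, Answers M (tape (encode mon (quad c))) 0 t b →
        (sz ℓ : ℝ) ^ (4 / 3 : ℝ) < 5000 * t := by
  classical
  have hMs : ∀ v, (M.prog v).standardOrGuess := by
    intro v
    have := hM v
    cases h : M.prog v <;> rw [h] at this <;> trivial
  set T : ℕ := ⌊(sz ℓ : ℝ) ^ (4 / 3 : ℝ) / 5000⌋₊ with hT
  have hT' : 5000 * (T : ℝ) ≤ (sz ℓ : ℝ) ^ (4 / 3 : ℝ) := by
    have := Nat.floor_le (show 0 ≤ (sz ℓ : ℝ) ^ (4 / 3 : ℝ) / 5000 by positivity)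
    rw [← hT] at this
    linarith
  set X₀ := ftape mon (5 * ℓ) (5 * ℓ + 1) with hX₀
  set s := gseq M 0 X₀ T with hs
  obtain ⟨D, hD0, hDd, -⟩ := exists_degree_poly (5 * ℓ) (5 * ℓ + 1) (by omega)
  obtain ⟨R, hR0, hR⟩ := exists_resultant (5 * ℓ)
  have hrun : ∀ c : Fin (5 * ℓ + 1) × Mon (5 * ℓ) → ℂ, (∀ e, (quad c e).totalDegree = 2) →
      eval c s.P ≠ 0 → (run M (tape (encode mon (quad c))) 0 T).1 = s.node := by
    intro c hc hP
    rw [tape_quad mon c hc]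
    exact (gseq_repr M hMs 0 X₀ c T hP).1
  refine ⟨s.P * D * R, mul_ne_zero (mul_ne_zero (gseq_P_ne M 0 X₀ T) hD0) hR0, fun c hc => ?_⟩
  rw [map_mul, map_mul] at hc
  have hcR := right_ne_zero_of_mul hc
  have hcD := right_ne_zero_of_mul (left_ne_zero_of_mul hc)
  have hcP := left_ne_zero_of_mul (left_ne_zero_of_mul hc)
  have hdeg := hDd c hcD
  have hun : ¬ HasZero (quad c) := fun h => hcR (hR c h)
  refine ⟨hdeg, hun, fun t b hans => ?_⟩
  by_contra hcon
  push Not at hcon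
  -- the machine has halted at time `T`, on all generic inputs
  have htT : t ≤ T := by
    rw [hT]
    apply Nat.le_floor
    linarith
  have hb : b = false := by
    have := hD c t b hans
    cases b
    · rfl
    · exact absurd (this.2 rfl) hun
  subst hb
  have hnode : M.prog s.node = .output false := by
    rw [← hrun c hdeg hcP]
    unfold Answers at hans
    rw [(answers_mono M _ _ htT hans).1]
    exact hans
  refine no_generic_certificate mon hmon ℓ hℓ M s.P (gseq_P_ne M 0 X₀ T) ?_ ?_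
  · intro c' hc' g t' h'
    have h1 : Answers M (tape (encode mon (quad c'))) 0 t' false := by
      unfold Answers at h' ⊢
      rwa [run_standard M hM _ 0 g]
    rw [hD c' t' false h1]
    simp
  · intro c' hc' hP'
    refine ⟨0, T, ?_, ?_⟩
    · unfold Answers
      rw [hrun c' hc' hP', hnode]
    · have h1 := cost_le M (tape (encode mon (quad c'))) 0 T
      have h2 : (cost M (tape (encode mon (quad c'))) 0 T : ℝ) ≤ T := by exact_mod_cast h1
      linarith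

end Pool.Agent.L0h79.BSS
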