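import Pool.Agent.L0h79.BSS.Wall

/-!
# Perturbed cells, and the number of cells with a cheap answer
-/

open MvPolynomial Finset Metric

namespace Pool.Agent.L0h79.BSS

/-- a positive lower bound of finitely many positive numbers -/
lemma exists_pos_le {ι : Type*} [Fintype ι] (r : ι → ℝ) (hr : ∀ i, 0 < r i) :
    ∃ r₀ > 0, ∀ i, r₀ ≤ r i := by
  have h0 : 0 ≤ ∑ i, (r i)⁻¹ := Finset.sum_nonneg fun i _ => (inv_pos.2 (hr i)).le
  refine ⟨(1 + ∑ i, (r i)⁻¹)⁻¹, by positivity, fun i => ?_⟩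
  have h1 : (r i)⁻¹ ≤ ∑ i, (r i)⁻¹ :=
    Finset.single_le_sum (f := fun i => (r i)⁻¹) (fun i _ => (inv_pos.2 (hr i)).le) (Finset.mem_univ i)
  calc (1 + ∑ i, (r i)⁻¹)⁻¹ ≤ ((r i)⁻¹)⁻¹ := inv_anti₀ (inv_pos.2 (hr i)) (by linarith)
    _ = r i := inv_inv _

/-- the closed cube of side `1` around the centre of a box -/
def core {ℓ : ℕ} (τ : Par ℓ → Fin (2 ^ ℓ - 1)) : Set (Par ℓ → ℝ) :=
  {q | ∀ a, |q a - (2 * ((τ a : ℕ) : ℝ) + 2)| ≤ 1 / 2}

theorem exists_cells (ℓ : ℕ) : ∃ r > 0, r < 1 ∧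
    ∀ c : Fin (5 * ℓ + 1) × Mon (5 * ℓ) → ℝ, (∀ j, |c j| ≤ r) →
      ∃ U : (Par ℓ → Fin (2 ^ ℓ - 1)) → Set (Par ℓ → ℝ), (∀ τ, IsOpen (U τ)) ∧
        (∀ τ, core τ ⊆ U τ) ∧ (∀ τ σ, τ ≠ σ → Disjoint (U τ) (U σ)) ∧
        ∀ τ, frontier (U τ) ⊆ {q | HasZero (tsys ℓ c q)} := by
  set R : ℝ := 2 ^ (ℓ + 1) + 1 with hR
  have hR0 : 0 ≤ R := by positivity
  choose r hr hΛ using fun aX : Par ℓ × Fin (2 ^ ℓ) => exists_wall ℓ R hR0 aX.1 aX.2
  obtain ⟨r₀, hr₀, hle⟩ := exists_pos_le r hr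
  refine ⟨min r₀ (1 / 2), lt_min hr₀ (by norm_num), (min_le_right _ _).trans_lt (by norm_num),
    fun c hc => ?_⟩
  choose Λ hcont hΛq using fun aX => hΛ aX c fun j => (hc j).trans ((min_le_left _ _).trans (hle aX))
  let lo : (Par ℓ → Fin (2 ^ ℓ - 1)) → Par ℓ → Fin (2 ^ ℓ) := fun τ a =>
    ⟨(τ a : ℕ), by have := (τ a).2; omega⟩
  let hi : (Par ℓ → Fin (2 ^ ℓ - 1)) → Par ℓ → Fin (2 ^ ℓ) := fun τ a =>
    ⟨(τ a : ℕ) + 1, by have := (τ a).2; omega⟩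
  let U : (Par ℓ → Fin (2 ^ ℓ - 1)) → Set (Par ℓ → ℝ) := fun τ =>
    {q | ∀ a, |q a| < R ∧ 0 < Λ (a, lo τ a) q ∧ Λ (a, hi τ a) q < 0}
  have hclose : ∀ (τ : Par ℓ → Fin (2 ^ ℓ - 1)) (q : Par ℓ → ℝ), (∀ a, |q a| ≤ R) →
      (∀ a, 0 ≤ Λ (a, lo τ a) q ∧ Λ (a, hi τ a) q ≤ 0) →
      ∀ a, 2 * ((τ a : ℕ) : ℝ) + 3 / 4 ≤ q a ∧ q a ≤ 2 * ((τ a : ℕ) : ℝ) + 13 / 4 := by
    intro τ q hq h a
    have h1 := (hΛq (a, lo τ a) q hq).1
    have h2 := (hΛq (a, hi τ a) q hq).1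
    simp only [lo, hi] at h1 h2
    rw [abs_le] at h1 h2
    push_cast at h1 h2
    have h3 := (h a).1
    have h4 := (h a).2
    simp only [lo, hi] at h3 h4
    constructor <;> linarith [h1.1, h1.2, h2.1, h2.2]
  have hlt : ∀ (τ : Par ℓ → Fin (2 ^ ℓ - 1)) (a : Par ℓ) (x : ℝ),
      2 * ((τ a : ℕ) : ℝ) + 3 / 4 ≤ x → x ≤ 2 * ((τ a : ℕ) : ℝ) + 13 / 4 → |x| < R := by
    intro τ a x h1 h2
    have h3 : ((τ a : ℕ) : ℝ) + 2 ≤ 2 ^ ℓ := by
      have := (τ a).2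
      have h4 : (τ a : ℕ) + 2 ≤ 2 ^ ℓ := by omega
      exact_mod_cast h4
    have h4 : (0 : ℝ) ≤ ((τ a : ℕ) : ℝ) := Nat.cast_nonneg _
    rw [abs_lt, hR, pow_succ]
    constructor <;> linarith
  refine ⟨U, ?_, ?_, ?_, ?_⟩
  · intro τ
    have e : U τ = ⋂ a, ({q | |q a| < R} ∩ ({q | 0 < Λ (a, lo τ a) q} ∩ {q | Λ (a, hi τ a) q < 0})) := by
      ext q
      simp only [U, Set.mem_ofPred_eq, Set.mem_iInter, Set.mem_inter_iff]
    rw [e]
    refine isOpen_iInter_of_finite fun a => ?_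
    refine (isOpen_lt (by fun_prop) continuous_const).inter
      ((isOpen_lt continuous_const (hcont _)).inter (isOpen_lt (hcont _) continuous_const))
  · intro τ q hq a
    have ha := hq a
    rw [abs_le] at ha
    have hall : ∀ b, |q b| ≤ R := by
      intro b
      have hb := hq b
      rw [abs_le] at hb
      exact (hlt τ b (q b) (by linarith [hb.1]) (by linarith [hb.2])).le
    have h1 := (hΛq (a, lo τ a) q hall).1
    have h2 := (hΛq (a, hi τ a) q hall).1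
    simp only [lo, hi] at h1 h2
    rw [abs_le] at h1 h2
    push_cast at h1 h2
    refine ⟨hlt τ a (q a) (by linarith [ha.1]) (by linarith [ha.2]), ?_, ?_⟩
    · simp only [lo]; linarith [h1.1, h1.2, ha.1]
    · simp only [hi]; linarith [h2.1, h2.2, ha.2]
  · intro τ σ hτσ
    rw [Set.disjoint_left]
    intro q hq hq'
    obtain ⟨a, ha⟩ : ∃ a, τ a ≠ σ a := by
      by_contra h
      push Not at h
      exact hτσ (funext h)
    have hb1 := hclose τ q (fun b => (hq b).1.le) (fun b => ⟨(hq b).2.1.le, (hq b).2.2.le⟩) a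
    have hb2 := hclose σ q (fun b => (hq' b).1.le) (fun b => ⟨(hq' b).2.1.le, (hq' b).2.2.le⟩) a
    have key : ∀ τ σ : Par ℓ → Fin (2 ^ ℓ - 1), q ∈ U τ → q ∈ U σ → (τ a : ℕ) < σ a →
        2 * ((σ a : ℕ) : ℝ) + 3 / 4 ≤ q a → q a ≤ 2 * ((τ a : ℕ) : ℝ) + 13 / 4 → False := by
      intro τ σ hq hq' hlt' h1 h2
      have h3 : ((σ a : ℕ) : ℝ) < (τ a : ℕ) + 2 := by linarith
      have h4 : (σ a : ℕ) < (τ a : ℕ) + 2 := by exact_mod_cast h3
      have h5 : (σ a : ℕ) = (τ a : ℕ) + 1 := by omega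
      have h6 : hi τ a = lo σ a := Fin.ext (by simp [hi, lo, h5])
      have h7 := (hq a).2.2
      have h8 := (hq' a).2.1
      rw [h6] at h7
      linarith
    rcases Nat.lt_or_gt_of_ne (fun h => ha (Fin.ext h)) with h | h
    · exact key τ σ hq hq' h hb2.1 hb1.2
    · exact key σ τ hq' hq h hb1.1 hb2.2
  · intro τ q hq
    have hopen : IsOpen (U τ) := by
      have e : U τ = ⋂ a, ({q | |q a| < R} ∩ ({q | 0 < Λ (a, lo τ a) q} ∩ {q | Λ (a, hi τ a) q < 0})) := by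
        ext q
        simp only [U, Set.mem_ofPred_eq, Set.mem_iInter, Set.mem_inter_iff]
      rw [e]
      refine isOpen_iInter_of_finite fun a => ?_
      refine (isOpen_lt (by fun_prop) continuous_const).inter
        ((isOpen_lt continuous_const (hcont _)).inter (isOpen_lt (hcont _) continuous_const))
    rw [hopen.frontier_eq] at hq
    obtain ⟨hcl, hn⟩ := hq
    have hle' : ∀ a, |q a| ≤ R ∧ 0 ≤ Λ (a, lo τ a) q ∧ Λ (a, hi τ a) q ≤ 0 := by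
      have hclosed : IsClosed {q : Par ℓ → ℝ | ∀ a, |q a| ≤ R ∧ 0 ≤ Λ (a, lo τ a) q
          ∧ Λ (a, hi τ a) q ≤ 0} := by
        have e : {q : Par ℓ → ℝ | ∀ a, |q a| ≤ R ∧ 0 ≤ Λ (a, lo τ a) q ∧ Λ (a, hi τ a) q ≤ 0}
            = ⋂ a, ({q | |q a| ≤ R} ∩ ({q | 0 ≤ Λ (a, lo τ a) q} ∩ {q | Λ (a, hi τ a) q ≤ 0})) := by
          ext q
          simp only [Set.mem_ofPred_eq, Set.mem_iInter, Set.mem_inter_iff]
        rw [e]
        refine isClosed_iInter fun a => ?_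
        refine (isClosed_le (by fun_prop) continuous_const).inter
          ((isClosed_le continuous_const (hcont _)).inter (isClosed_le (hcont _) continuous_const))
      exact closure_minimal (fun q hq a => ⟨(hq a).1.le, (hq a).2.1.le, (hq a).2.2.le⟩) hclosed hcl
    have hall : ∀ b, |q b| ≤ R := fun b => (hle' b).1
    have hb := hclose τ q hall fun b => (hle' b).2
    simp only [U, Set.mem_ofPred_eq, not_forall] at hn
    obtain ⟨a, ha⟩ := hn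
    have h1 : |q a| < R := hlt τ a (q a) (hb a).1 (hb a).2
    by_cases h2 : 0 < Λ (a, lo τ a) q
    · have h3 : ¬ Λ (a, hi τ a) q < 0 := fun h3 => ha ⟨h1, h2, h3⟩
      exact (hΛq (a, hi τ a) q hall).2 (le_antisymm (hle' a).2.2 (not_lt.1 h3))
    · exact (hΛq (a, lo τ a) q hall).2 (le_antisymm (not_lt.1 h2) (hle' a).2.1)

end Pool.Agent.L0h79.BSS
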