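import Mathlib

/-!
# Real and complex valued polynomial functions of bounded degree
-/

open MvPolynomial

namespace Pool.Agent.L0h79.BSS

variable {ι : Type*}

/-- a real polynomial function of degree at most `d` -/
def PolyFn (d : ℕ) (g : (ι → ℝ) → ℝ) : Prop :=
  ∃ p : MvPolynomial ι ℝ, p.totalDegree ≤ d ∧ ∀ x, eval x p = g x

/-- a complex valued polynomial function of real variables of degree at most `d` -/
def CPoly (d : ℕ) (g : (ι → ℝ) → ℂ) : Prop :=
  PolyFn d (fun x => (g x).re) ∧ PolyFn d (fun x => (g x).im)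

namespace PolyFn

lemma mono {d e : ℕ} (h : d ≤ e) {g : (ι → ℝ) → ℝ} (hg : PolyFn d g) : PolyFn e g := by
  obtain ⟨p, hp, hp'⟩ := hg
  exact ⟨p, hp.trans h, hp'⟩

lemma const (d : ℕ) (c : ℝ) : PolyFn d (fun _ : ι → ℝ => c) :=
  ⟨C c, by simp, by simp⟩

lemma coord (i : ι) : PolyFn 1 (fun x : ι → ℝ => x i) :=
  ⟨X i, by simp, by simp⟩

lemma add {d : ℕ} {f g : (ι → ℝ) → ℝ} (hf : PolyFn d f) (hg : PolyFn d g) :
    PolyFn d (fun x => f x + g x) := by
  obtain ⟨p, hp, hp'⟩ := hf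
  obtain ⟨q, hq, hq'⟩ := hg
  exact ⟨p + q, (totalDegree_add _ _).trans (max_le hp hq), fun x => by rw [map_add, hp', hq']⟩

lemma sub {d : ℕ} {f g : (ι → ℝ) → ℝ} (hf : PolyFn d f) (hg : PolyFn d g) :
    PolyFn d (fun x => f x - g x) := by
  obtain ⟨p, hp, hp'⟩ := hf
  obtain ⟨q, hq, hq'⟩ := hg
  exact ⟨p - q, (totalDegree_sub _ _).trans (max_le hp hq), fun x => by rw [map_sub, hp', hq']⟩

lemma neg {d : ℕ} {f : (ι → ℝ) → ℝ} (hf : PolyFn d f) : PolyFn d (fun x => - f x) := by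
  simpa using (const d 0).sub hf

lemma mul {d e : ℕ} {f g : (ι → ℝ) → ℝ} (hf : PolyFn d f) (hg : PolyFn e g) :
    PolyFn (d + e) (fun x => f x * g x) := by
  obtain ⟨p, hp, hp'⟩ := hf
  obtain ⟨q, hq, hq'⟩ := hg
  exact ⟨p * q, (totalDegree_mul _ _).trans (add_le_add hp hq), fun x => by rw [map_mul, hp', hq']⟩

lemma const_mul {d : ℕ} (c : ℝ) {g : (ι → ℝ) → ℝ} (hg : PolyFn d g) :
    PolyFn d (fun x => c * g x) := by
  simpa using (const 0 c).mul hg

lemma sum {α : Type*} (s : Finset α) {d : ℕ} {f : α → (ι → ℝ) → ℝ} (hf : ∀ a ∈ s, PolyFn d (f a)) :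
    PolyFn d (fun x => ∑ a ∈ s, f a x) := by
  classical
  induction s using Finset.induction_on with
  | empty => simpa using const d 0
  | insert a s ha ih =>
    simp only [Finset.sum_insert ha]
    exact (hf a (Finset.mem_insert_self _ _)).add
      (ih fun b hb => hf b (Finset.mem_insert_of_mem hb))

end PolyFn

namespace CPoly

lemma mono {d e : ℕ} (h : d ≤ e) {g : (ι → ℝ) → ℂ} (hg : CPoly d g) : CPoly e g :=
  ⟨hg.1.mono h, hg.2.mono h⟩

lemma const (d : ℕ) (c : ℂ) : CPoly d (fun _ : ι → ℝ => c) :=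
  ⟨PolyFn.const d _, PolyFn.const d _⟩

lemma ofReal {d : ℕ} {g : (ι → ℝ) → ℝ} (hg : PolyFn d g) : CPoly d (fun x => ((g x : ℝ) : ℂ)) := by
  constructor
  · simpa using hg
  · simpa using PolyFn.const d 0

lemma add {d : ℕ} {f g : (ι → ℝ) → ℂ} (hf : CPoly d f) (hg : CPoly d g) :
    CPoly d (fun x => f x + g x) := by
  constructor
  · simpa using hf.1.add hg.1
  · simpa using hf.2.add hg.2

lemma sub {d : ℕ} {f g : (ι → ℝ) → ℂ} (hf : CPoly d f) (hg : CPoly d g) :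
    CPoly d (fun x => f x - g x) := by
  constructor
  · simpa using hf.1.sub hg.1
  · simpa using hf.2.sub hg.2

lemma mul {d e : ℕ} {f g : (ι → ℝ) → ℂ} (hf : CPoly d f) (hg : CPoly e g) :
    CPoly (d + e) (fun x => f x * g x) := by
  constructor
  · simp only [Complex.mul_re]
    exact (hf.1.mul hg.1).sub (hf.2.mul hg.2)
  · simp only [Complex.mul_im]
    exact (hf.1.mul hg.2).add (hf.2.mul hg.1)

lemma const_mul {d : ℕ} (c : ℂ) {g : (ι → ℝ) → ℂ} (hg : CPoly d g) :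
    CPoly d (fun x => c * g x) := by
  simpa using (const 0 c).mul hg

lemma conj {d : ℕ} {g : (ι → ℝ) → ℂ} (hg : CPoly d g) :
    CPoly d (fun x => (starRingEnd ℂ) (g x)) := by
  constructor
  · simpa using hg.1
  · simpa using hg.2.neg

lemma sum {α : Type*} (s : Finset α) {d : ℕ} {f : α → (ι → ℝ) → ℂ} (hf : ∀ a ∈ s, CPoly d (f a)) :
    CPoly d (fun x => ∑ a ∈ s, f a x) := by
  constructor
  · simpa using PolyFn.sum s fun a ha => (hf a ha).1
  · simpa using PolyFn.sum s fun a ha => (hf a ha).2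

lemma normSq {d : ℕ} {g : (ι → ℝ) → ℂ} (hg : CPoly d g) :
    PolyFn (d + d) (fun x => Complex.normSq (g x)) := by
  simp only [Complex.normSq_apply]
  exact (hg.1.mul hg.1).add (hg.2.mul hg.2)

lemma re {d : ℕ} {g : (ι → ℝ) → ℂ} (hg : CPoly d g) : CPoly d (fun x => (((g x).re : ℝ) : ℂ)) :=
  ofReal hg.1

lemma im {d : ℕ} {g : (ι → ℝ) → ℂ} (hg : CPoly d g) : CPoly d (fun x => (((g x).im : ℝ) : ℂ)) :=
  ofReal hg.2

/-- composition with a coordinate projection -/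
lemma comp_proj {ι' : Type*} (e : ι' → ι) {d : ℕ} {g : (ι' → ℝ) → ℂ} (hg : CPoly d g) :
    CPoly d (fun x : ι → ℝ => g (fun i => x (e i))) := by
  have key : ∀ {h : (ι' → ℝ) → ℝ}, PolyFn d h → PolyFn d (fun x : ι → ℝ => h (fun i => x (e i))) := by
    rintro h ⟨p, hp, hp'⟩
    refine ⟨rename e p, (totalDegree_rename_le _ _).trans hp, fun x => ?_⟩
    rw [eval_rename]
    exact hp' (fun i => x (e i))
  exact ⟨key hg.1, key hg.2⟩

end CPoly

end Pool.Agent.L0h79.BSS
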