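import Pool.Agent.L0h79.BSS.GenericHard

/-!
# Machines which toss coins
-/

open MvPolynomial Finset

namespace Pool.Agent.L0h79.BSS

/-- the sequence of coin tosses: the entry `i` is the toss `ω i`, as a number `0` or `1` -/
def coins {t : ℕ} (ω : Fin t → Bool) : ℕ → ℂ :=
  fun i => if h : i < t then (if ω ⟨i, h⟩ then 1 else 0) else 0

open Classical in
/-- the probability that the machine, which tosses a fair coin at each guess node, has given the
answer `b` after `t` steps -/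
noncomputable def prob (M : Machine) (x : ℤ → ℂ) (t : ℕ) (b : Bool) : ℝ :=
  ((univ.filter fun ω : Fin t → Bool => Answers M x (coins ω) t b).card : ℝ) / 2 ^ t

/-- For a fixed number of steps: the probability of the answer no is at most the error probability. -/
theorem random_step (mon : ∀ n : ℕ, ℕ → List (Fin n →₀ ℕ)) (hmon : IsMonomialList mon)
    (ℓ : ℕ) (hℓ : 50 ≤ ℓ) (M : Machine) (hM : ∀ v, (M.prog v).standardOrGuess) (ε : ℝ) (T : ℕ)
    (hT : 10000 * (T : ℝ) ≤ (sz ℓ : ℝ) ^ (4 / 3 : ℝ))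
    (herr : ∀ c : Fin (5 * ℓ + 1) × Mon (5 * ℓ) → ℂ, HasZero (quad c) →
      prob M (tape (encode mon (quad c))) T false ≤ ε) :
    ∃ Q : MvPolynomial (Fin (5 * ℓ + 1) × Mon (5 * ℓ)) ℂ, Q ≠ 0 ∧ ∀ c, eval c Q ≠ 0 →
      (∀ e, (quad c e).totalDegree = 2) ∧ ¬ HasZero (quad c) ∧
        prob M (tape (encode mon (quad c))) T false ≤ ε := by
  classical
  set X₀ := ftape mon (5 * ℓ) (5 * ℓ + 1) with hX₀
  set s : (Fin T → Bool) → GState M.V (Fin (5 * ℓ + 1) × Mon (5 * ℓ)) :=
    fun ω => gseq M (coins ω) X₀ T with hs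
  obtain ⟨D, hD0, hDd, m₀, hm₀, hD⟩ := exists_degree_poly (5 * ℓ) (5 * ℓ + 1) (by omega)
  obtain ⟨R, hR0, hR⟩ := exists_resultant (5 * ℓ)
  have hrun : ∀ (ω : Fin T → Bool) (c : Fin (5 * ℓ + 1) × Mon (5 * ℓ) → ℂ),
      (∀ e, (quad c e).totalDegree = 2) → eval c (s ω).P ≠ 0 →
      (run M (tape (encode mon (quad c))) (coins ω) T).1 = (s ω).node := by
    intro ω c hc hP
    rw [tape_quad mon c hc]
    exact (gseq_repr M hM (coins ω) X₀ c T hP).1
  set F : Finset (Fin T → Bool) := univ.filter fun ω => M.prog (s ω).node = .output false with hF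
  -- few coin sequences lead to the answer no on generic inputs
  have hcard : (F.card : ℝ) ≤ ε * 2 ^ T := by
    by_contra hcon
    push Not at hcon
    set F₀ := F.filter fun ω => aeval (phi (5 * ℓ)) (s ω).P ≠ 0 with hF₀
    have hprod : (aeval (phi (5 * ℓ)) D * ∏ ω ∈ F₀, aeval (phi (5 * ℓ)) (s ω).P) ≠ 0 := by
      refine mul_ne_zero ?_ (Finset.prod_ne_zero_iff.2 fun ω hω => (Finset.mem_filter.1 hω).2)
      rw [hD, map_prod]
      refine Finset.prod_ne_zero_iff.2 fun e _ => ?_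
      rw [aeval_X]
      unfold phi
      rw [dif_neg hm₀]
      exact X_ne_zero _
    obtain ⟨b, hb⟩ : ∃ b : SIdx (5 * ℓ) → ℂ,
        eval b (aeval (phi (5 * ℓ)) D * ∏ ω ∈ F₀, aeval (phi (5 * ℓ)) (s ω).P) ≠ 0 := by
      by_contra hall
      push Not at hall
      exact hprod (MvPolynomial.funext fun x => by rw [hall x, map_zero])
    rw [map_mul, map_prod] at hb
    have hbD := left_ne_zero_of_mul hb
    have hbP := Finset.prod_ne_zero_iff.1 (right_ne_zero_of_mul hb)
    set c : Fin (5 * ℓ + 1) × Mon (5 * ℓ) → ℂ := fun j => eval b (phi (5 * ℓ) j) with hc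
    have hdeg : ∀ e, (quad c e).totalDegree = 2 := by
      apply hDd
      rw [eval_aeval_eq] at hbD
      exact hbD
    have h1 := herr c (hasZero_phi b)
    have h2 : F₀.card ≤ (univ.filter fun ω : Fin T → Bool =>
        Answers M (tape (encode mon (quad c))) (coins ω) T false).card := by
      refine Finset.card_le_card fun ω hω => ?_
      rw [Finset.mem_filter]
      refine ⟨Finset.mem_univ _, ?_⟩
      have h3 := hbP ω hω
      rw [eval_aeval_eq] at h3
      unfold Answers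
      rw [hrun ω c hdeg h3]
      exact (Finset.mem_filter.1 (Finset.mem_filter.1 hω).1).2
    have h3 : (F₀.card : ℝ) ≤ ε * 2 ^ T := by
      unfold prob at h1
      rw [div_le_iff₀ (by positivity)] at h1
      refine le_trans ?_ h1
      exact_mod_cast h2
    -- so for some sequence the polynomial of the path vanishes on all solvable systems
    obtain ⟨ω, hω, hω0⟩ : ∃ ω ∈ F, aeval (phi (5 * ℓ)) (s ω).P = 0 := by
      by_contra hall
      push Not at hall
      have : F₀ = F := Finset.filter_true_of_mem hall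
      rw [this] at h3
      linarith
    have hpath := fun c g' => path_answers M hM (coins ω) X₀ T c g'
    refine no_generic_certificate mon hmon ℓ hℓ (pathMachine M (coins ω) X₀ T) (s ω).P
      (gseq_P_ne M (coins ω) X₀ T) ?_ ?_
    · intro c' hc' g' t' h' hz
      rw [tape_quad mon c' hc'] at h'
      have h4 := (hpath c' g').2 t' h'
      obtain ⟨b', hb'⟩ := exists_phi c' hz
      have h5 : c' = fun j => eval b' (phi (5 * ℓ) j) := funext hb'
      apply h4
      have h6 := eval_aeval_eq (phi (5 * ℓ)) b' (s ω).P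
      rw [hω0, map_zero] at h6
      rw [h5]
      exact h6.symm
    · intro c' hc' hP'
      refine ⟨0, 2 * T, ?_, ?_⟩
      · rw [tape_quad mon c' hc']
        exact (hpath c' 0).1 hP'
      · have h4 := cost_le (pathMachine M (coins ω) X₀ T) (tape (encode mon (quad c'))) 0 (2 * T)
        have h5 : (cost (pathMachine M (coins ω) X₀ T) (tape (encode mon (quad c'))) 0 (2 * T) : ℝ)
            ≤ ((2 * T : ℕ) : ℝ) := by exact_mod_cast h4
        push_cast at h5
        linarith
  refine ⟨D * R * ∏ ω, (s ω).P, mul_ne_zero (mul_ne_zero hD0 hR0)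
    (Finset.prod_ne_zero_iff.2 fun ω _ => gseq_P_ne M _ X₀ T), fun c hc => ?_⟩
  rw [map_mul, map_mul, map_prod] at hc
  have hcD := left_ne_zero_of_mul (left_ne_zero_of_mul hc)
  have hcR := right_ne_zero_of_mul (left_ne_zero_of_mul hc)
  have hcP := Finset.prod_ne_zero_iff.1 (right_ne_zero_of_mul hc)
  have hdeg := hDd c hcD
  refine ⟨hdeg, fun h => hcR (hR c h), ?_⟩
  unfold prob
  rw [div_le_iff₀ (by positivity)]
  refine le_trans ?_ hcard
  have h1 : (univ.filter fun ω : Fin T → Bool =>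
      Answers M (tape (encode mon (quad c))) (coins ω) T false).card ≤ F.card := by
    refine Finset.card_le_card fun ω hω => ?_
    have h2 := (Finset.mem_filter.1 hω).2
    rw [hF, Finset.mem_filter]
    refine ⟨Finset.mem_univ _, ?_⟩
    unfold Answers at h2
    rwa [hrun ω c hdeg (hcP ω (Finset.mem_univ _))] at h2
  exact_mod_cast h1

/-- **Generic systems are hard for machines which toss coins.** -/
theorem random_hard (mon : ∀ n : ℕ, ℕ → List (Fin n →₀ ℕ)) (hmon : IsMonomialList mon)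
    (ℓ : ℕ) (hℓ : 50 ≤ ℓ) (M : Machine) (hM : ∀ v, (M.prog v).standardOrGuess) (ε : ℝ)
    (herr : ∀ (c : Fin (5 * ℓ + 1) × Mon (5 * ℓ) → ℂ) (t : ℕ) (b : Bool),
      ¬ (HasZero (quad c) ↔ b = true) → prob M (tape (encode mon (quad c))) t b ≤ ε) :
    ∃ Q : MvPolynomial (Fin (5 * ℓ + 1) × Mon (5 * ℓ)) ℂ, Q ≠ 0 ∧ ∀ c, eval c Q ≠ 0 →
      (∀ e, (quad c e).totalDegree = 2) ∧ ¬ HasZero (quad c) ∧
      ∀ (t : ℕ) (b : Bool), 10000 * (t : ℝ) ≤ (sz ℓ : ℝ) ^ (4 / 3 : ℝ) →
        prob M (tape (encode mon (quad c))) t b ≤ ε := by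
  classical
  set N : ℕ := ⌊(sz ℓ : ℝ) ^ (4 / 3 : ℝ) / 10000⌋₊ with hN
  have hNle : ∀ t : ℕ, 10000 * (t : ℝ) ≤ (sz ℓ : ℝ) ^ (4 / 3 : ℝ) ↔ t ≤ N := by
    intro t
    rw [hN, Nat.le_floor_iff (by positivity), le_div_iff₀ (by norm_num), mul_comm]
  have hstep : ∀ t : Fin (N + 1), ∃ Q : MvPolynomial (Fin (5 * ℓ + 1) × Mon (5 * ℓ)) ℂ, Q ≠ 0 ∧
      ∀ c, eval c Q ≠ 0 → (∀ e, (quad c e).totalDegree = 2) ∧ ¬ HasZero (quad c) ∧
        prob M (tape (encode mon (quad c))) t false ≤ ε := by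
    intro t
    refine random_step mon hmon ℓ hℓ M hM ε t ((hNle t).2 (Nat.lt_succ_iff.1 t.2)) ?_
    intro c hc
    exact herr c t false (by simp [hc])
  choose Q hQ hQ' using hstep
  refine ⟨∏ t, Q t, Finset.prod_ne_zero_iff.2 fun t _ => hQ t, fun c hc => ?_⟩
  rw [map_prod, Finset.prod_ne_zero_iff] at hc
  have h0 := hQ' 0 c (hc 0 (Finset.mem_univ _))
  refine ⟨h0.1, h0.2.1, fun t b ht => ?_⟩
  cases b
  · have ht' := (hNle t).1 ht
    exact (hQ' ⟨t, Nat.lt_succ_of_le ht'⟩ c (hc _ (Finset.mem_univ _))).2.2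
  · exact herr c t true (by simp [h0.2.1])

end Pool.Agent.L0h79.BSS
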