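import Mathlib

/-!
# A perturbation lemma: roots which depend continuously on parameters
-/

open Finset Metric

namespace Pool.Agent.L0h79.BSS

/-- clipping a real number to `[-R, R]` -/
def clip (R x : ℝ) : ℝ := max (-R) (min R x)

lemma clip_of_abs_le {R x : ℝ} (h : |x| ≤ R) : clip R x = x := by
  rw [abs_le] at h
  unfold clip
  rw [min_eq_right h.2, max_eq_right h.1]

lemma abs_clip_le {R x : ℝ} (hR : 0 ≤ R) : |clip R x| ≤ R := by
  unfold clip
  rw [abs_le]
  exact ⟨le_max_left _ _, max_le (by linarith) (min_le_left _ _)⟩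

lemma abs_clip_sub_le (R x y : ℝ) : |clip R x - clip R y| ≤ |x - y| := by
  unfold clip
  have h1 := abs_max_sub_max_le_max (-R) (min R x) (-R) (min R y)
  have h2 := abs_min_sub_min_le_max R x R y
  simp only [sub_self, abs_zero] at h1 h2
  rw [max_eq_right (abs_nonneg (min R x - min R y))] at h1
  rw [max_eq_right (abs_nonneg (x - y))] at h2
  exact h1.trans h2

variable {P V M : Type*} [Fintype P] [Fintype V] [Fintype M]

lemma clip_mem_closedBall (R : ℝ) (hR : 0 ≤ R) (x : V → ℝ) :
    (fun v => clip R (x v)) ∈ closedBall (0 : V → ℝ) R := by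
  rw [mem_closedBall_zero_iff, pi_norm_le_iff_of_nonneg hR]
  intro v
  exact abs_clip_le hR

lemma dist_clip_le (R : ℝ) (x y : V → ℝ) :
    dist (fun v => clip R (x v)) (fun v => clip R (y v)) ≤ dist x y := by
  rw [dist_pi_le_iff dist_nonneg]
  intro v
  refine le_trans ?_ (dist_le_pi_dist x y v)
  rw [Real.dist_eq, Real.dist_eq]
  exact abs_clip_sub_le _ _ _

/-- a system `δ v = - σ v (s v δ v ^ 2 + ∑ m, c v m f m (q, δ))` with small coefficients `c` has a
small solution which depends continuously on `q` -/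
theorem exists_root (f : (P → ℝ) × (V → ℝ) → (M → ℝ)) (hf : ContDiff ℝ 1 f) (σ s : V → ℝ)
    (hσ : ∀ v, |σ v| ≤ 1) (hs : ∀ v, |s v| ≤ 1) (R η : ℝ) (hR : 0 ≤ R) (hη : 0 < η) :
    ∃ r > 0, (∀ c : V → M → ℝ, (∀ v m, |c v m| ≤ r) → ∃ δ : (P → ℝ) → (V → ℝ), Continuous δ ∧
      ∀ q, (∀ a, |q a| ≤ R) → (∀ v, |δ q v| ≤ η) ∧
        (∀ v, δ q v = - σ v * (s v * δ q v ^ 2 + ∑ m, c v m * f (q, δ q) m)) ∧
        ∀ d : M → ℝ, (∀ m, |d m| ≤ r) → |∑ m, d m * f (q, δ q) m| ≤ η) := by
  set K : Set ((P → ℝ) × (V → ℝ)) := closedBall 0 R ×ˢ closedBall 0 (1 / 8) with hK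
  have hKc : IsCompact K := (isCompact_closedBall _ _).prod (isCompact_closedBall _ _)
  obtain ⟨L, hL⟩ := (hf.locallyLipschitz.locallyLipschitzOn (s := K)).exists_lipschitzOnWith_of_compact hKc
  obtain ⟨B, hB⟩ := hKc.exists_bound_of_continuousOn hf.continuous.continuousOn
  set N : ℝ := (Fintype.card M : ℝ) with hN
  have hN0 : 0 ≤ N := by rw [hN]; positivity
  have hL0 : (0 : ℝ) ≤ L := L.2
  set B' : ℝ := |B| with hB'
  have hB0 : 0 ≤ B' := abs_nonneg _
  have hBK : ∀ p ∈ K, ∀ m, |f p m| ≤ B' := by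
    intro p hp m
    exact (norm_le_pi_norm (f p) m).trans ((hB p hp).trans (le_abs_self _))
  have hLK : ∀ p ∈ K, ∀ p' ∈ K, ∀ m, |f p m - f p' m| ≤ L * dist p p' := by
    intro p hp p' hp' m
    have h1 := hL.dist_le_mul p hp p' hp'
    exact (dist_le_pi_dist (f p) (f p') m).trans h1
  -- the choice of `r`
  set η' : ℝ := min (η / 2) (1 / 64) with hη'
  have hη'0 : 0 < η' := lt_min (by linarith) (by norm_num)
  set r : ℝ := η' / (N * (L + B') + 1) with hr
  have hden : 0 < N * (L + B') + 1 := by positivity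
  have hr0 : 0 < r := div_pos hη'0 hden
  have hrN : r * (N * (L + B')) ≤ η' := by
    rw [hr, div_mul_eq_mul_div, div_le_iff₀ hden]
    nlinarith
  have hrL : r * N * L ≤ 1 / 4 := by
    have h1 : r * N * L ≤ r * (N * (L + B')) := by
      have : 0 ≤ r * N * B' := by positivity
      nlinarith
    have h2 : η' ≤ 1 / 64 := min_le_right _ _
    linarith
  have hrB : r * N * B' ≤ η' := by
    have h1 : r * N * B' ≤ r * (N * (L + B')) := by
      have : 0 ≤ r * N * L := by positivity
      nlinarith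
    linarith
  have hsum : ∀ d : M → ℝ, (∀ m, |d m| ≤ r) → ∀ p ∈ K, |∑ m, d m * f p m| ≤ η' := by
    intro d hd p hp
    refine (Finset.abs_sum_le_sum_abs _ _).trans ?_
    calc ∑ m, |d m * f p m| ≤ ∑ _m : M, r * B' := by
          refine Finset.sum_le_sum fun m _ => ?_
          rw [abs_mul]
          exact mul_le_mul (hd m) (hBK p hp m) (abs_nonneg _) hr0.le
      _ = r * N * B' := by
          rw [Finset.sum_const, Finset.card_univ, nsmul_eq_mul, hN]; ring
      _ ≤ η' := hrB
  have hsumL : ∀ d : M → ℝ, (∀ m, |d m| ≤ r) → ∀ p ∈ K, ∀ p' ∈ K,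
      |∑ m, d m * f p m - ∑ m, d m * f p' m| ≤ 1 / 4 * dist p p' := by
    intro d hd p hp p' hp'
    rw [← Finset.sum_sub_distrib]
    refine (Finset.abs_sum_le_sum_abs _ _).trans ?_
    calc ∑ m, |d m * f p m - d m * f p' m| ≤ ∑ _m : M, r * (L * dist p p') := by
          refine Finset.sum_le_sum fun m _ => ?_
          rw [← mul_sub, abs_mul]
          exact mul_le_mul (hd m) (hLK p hp p' hp' m) (abs_nonneg _) hr0.le
      _ = r * N * L * dist p p' := by
          rw [Finset.sum_const, Finset.card_univ, nsmul_eq_mul, hN]; ring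
      _ ≤ 1 / 4 * dist p p' := mul_le_mul_of_nonneg_right hrL dist_nonneg
  refine ⟨r, hr0, fun c hc => ?_⟩
  let pt : (P → ℝ) → (V → ℝ) → (P → ℝ) × (V → ℝ) := fun q δ =>
    (fun a => clip R (q a), fun v => clip (1 / 8) (δ v))
  have hpt : ∀ q δ, pt q δ ∈ K := fun q δ =>
    ⟨clip_mem_closedBall R hR q, clip_mem_closedBall (1 / 8) (by norm_num) δ⟩
  let G : (P → ℝ) → (V → ℝ) → (V → ℝ) := fun q δ v =>
    - σ v * (s v * clip (1 / 8) (δ v) ^ 2 + ∑ m, c v m * f (pt q δ) m)
  have hG : ∀ q, ContractingWith (1 / 2) (G q) := by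
    intro q
    refine ⟨by rw [← NNReal.coe_lt_coe]; norm_num, LipschitzWith.of_dist_le_mul fun δ δ' => ?_⟩
    rw [dist_pi_le_iff (by positivity)]
    intro v
    rw [Real.dist_eq]
    have h1 : G q δ v - G q δ' v = - σ v * (s v * (clip (1 / 8) (δ v) ^ 2 - clip (1 / 8) (δ' v) ^ 2)
        + (∑ m, c v m * f (pt q δ) m - ∑ m, c v m * f (pt q δ') m)) := by
      simp only [G]; ring
    rw [h1, abs_mul, abs_neg]
    have hd : dist (pt q δ) (pt q δ') ≤ dist δ δ' := by
      rw [Prod.dist_eq]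
      refine max_le ?_ (dist_clip_le _ _ _)
      show dist (fun a => clip R (q a)) (fun a => clip R (q a)) ≤ _
      rw [dist_self]; exact dist_nonneg
    have h2 : |∑ m, c v m * f (pt q δ) m - ∑ m, c v m * f (pt q δ') m| ≤ 1 / 4 * dist δ δ' :=
      (hsumL (c v) (hc v) _ (hpt q δ) _ (hpt q δ')).trans (by gcongr)
    have h3 : |clip (1 / 8) (δ v) ^ 2 - clip (1 / 8) (δ' v) ^ 2| ≤ 1 / 4 * dist δ δ' := by
      have e : clip (1 / 8) (δ v) ^ 2 - clip (1 / 8) (δ' v) ^ 2
          = (clip (1 / 8) (δ v) + clip (1 / 8) (δ' v)) * (clip (1 / 8) (δ v) - clip (1 / 8) (δ' v)) := by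
        ring
      rw [e, abs_mul]
      have h4 : |clip (1 / 8) (δ v) + clip (1 / 8) (δ' v)| ≤ 1 / 4 := by
        refine (abs_add_le _ _).trans ?_
        have := abs_clip_le (R := 1 / 8) (x := δ v) (by norm_num)
        have := abs_clip_le (R := 1 / 8) (x := δ' v) (by norm_num)
        linarith
      have h5 : |clip (1 / 8) (δ v) - clip (1 / 8) (δ' v)| ≤ dist δ δ' := by
        refine (abs_clip_sub_le _ _ _).trans ?_
        rw [← Real.dist_eq]
        exact dist_le_pi_dist δ δ' v
      exact mul_le_mul h4 h5 (abs_nonneg _) (by norm_num)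
    have h6 : |s v * (clip (1 / 8) (δ v) ^ 2 - clip (1 / 8) (δ' v) ^ 2)
        + (∑ m, c v m * f (pt q δ) m - ∑ m, c v m * f (pt q δ') m)| ≤ 1 / 2 * dist δ δ' := by
      refine (abs_add_le _ _).trans ?_
      rw [abs_mul]
      have h7 : |s v| * |clip (1 / 8) (δ v) ^ 2 - clip (1 / 8) (δ' v) ^ 2| ≤ 1 * (1 / 4 * dist δ δ') :=
        mul_le_mul (hs v) h3 (abs_nonneg _) (by norm_num)
      linarith
    calc |σ v| * _ ≤ 1 * (1 / 2 * dist δ δ') :=
          mul_le_mul (hσ v) h6 (abs_nonneg _) (by norm_num)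
      _ = ((1 / 2 : NNReal) : ℝ) * dist δ δ' := by push_cast; ring
  refine ⟨fun q => (hG q).fixedPoint (G q), ?_, ?_⟩
  · -- continuity
    have hLip : LipschitzWith (1 / 2) fun q => (hG q).fixedPoint (G q) := by
      refine LipschitzWith.of_dist_le_mul fun q q' => ?_
      have h1 : ∀ δ, dist (G q δ) (G q' δ) ≤ 1 / 4 * dist q q' := by
        intro δ
        rw [dist_pi_le_iff (by positivity)]
        intro v
        rw [Real.dist_eq]
        have h1 : G q δ v - G q' δ v = - σ v *
            (∑ m, c v m * f (pt q δ) m - ∑ m, c v m * f (pt q' δ) m) := by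
          simp only [G]; ring
        rw [h1, abs_mul, abs_neg]
        have hd : dist (pt q δ) (pt q' δ) ≤ dist q q' := by
          rw [Prod.dist_eq]
          refine max_le (dist_clip_le _ _ _) ?_
          show dist (fun v => clip (1 / 8) (δ v)) (fun v => clip (1 / 8) (δ v)) ≤ _
          rw [dist_self]; exact dist_nonneg
        have h2 : |∑ m, c v m * f (pt q δ) m - ∑ m, c v m * f (pt q' δ) m| ≤ 1 / 4 * dist q q' :=
          (hsumL (c v) (hc v) _ (hpt q δ) _ (hpt q' δ)).trans (by gcongr)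
        calc |σ v| * _ ≤ 1 * (1 / 4 * dist q q') :=
              mul_le_mul (hσ v) h2 (abs_nonneg _) (by norm_num)
          _ = _ := one_mul _
      refine ((hG q).fixedPoint_lipschitz_in_map (hG q') h1).trans (le_of_eq ?_)
      push_cast
      ring
    exact hLip.continuous
  · intro q hq
    set δ := (hG q).fixedPoint (G q) with hδ
    have hfix : ∀ v, δ v = G q δ v := by
      intro v
      have := (hG q).fixedPoint_isFixedPt
      exact (congrFun this v).symm
    have hsmall : ∀ v, |δ v| ≤ 1 / 8 := by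
      intro v
      rw [hfix v]
      simp only [G]
      rw [abs_mul, abs_neg]
      have h1 := hsum (c v) (hc v) _ (hpt q δ)
      have h2 : |clip (1 / 8) (δ v) ^ 2| ≤ 1 / 64 := by
        rw [abs_pow]
        have := abs_clip_le (R := 1 / 8) (x := δ v) (by norm_num)
        have h0 := abs_nonneg (clip (1 / 8) (δ v))
        nlinarith
      have h3 : |s v * clip (1 / 8) (δ v) ^ 2 + ∑ m, c v m * f (pt q δ) m| ≤ 1 / 8 := by
        refine (abs_add_le _ _).trans ?_
        rw [abs_mul]
        have h4 : |s v| * |clip (1 / 8) (δ v) ^ 2| ≤ 1 * (1 / 64) :=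
          mul_le_mul (hs v) h2 (abs_nonneg _) (by norm_num)
        have h5 : η' ≤ 1 / 64 := min_le_right _ _
        linarith
      calc |σ v| * _ ≤ 1 * (1 / 8) := mul_le_mul (hσ v) h3 (abs_nonneg _) (by norm_num)
        _ = 1 / 8 := by norm_num
    have hpq : pt q δ = (q, δ) := by
      refine Prod.ext ?_ ?_
      · funext a; exact clip_of_abs_le (hq a)
      · funext v; exact clip_of_abs_le (hsmall v)
    have hmem : (q, δ) ∈ K := hpq ▸ hpt q δ
    have hfix' : ∀ v, δ v = - σ v * (s v * δ v ^ 2 + ∑ m, c v m * f (q, δ) m) := by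
      intro v
      have h := hfix v
      simp only [G, hpq, clip_of_abs_le (hsmall v)] at h
      exact h
    refine ⟨fun v => ?_, hfix', fun d hd => (hsum d hd _ hmem).trans ((min_le_left _ _).trans (by linarith))⟩
    have h1 := hsum (c v) (hc v) _ hmem
    have h2 : |δ v| ≤ |δ v| ^ 2 + η' := by
      calc |δ v| = |- σ v * (s v * δ v ^ 2 + ∑ m, c v m * f (q, δ) m)| := congrArg abs (hfix' v)
        _ ≤ 1 * |s v * δ v ^ 2 + ∑ m, c v m * f (q, δ) m| := by
            rw [abs_mul, abs_neg]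
            exact mul_le_mul_of_nonneg_right (hσ v) (abs_nonneg _)
        _ ≤ 1 * |δ v| ^ 2 + η' := by
            rw [one_mul]
            refine (abs_add_le _ _).trans (add_le_add ?_ h1)
            rw [abs_mul, abs_pow]
            exact mul_le_mul_of_nonneg_right (hs v) (by positivity)
        _ = _ := by rw [one_mul]
    have h3 := hsmall v
    have h4 := abs_nonneg (δ v)
    have h5 : η' ≤ η / 2 := min_le_left _ _
    nlinarith

end Pool.Agent.L0h79.BSS
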