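import Pool.Agent.L0h79.BSS.Defs
import Pool.Agent.L0h79.BSS.PolyFn
import Pool.Agent.L0h79.BSS.Cells

/-!
# Symbolic execution of a machine along a path

The path is given by the outcomes `β j` of the costly nodes (`j`-th costly node on the path); the
point `p` has coordinates `u_j, v_j ∈ ℂ` for each of them.
-/

open MvPolynomial Finset

namespace Pool.Agent.L0h79.BSS

variable {P : Type*} {K : ℕ}

/-- the coordinates: the parameters and four real coordinates for each costly node -/
abbrev Idx (P : Type*) (K : ℕ) := P ⊕ (Fin K × Fin 4)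

/-- the value at the `j`-th costly node -/
noncomputable def uu (p : Idx P K → ℝ) (j : ℕ) : ℂ :=
  if h : j < K then ⟨p (.inr (⟨j, h⟩, 0)), p (.inr (⟨j, h⟩, 1))⟩ else 0

/-- the witness at the `j`-th costly node -/
noncomputable def vv (p : Idx P K → ℝ) (j : ℕ) : ℂ :=
  if h : j < K then ⟨p (.inr (⟨j, h⟩, 2)), p (.inr (⟨j, h⟩, 3))⟩ else 0

lemma cpoly_uu (j : ℕ) : CPoly 1 (fun p : Idx P K → ℝ => uu p j) := by
  unfold uu
  split_ifs with h
  · exact ⟨PolyFn.coord _, PolyFn.coord _⟩
  · exact CPoly.const _ _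

lemma cpoly_vv (j : ℕ) : CPoly 1 (fun p : Idx P K → ℝ => vv p j) := by
  unfold vv
  split_ifs with h
  · exact ⟨PolyFn.coord _, PolyFn.coord _⟩
  · exact CPoly.const _ _

/-- symbolic states: node, number of costly nodes so far, tape -/
structure Sym (V : Type) (P : Type*) (K : ℕ) where
  node : V
  cnt : ℕ
  tp : ℤ → (Idx P K → ℝ) → ℂ

/-- a symbolic step -/
noncomputable def symStep (M : Machine) (β : ℕ → Bool) (s : Sym M.V P K) : Sym M.V P K :=
  match M.prog s.node with
  | .const c d n => ⟨n, s.cnt, Function.update s.tp d (fun _ => c)⟩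
  | .scale c a d n => ⟨n, s.cnt, Function.update s.tp d (fun p => c * s.tp a p)⟩
  | .conj a d n => ⟨n, s.cnt, Function.update s.tp d (fun p => (starRingEnd ℂ) (s.tp a p))⟩
  | .add a b d n => ⟨n, s.cnt, Function.update s.tp d (fun p => s.tp a p + s.tp b p)⟩
  | .sub a b d n => ⟨n, s.cnt, Function.update s.tp d (fun p => s.tp a p - s.tp b p)⟩
  | .mul _ _ d n => ⟨n, s.cnt + 1, Function.update s.tp d (fun p => uu p s.cnt)⟩
  | .div _ _ d n => ⟨n, s.cnt + 1, Function.update s.tp d (fun p => uu p s.cnt)⟩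
  | .shift r n => ⟨n, s.cnt, fun i => s.tp (if r then i - 1 else i + 1)⟩
  | .guess d n => ⟨n, s.cnt + 1, Function.update s.tp d (fun p => uu p s.cnt)⟩
  | .isZero _ y n => ⟨if β s.cnt then y else n, s.cnt + 1, s.tp⟩
  | .isNonneg _ y n => ⟨if β s.cnt then y else n, s.cnt + 1, s.tp⟩
  | .output _ => s

/-- the two constraints at a node -/
noncomputable def con (M : Machine) (β : ℕ → Bool) (s : Sym M.V P K) (p : Idx P K → ℝ) : ℂ × ℂ :=
  match M.prog s.node with
  | .mul a b _ _ => (uu p s.cnt - s.tp a p * s.tp b p, 0)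
  | .div a b _ _ =>
      if β s.cnt then (uu p s.cnt, s.tp b p)
      else (uu p s.cnt * s.tp b p - s.tp a p, vv p s.cnt * s.tp b p - 1)
  | .isZero a _ _ => if β s.cnt then (s.tp a p, 0) else (vv p s.cnt * s.tp a p - 1, 0)
  | .isNonneg a _ _ =>
      if β s.cnt then
        (((s.tp a p).re : ℂ) - ((vv p s.cnt).re : ℂ) * ((vv p s.cnt).re : ℂ), 0)
      else
        (((vv p s.cnt).im : ℂ) - ((vv p s.cnt).re : ℂ) * ((vv p s.cnt).re : ℂ),
          ((s.tp a p).re : ℂ) * ((vv p s.cnt).im : ℂ) + 1)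
  | _ => (0, 0)

lemma cpoly_update {d : ℕ} {tp : ℤ → (Idx P K → ℝ) → ℂ} (h : ∀ i, CPoly d (tp i)) (j : ℤ)
    {f : (Idx P K → ℝ) → ℂ} (hf : CPoly d f) (i : ℤ) : CPoly d (Function.update tp j f i) := by
  rcases eq_or_ne i j with rfl | hij
  · rwa [Function.update_self]
  · rw [Function.update_of_ne hij]; exact h i

lemma cpoly_symStep (M : Machine) (β : ℕ → Bool) (s : Sym M.V P K) (h : ∀ i, CPoly 1 (s.tp i)) :
    ∀ i, CPoly 1 ((symStep M β s).tp i) := by
  unfold symStep
  intro i
  split
  · exact cpoly_update h _ (CPoly.const _ _) i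
  · exact cpoly_update h _ ((h _).const_mul _) i
  · exact cpoly_update h _ (h _).conj i
  · exact cpoly_update h _ ((h _).add (h _)) i
  · exact cpoly_update h _ ((h _).sub (h _)) i
  · exact cpoly_update h _ (cpoly_uu _) i
  · exact cpoly_update h _ (cpoly_uu _) i
  · exact h _
  · exact cpoly_update h _ (cpoly_uu _) i
  · exact h _
  · exact h _
  · exact h _

lemma cpoly_con (M : Machine) (β : ℕ → Bool) (s : Sym M.V P K) (h : ∀ i, CPoly 1 (s.tp i)) :
    CPoly 2 (fun p => (con M β s p).1) ∧ CPoly 2 (fun p => (con M β s p).2) := by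
  have u1 : ∀ j, CPoly 1 (fun p : Idx P K → ℝ => uu p j) := cpoly_uu
  have v1 : ∀ j, CPoly 1 (fun p : Idx P K → ℝ => vv p j) := cpoly_vv
  unfold con
  split
  · exact ⟨((u1 _).mono (by norm_num)).sub ((h _).mul (h _)), CPoly.const _ _⟩
  · split_ifs
    · exact ⟨(u1 _).mono (by norm_num), (h _).mono (by norm_num)⟩
    · exact ⟨((u1 _).mul (h _)).sub ((h _).mono (by norm_num)),
        ((v1 _).mul (h _)).sub (CPoly.const _ _)⟩
  · split_ifs
    · exact ⟨(h _).mono (by norm_num), CPoly.const _ _⟩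
    · exact ⟨((v1 _).mul (h _)).sub (CPoly.const _ _), CPoly.const _ _⟩
  · split_ifs
    · exact ⟨((h _).re.mono (by norm_num)).sub ((v1 _).re.mul (v1 _).re), CPoly.const _ _⟩
    · exact ⟨((v1 _).im.mono (by norm_num)).sub ((v1 _).re.mul (v1 _).re),
        ((h _).re.mul (v1 _).im).add (CPoly.const _ _)⟩
  · exact ⟨CPoly.const _ _, CPoly.const _ _⟩

/-- the symbolic run from a parametrized input tape -/
noncomputable def sym (M : Machine) (x : (P → ℝ) → ℤ → ℂ) (β : ℕ → Bool) : ℕ → Sym M.V P K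
  | 0 => ⟨M.start, 0, fun i p => x (fun a => p (.inl a)) i⟩
  | t + 1 => symStep M β (sym M x β t)

/-- the sum of the squares of the constraints -/
noncomputable def total (M : Machine) (x : (P → ℝ) → ℤ → ℂ) (β : ℕ → Bool) (T : ℕ)
    (p : Idx P K → ℝ) : ℝ :=
  ∑ t ∈ range T, (Complex.normSq (con M β (sym M x β t) p).1
    + Complex.normSq (con M β (sym M x β t) p).2)

lemma cpoly_sym (M : Machine) (x : (P → ℝ) → ℤ → ℂ) (hx : ∀ i, CPoly 1 (fun q => x q i))
    (β : ℕ → Bool) (t : ℕ) : ∀ i, CPoly 1 ((sym M x β t : Sym M.V P K).tp i) := by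
  induction t with
  | zero => exact fun i => (hx i).comp_proj _
  | succ t ih => exact cpoly_symStep M β _ ih

lemma polyFn_total (M : Machine) (x : (P → ℝ) → ℤ → ℂ) (hx : ∀ i, CPoly 1 (fun q => x q i))
    (β : ℕ → Bool) (T : ℕ) : PolyFn 4 (total M x β T : (Idx P K → ℝ) → ℝ) := by
  unfold total
  refine PolyFn.sum _ fun t _ => ?_
  have h := cpoly_con M β (sym M x β t : Sym M.V P K) (cpoly_sym M x hx β t)
  exact h.1.normSq.add h.2.normSq

lemma total_nonneg (M : Machine) (x : (P → ℝ) → ℤ → ℂ) (β : ℕ → Bool) (T : ℕ) (p : Idx P K → ℝ) :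
    0 ≤ total M x β T p :=
  Finset.sum_nonneg fun _ _ => add_nonneg (Complex.normSq_nonneg _) (Complex.normSq_nonneg _)

lemma total_eq_zero (M : Machine) (x : (P → ℝ) → ℤ → ℂ) (β : ℕ → Bool) (T : ℕ) (p : Idx P K → ℝ) :
    total M x β T p = 0 ↔ ∀ t < T, con M β (sym M x β t) p = (0, 0) := by
  unfold total
  rw [Finset.sum_eq_zero_iff_of_nonneg fun _ _ =>
    add_nonneg (Complex.normSq_nonneg _) (Complex.normSq_nonneg _)]
  constructor
  · intro h t ht
    have := h t (mem_range.2 ht)
    have h1 := Complex.normSq_nonneg (con M β (sym M x β t) p).1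
    have h2 := Complex.normSq_nonneg (con M β (sym M x β t) p).2
    have e1 : Complex.normSq (con M β (sym M x β t) p).1 = 0 := by linarith
    have e2 : Complex.normSq (con M β (sym M x β t) p).2 = 0 := by linarith
    exact Prod.ext (Complex.normSq_eq_zero.1 e1) (Complex.normSq_eq_zero.1 e2)
  · intro h t ht
    rw [h t (mem_range.1 ht)]
    simp

/-- a symbolic state describes a state at the point `p` -/
def Describes {V : Type} (s : Sym V P K) (p : Idx P K → ℝ) (c : V × (ℤ → ℂ)) : Prop :=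
  s.node = c.1 ∧ ∀ i, s.tp i p = c.2 i

/-- one step: if the constraints hold then the symbolic step describes the step in which a guess
writes `u` -/
lemma describes_step (M : Machine) (β : ℕ → Bool) (s : Sym M.V P K) (p : Idx P K → ℝ)
    (c : M.V × (ℤ → ℂ)) (hs : Describes s p c) (hc : con M β s p = (0, 0)) :
    Describes (symStep M β s) p (step M (uu p s.cnt) c) := by
  obtain ⟨h1, h2⟩ := hs
  have upd : ∀ (d : ℤ) (f : (Idx P K → ℝ) → ℂ) (z : ℂ), f p = z → ∀ i,
      (Function.update s.tp d f i) p = Function.update c.2 d z i := by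
    intro d f z hf i
    rcases eq_or_ne i d with rfl | hij
    · rw [Function.update_self, Function.update_self, hf]
    · rw [Function.update_of_ne hij, Function.update_of_ne hij, h2]
  unfold con at hc
  unfold symStep step
  rw [h1] at hc ⊢
  cases hn : M.prog c.1 with
  | const e d n => exact ⟨rfl, upd _ _ _ rfl⟩
  | scale e a d n => exact ⟨rfl, upd _ _ _ (by rw [h2])⟩
  | conj a d n => exact ⟨rfl, upd _ _ _ (by rw [h2])⟩
  | add a b d n => exact ⟨rfl, upd _ _ _ (by rw [h2, h2])⟩
  | sub a b d n => exact ⟨rfl, upd _ _ _ (by rw [h2, h2])⟩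
  | mul a b d n =>
    simp only [hn, Prod.mk.injEq] at hc
    refine ⟨rfl, upd _ _ _ ?_⟩
    rw [← h2, ← h2]
    exact sub_eq_zero.1 hc.1
  | div a b d n =>
    simp only [hn] at hc
    refine ⟨rfl, upd _ _ _ ?_⟩
    rw [← h2, ← h2]
    split_ifs at hc with hb
    · simp only [Prod.mk.injEq] at hc
      rw [hc.1, hc.2, div_zero]
    · simp only [Prod.mk.injEq] at hc
      have hne : s.tp b p ≠ 0 := by
        intro h0
        rw [h0, mul_zero] at hc
        have := hc.2
        norm_num at this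
      rw [eq_div_iff hne]
      exact sub_eq_zero.1 hc.1
  | shift r n => exact ⟨rfl, fun i => h2 _⟩
  | guess d n => exact ⟨rfl, upd _ _ _ rfl⟩
  | isZero a y n =>
    simp only [hn] at hc
    refine ⟨?_, h2⟩
    simp only
    split_ifs at hc with hb
    · simp only [Prod.mk.injEq] at hc
      rw [if_pos hb, if_pos (by rw [← h2]; exact hc.1)]
    · simp only [Prod.mk.injEq] at hc
      rw [if_neg hb, if_neg]
      intro h0
      rw [h2, h0, mul_zero] at hc
      have := hc.1
      norm_num at this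
  | isNonneg a y n =>
    simp only [hn] at hc
    refine ⟨?_, h2⟩
    simp only
    split_ifs at hc with hb
    · simp only [Prod.mk.injEq] at hc
      rw [if_pos hb, if_pos]
      rw [← h2]
      have h := hc.1
      have h' : (s.tp a p).re - (vv p s.cnt).re * (vv p s.cnt).re = 0 := by exact_mod_cast h
      nlinarith [mul_self_nonneg (vv p s.cnt).re]
    · simp only [Prod.mk.injEq] at hc
      rw [if_neg hb, if_neg]
      rw [← h2]
      have h := hc.1
      have h' : (vv p s.cnt).im - (vv p s.cnt).re * (vv p s.cnt).re = 0 := by exact_mod_cast h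
      have g := hc.2
      have g' : (s.tp a p).re * (vv p s.cnt).im + 1 = 0 := by exact_mod_cast g
      intro h0
      nlinarith [mul_self_nonneg (vv p s.cnt).re, mul_nonneg h0 (mul_self_nonneg (vv p s.cnt).re)]
  | output b => exact ⟨h1 ▸ rfl, h2⟩

end Pool.Agent.L0h79.BSS
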