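import Pool.Agent.L0h79.BSS.Count2

/-!
# The family of systems

For parameters `θ i j k` (`i, j, k < ℓ`) the system `sys ℓ θ` consists of `5 ℓ + 1` quadratic
polynomials in the `5 ℓ` variables `x_i, s_i, t_i, y_i, w_i` (`i < ℓ`):

`x_i² - x_i`, `s_i² - s_i`, `t_i² - t_i`, `y_i² - y_i`,
`w_i - ∑ j k, θ i j k s_j t_k + (y_i² - y_i)`, and `∑ i, y_i w_i - 1 - ∑ i, 2 ^ (i + 1) x_i`.
-/

open MvPolynomial Finset

namespace Pool.Agent.L0h79.BSS

/-- the `i`-th variable of the block `c` (`c = 0, 1, 2, 3, 4` for `x, s, t, y, w`) -/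
def vr (ℓ : ℕ) (c : Fin 5) (i : Fin ℓ) : Fin (5 * ℓ) := finProdFinEquiv (c, i)

/-- the `i`-th equation of the block `c` -/
noncomputable def blockPoly (ℓ : ℕ) (θ : Fin ℓ → Fin ℓ → Fin ℓ → ℂ) (c : Fin 5) (i : Fin ℓ) :
    MvPolynomial (Fin (5 * ℓ)) ℂ :=
  if c = 4 then
    X (vr ℓ 4 i) - ∑ j, ∑ k, C (θ i j k) * (X (vr ℓ 1 j) * X (vr ℓ 2 k))
      + (X (vr ℓ 3 i) ^ 2 - X (vr ℓ 3 i))
  else X (vr ℓ c i) ^ 2 - X (vr ℓ c i)

/-- the last equation -/
noncomputable def lastPoly (ℓ : ℕ) : MvPolynomial (Fin (5 * ℓ)) ℂ :=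
  ∑ i, X (vr ℓ 3 i) * X (vr ℓ 4 i) - 1 - ∑ i : Fin ℓ, C (2 ^ ((i : ℕ) + 1)) * X (vr ℓ 0 i)

/-- the system with the parameters `θ` -/
noncomputable def sys (ℓ : ℕ) (θ : Fin ℓ → Fin ℓ → Fin ℓ → ℂ) :
    Fin (5 * ℓ + 1) → MvPolynomial (Fin (5 * ℓ)) ℂ := fun e =>
  if h : (e : ℕ) < 5 * ℓ then
    blockPoly ℓ θ (finProdFinEquiv.symm ⟨e, h⟩).1 (finProdFinEquiv.symm ⟨e, h⟩).2
  else lastPoly ℓ

lemma hasZero_iff (ℓ : ℕ) (θ : Fin ℓ → Fin ℓ → Fin ℓ → ℂ) :
    HasZero (sys ℓ θ) ↔ ∃ z : Fin (5 * ℓ) → ℂ, (∀ c i, eval z (blockPoly ℓ θ c i) = 0) ∧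
      eval z (lastPoly ℓ) = 0 := by
  unfold HasZero sys
  refine exists_congr fun z => ⟨fun h => ⟨fun c i => ?_, ?_⟩, fun h e => ?_⟩
  · have := h (Fin.castSucc (finProdFinEquiv (c, i)))
    rw [dif_pos (show ((Fin.castSucc (finProdFinEquiv (c, i)) : Fin (5 * ℓ + 1)) : ℕ) < 5 * ℓ from
      (finProdFinEquiv (c, i)).is_lt)] at this
    have e : (⟨((Fin.castSucc (finProdFinEquiv (c, i)) : Fin (5 * ℓ + 1)) : ℕ),
        (finProdFinEquiv (c, i)).is_lt⟩ : Fin (5 * ℓ)) = finProdFinEquiv (c, i) := rfl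
    rw [e, Equiv.symm_apply_apply] at this
    exact this
  · have := h (Fin.last _)
    rwa [dif_neg (by simp)] at this
  · split_ifs with he
    · exact h.1 _ _
    · exact h.2

lemma exists_bits (ℓ : ℕ) : ∀ X : ℕ, X < 2 ^ ℓ →
    ∃ b : Fin ℓ → ℕ, (∀ i, b i = 0 ∨ b i = 1) ∧ ∑ i : Fin ℓ, 2 ^ (i : ℕ) * b i = X := by
  induction ℓ with
  | zero =>
    intro X hX
    refine ⟨fun i => i.elim0, fun i => i.elim0, ?_⟩
    simp at hX ⊢
    exact hX.symm
  | succ ℓ ih =>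
    intro X hX
    obtain ⟨b, hb, hs⟩ := ih (X / 2) (by rw [pow_succ] at hX; omega)
    refine ⟨Fin.cons (X % 2) b, ?_, ?_⟩
    · intro i
      refine Fin.cases ?_ (fun i => ?_) i
      · simp only [Fin.cons_zero]; omega
      · simp only [Fin.cons_succ]; exact hb i
    · rw [Fin.sum_univ_succ]
      simp only [Fin.val_zero, pow_zero, one_mul, Fin.cons_zero, Fin.val_succ, Fin.cons_succ]
      have : ∑ i : Fin ℓ, 2 ^ ((i : ℕ) + 1) * b i = 2 * (X / 2) := by
        rw [← hs, Finset.mul_sum]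
        exact Finset.sum_congr rfl fun i _ => by ring
      rw [this]; omega

/-- if some parameter is an odd number between `1` and `2 ^ (ℓ + 1) - 1` then the system is
solvable -/
theorem hasZero_of_odd (ℓ : ℕ) (θ : Fin ℓ → Fin ℓ → Fin ℓ → ℂ) (i j k : Fin ℓ) (X₀ : ℕ)
    (hX : X₀ < 2 ^ ℓ) (h : θ i j k = 2 * X₀ + 1) : HasZero (sys ℓ θ) := by
  rw [hasZero_iff]
  obtain ⟨b, hb, hs⟩ := exists_bits ℓ X₀ hX
  let z : Fin (5 * ℓ) → ℂ := fun e =>
    ![fun i' => (b i' : ℂ), fun i' => if i' = j then 1 else 0, fun i' => if i' = k then 1 else 0,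
      fun i' => if i' = i then 1 else 0, fun i' => θ i' j k] (finProdFinEquiv.symm e).1
      (finProdFinEquiv.symm e).2
  have hz : ∀ c i', z (vr ℓ c i') = ![fun i' => (b i' : ℂ), fun i' => if i' = j then 1 else 0,
      fun i' => if i' = k then 1 else 0, fun i' => if i' = i then 1 else 0, fun i' => θ i' j k]
      c i' := by
    intro c i'
    simp only [z, vr, Equiv.symm_apply_apply]
  refine ⟨z, ?_, ?_⟩
  · intro c i'
    unfold blockPoly
    split_ifs with hc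
    · simp only [map_add, map_sub, map_sum, map_mul, eval_X, eval_C, map_pow, hz]
      simp only [Matrix.cons_val]
      have e1 : ∑ j', ∑ k', θ i' j' k' * ((if j' = j then (1:ℂ) else 0) * (if k' = k then 1 else 0))
          = θ i' j k := by
        rw [Finset.sum_eq_single j]
        · rw [Finset.sum_eq_single k]
          · simp
          · intro k' _ hk'; simp [hk']
          · intro hk'; exact absurd (Finset.mem_univ _) hk'
        · intro j' _ hj'; simp [hj']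
        · intro hj'; exact absurd (Finset.mem_univ _) hj'
      rw [e1, sub_self, zero_add]
      split_ifs <;> norm_num
    · simp only [map_sub, map_pow, eval_X, hz]
      have : c = 0 ∨ c = 1 ∨ c = 2 ∨ c = 3 := by omega
      rcases this with rfl | rfl | rfl | rfl
      · simp only [Matrix.cons_val]
        rcases hb i' with h0 | h0 <;> rw [h0] <;> norm_num
      all_goals
        simp only [Matrix.cons_val]
        split_ifs <;> norm_num
  · unfold lastPoly
    simp only [map_sub, map_sum, map_mul, eval_X, eval_C, map_one, hz]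
    simp only [Matrix.cons_val]
    have e1 : ∑ i', (if i' = i then (1:ℂ) else 0) * θ i' j k = θ i j k := by
      rw [Finset.sum_eq_single i]
      · simp
      · intro i' _ hi'; simp [hi']
      · intro hi'; exact absurd (Finset.mem_univ _) hi'
    have e2 : ∑ i' : Fin ℓ, (2:ℂ) ^ ((i' : ℕ) + 1) * (b i' : ℂ) = 2 * X₀ := by
      have : ((∑ i : Fin ℓ, 2 ^ (i : ℕ) * b i : ℕ) : ℂ) = X₀ := by rw [hs]
      rw [← this]
      push_cast
      rw [Finset.mul_sum]
      exact Finset.sum_congr rfl fun i _ => by ring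
    rw [e1, e2, h]
    ring

/-- if all parameters are even integers then the system has no zero -/
theorem not_hasZero_of_even (ℓ : ℕ) (τ : Fin ℓ → Fin ℓ → Fin ℓ → ℤ) :
    ¬ HasZero (sys ℓ fun i j k => ((2 * τ i j k : ℤ) : ℂ)) := by
  rw [hasZero_iff]
  rintro ⟨z, h1, h2⟩
  have hbit : ∀ c : Fin 5, c ≠ 4 → ∀ i, ∃ m : ℤ, z (vr ℓ c i) = m := by
    intro c hc i
    have := h1 c i
    unfold blockPoly at this
    rw [if_neg hc] at this
    simp only [map_sub, map_pow, eval_X] at this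
    have h' : z (vr ℓ c i) * (z (vr ℓ c i) - 1) = 0 := by linear_combination this
    rcases mul_eq_zero.1 h' with h0 | h0
    · exact ⟨0, by rw [h0]; simp⟩
    · exact ⟨1, by rw [sub_eq_zero.1 h0]; simp⟩
  choose m hm using fun c : {c : Fin 5 // c ≠ 4} => hbit c.1 c.2
  have hw : ∀ i, z (vr ℓ 4 i) = ((2 * ∑ j, ∑ k, τ i j k * (m ⟨1, by decide⟩ j * m ⟨2, by decide⟩ k) : ℤ) : ℂ) := by
    intro i
    have h3 := h1 3 i
    have h4 := h1 4 i
    unfold blockPoly at h3 h4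
    rw [if_neg (by decide)] at h3
    rw [if_pos rfl] at h4
    simp only [map_sub, map_pow, eval_X] at h3
    simp only [map_add, map_sub, map_sum, map_mul, eval_X, eval_C, map_pow] at h4
    rw [h3, add_zero, sub_eq_zero] at h4
    rw [h4]
    push_cast
    rw [Finset.mul_sum]
    refine Finset.sum_congr rfl fun j _ => ?_
    rw [Finset.mul_sum]
    refine Finset.sum_congr rfl fun k _ => ?_
    rw [hm ⟨1, by decide⟩ j, hm ⟨2, by decide⟩ k]
    ring
  unfold lastPoly at h2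
  simp only [map_sub, map_sum, map_mul, eval_X, eval_C, map_one, hw] at h2
  simp only [hm ⟨3, by decide⟩, hm ⟨0, by decide⟩] at h2
  have h3 : ((2 * (∑ i, m ⟨3, by decide⟩ i * (∑ j, ∑ k, τ i j k * (m ⟨1, by decide⟩ j * m ⟨2, by decide⟩ k)))
      - 1 - 2 * ∑ i : Fin ℓ, 2 ^ (i : ℕ) * m ⟨0, by decide⟩ i : ℤ) : ℂ) = 0 := by
    rw [← h2]
    push_cast
    rw [Finset.mul_sum, Finset.mul_sum]
    congr 1
    · congr 1
      refine Finset.sum_congr rfl fun i _ => ?_
      ring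
    · refine Finset.sum_congr rfl fun i _ => ?_
      ring
  have h4 : (2 * (∑ i, m ⟨3, by decide⟩ i * (∑ j, ∑ k, τ i j k * (m ⟨1, by decide⟩ j * m ⟨2, by decide⟩ k)))
      - 1 - 2 * ∑ i : Fin ℓ, 2 ^ (i : ℕ) * m ⟨0, by decide⟩ i : ℤ) = 0 := by exact_mod_cast h3
  omega

end Pool.Agent.L0h79.BSS
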