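import Pool.Agent.L0h79.BSS.Final

/-!
# Solvability can be certified in linear time

Straight-line machines: the `j`-th instruction writes into the cell `-(j + 1)`, so nothing is
overwritten.
-/

open MvPolynomial Finset

namespace Pool.Agent.L0h79.BSS

/-- straight-line instructions -/
inductive Ins where
  | guess
  | cst (c : ℂ)
  | mul (a b : ℤ)
  | add (a b : ℤ)
  | tst (a : ℤ)

/-- the cell of the `j`-th instruction -/
def cell (j : ℕ) : ℤ := -((j : ℤ) + 1)

lemma cell_inj {i j : ℕ} : cell i = cell j ↔ i = j := by unfold cell; omega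

lemma cell_neg (j : ℕ) : cell j < 0 := by unfold cell; omega

/-- the node of an instruction -/
def toNode {V : Type} (j : ℕ) (nxt fail : V) : Ins → Node V
  | .guess => .guess (cell j) nxt
  | .cst c => .const c (cell j) nxt
  | .mul a b => .mul a b (cell j) nxt
  | .add a b => .add a b (cell j) nxt
  | .tst a => .isZero a nxt fail

/-- the machine which performs the first `L` instructions, and answers yes if all tests are
passed -/
def slm (L : ℕ) (ins : ℕ → Ins) : Machine where
  V := Fin (L + 2)
  finite_V := inferInstance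
  start := 0
  prog := fun v => if h : (v : ℕ) < L then toNode (v : ℕ) (⟨v + 1, by omega⟩ : Fin (L + 2))
    (Fin.last _) (ins v) else .output (decide ((v : ℕ) = L))

/-- the `j`-th node -/
def nd (L : ℕ) (ins : ℕ → Ins) (j : ℕ) (h : j < L + 2) : (slm L ins).V := (⟨j, h⟩ : Fin (L + 2))

lemma prog_nd (L : ℕ) (ins : ℕ → Ins) (j : ℕ) (h : j < L) :
    (slm L ins).prog (nd L ins j (by omega)) =
      toNode j (nd L ins (j + 1) (by omega)) (nd L ins (L + 1) (by omega)) (ins j) := by
  unfold slm nd
  simp only
  rw [dif_pos h]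
  rfl

lemma prog_nd_L (L : ℕ) (ins : ℕ → Ins) :
    (slm L ins).prog (nd L ins L (by omega)) = .output true := by
  unfold slm nd
  simp only
  rw [dif_neg (lt_irrefl L)]
  simp

lemma prog_nd_L1 (L : ℕ) (ins : ℕ → Ins) :
    (slm L ins).prog (nd L ins (L + 1) (by omega)) = .output false := by
  unfold slm nd
  simp only
  rw [dif_neg (by omega)]
  simp

/-- the tape after `j` instructions -/
noncomputable def tp (ins : ℕ → Ins) (x : ℤ → ℂ) (g : ℕ → ℂ) : ℕ → (ℤ → ℂ)
  | 0 => x
  | j + 1 => match ins j with
    | .guess => Function.update (tp ins x g j) (cell j) (g j)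
    | .cst c => Function.update (tp ins x g j) (cell j) c
    | .mul a b => Function.update (tp ins x g j) (cell j) (tp ins x g j a * tp ins x g j b)
    | .add a b => Function.update (tp ins x g j) (cell j) (tp ins x g j a + tp ins x g j b)
    | .tst _ => tp ins x g j

/-- the first `j` instructions pass their tests -/
def Pass (ins : ℕ → Ins) (x : ℤ → ℂ) (g : ℕ → ℂ) (j : ℕ) : Prop :=
  ∀ i < j, ∀ a, ins i = .tst a → tp ins x g i a = 0

lemma run_slm (L : ℕ) (ins : ℕ → Ins) (x : ℤ → ℂ) (g : ℕ → ℂ) (j : ℕ) (hj : j ≤ L)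
    (hp : Pass ins x g j) : run (slm L ins) x g j = (nd L ins j (by omega), tp ins x g j) := by
  induction j with
  | zero => rfl
  | succ j ih =>
    have ih' := ih (by omega) fun i hi => hp i (by omega)
    show step (slm L ins) (g j) (run (slm L ins) x g j) = _
    rw [ih']
    unfold step
    have e := prog_nd L ins j (by omega)
    simp only [e]
    cases h : ins j with
    | guess => simp only [toNode, tp, h]
    | cst c => simp only [toNode, tp, h]
    | mul a b => simp only [toNode, tp, h]
    | add a b => simp only [toNode, tp, h]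
    | tst a =>
      simp only [toNode, tp, h]
      rw [if_pos (hp j (by omega) a h)]

lemma answers_of_pass (L : ℕ) (ins : ℕ → Ins) (x : ℤ → ℂ) (g : ℕ → ℂ) (hp : Pass ins x g L) :
    Answers (slm L ins) x g L true := by
  unfold Answers
  rw [run_slm L ins x g L le_rfl hp]
  exact prog_nd_L L ins

lemma pass_of_answers (L : ℕ) (ins : ℕ → Ins) (x : ℤ → ℂ) (g : ℕ → ℂ) (t : ℕ)
    (h : Answers (slm L ins) x g t true) : Pass ins x g L := by
  by_contra hn
  have hex : ∃ j, ¬ Pass ins x g j := ⟨L, hn⟩
  classical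
  set j := Nat.find hex with hj
  have hj1 : ¬ Pass ins x g j := Nat.find_spec hex
  have hjL : j ≤ L := Nat.find_min' hex hn
  have hj0 : j ≠ 0 := by
    intro h0
    rw [h0] at hj1
    exact hj1 fun i hi => absurd hi (Nat.not_lt_zero _)
  obtain ⟨i, hi⟩ : ∃ i, j = i + 1 := ⟨j - 1, by omega⟩
  have hpi : Pass ins x g i := by
    by_contra hc
    exact Nat.find_min hex (show i < j by omega) hc
  rw [hi] at hj1
  have hfail : ∃ a, ins i = .tst a ∧ tp ins x g i a ≠ 0 := by
    by_contra hc
    push Not at hc
    apply hj1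
    intro i' hi' a ha
    rcases Nat.lt_succ_iff_lt_or_eq.1 hi' with h' | h'
    · exact hpi i' h' a ha
    · subst h'; exact hc a ha
  obtain ⟨a, ha, hne⟩ := hfail
  have hans : Answers (slm L ins) x g (i + 1) false := by
    unfold Answers
    have e1 : run (slm L ins) x g (i + 1) = step (slm L ins) (g i) (run (slm L ins) x g i) := rfl
    rw [e1, run_slm L ins x g i (by omega) hpi]
    have e := prog_nd L ins i (by omega)
    unfold step
    simp only [e, ha, toNode]
    rw [if_neg hne]
    exact prog_nd_L1 L ins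
  exact absurd (answers_unique _ _ _ h hans) (by simp)

lemma tp_nonneg (ins : ℕ → Ins) (x : ℤ → ℂ) (g : ℕ → ℂ) (j : ℕ) (i : ℤ) (hi : 0 ≤ i) :
    tp ins x g j i = x i := by
  induction j with
  | zero => rfl
  | succ j ih =>
    have hne : i ≠ cell j := by have := cell_neg j; omega
    unfold tp
    cases ins j <;> simp only [Function.update_of_ne hne, ih]

/-- the value computed by the `i`-th instruction -/
noncomputable def val (ins : ℕ → Ins) (x : ℤ → ℂ) (g : ℕ → ℂ) (i : ℕ) : ℂ :=
  tp ins x g (i + 1) (cell i)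

lemma tp_cell (ins : ℕ → Ins) (x : ℤ → ℂ) (g : ℕ → ℂ) (j i : ℕ) (hi : i < j) :
    tp ins x g j (cell i) = val ins x g i := by
  induction j, hi using Nat.le_induction with
  | base => rfl
  | succ j hj ih =>
    have hne : cell i ≠ cell j := by rw [Ne, cell_inj]; omega
    conv_lhs => unfold tp
    cases ins j <;> simp only [Function.update_of_ne hne, ih]

lemma val_guess (ins : ℕ → Ins) (x : ℤ → ℂ) (g : ℕ → ℂ) (i : ℕ) (h : ins i = .guess) :
    val ins x g i = g i := by
  unfold val tp; rw [h]; simp

lemma val_cst (ins : ℕ → Ins) (x : ℤ → ℂ) (g : ℕ → ℂ) (i : ℕ) (c : ℂ) (h : ins i = .cst c) :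
    val ins x g i = c := by
  unfold val tp; rw [h]; simp

lemma val_mul (ins : ℕ → Ins) (x : ℤ → ℂ) (g : ℕ → ℂ) (i : ℕ) (a b : ℤ) (h : ins i = .mul a b) :
    val ins x g i = tp ins x g i a * tp ins x g i b := by
  unfold val
  conv_lhs => unfold tp
  rw [h]; simp

lemma val_add (ins : ℕ → Ins) (x : ℤ → ℂ) (g : ℕ → ℂ) (i : ℕ) (a b : ℤ) (h : ins i = .add a b) :
    val ins x g i = tp ins x g i a + tp ins x g i b := by
  unfold val
  conv_lhs => unfold tp
  rw [h]; simp

/-- the program which guesses a point and evaluates `k` polynomials with `R` monomials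
`z_(a r) z_(b r)` (`z_n = 1`), whose coefficients are at the positions `pos i r` -/
def evalProg (n R : ℕ) (a b : ℕ → ℕ) (pos : ℕ → ℕ → ℤ) (j : ℕ) : Ins :=
  if j < n then .guess
  else if j = n then .cst 1
  else
    let j' := j - (n + 1)
    let i := j' / (3 * R + 2)
    let o := j' % (3 * R + 2)
    if o = 0 then .cst 0
    else if o = 3 * R + 1 then .tst (cell (j - 1))
    else if (o - 1) % 3 = 0 then .mul (cell (a ((o - 1) / 3))) (cell (b ((o - 1) / 3)))
    else if (o - 1) % 3 = 1 then .mul (pos i ((o - 1) / 3)) (cell (j - 1))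
    else .add (cell (j - 3)) (cell (j - 1))

section evalProg

variable {n R : ℕ} {a b : ℕ → ℕ} {pos : ℕ → ℕ → ℤ}

lemma evalProg_div {R i o : ℕ} (ho : o < 3 * R + 2) (n : ℕ) :
    (n + 1 + (i * (3 * R + 2) + o) - (n + 1)) / (3 * R + 2) = i ∧
    (n + 1 + (i * (3 * R + 2) + o) - (n + 1)) % (3 * R + 2) = o := by
  rw [Nat.add_sub_cancel_left]
  constructor
  · rw [mul_comm, Nat.mul_add_div (by omega), Nat.div_eq_of_lt ho, add_zero]
  · rw [mul_comm, Nat.mul_add_mod, Nat.mod_eq_of_lt ho]

lemma evalProg_block (i o : ℕ) (ho : o < 3 * R + 2) :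
    evalProg n R a b pos (n + 1 + (i * (3 * R + 2) + o)) =
      if o = 0 then .cst 0
      else if o = 3 * R + 1 then .tst (cell (n + 1 + (i * (3 * R + 2) + o) - 1))
      else if (o - 1) % 3 = 0 then .mul (cell (a ((o - 1) / 3))) (cell (b ((o - 1) / 3)))
      else if (o - 1) % 3 = 1 then
        .mul (pos i ((o - 1) / 3)) (cell (n + 1 + (i * (3 * R + 2) + o) - 1))
      else .add (cell (n + 1 + (i * (3 * R + 2) + o) - 3))
        (cell (n + 1 + (i * (3 * R + 2) + o) - 1)) := by
  unfold evalProg
  rw [if_neg (by omega), if_neg (by omega)]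
  simp only [(evalProg_div ho n).1, (evalProg_div ho n).2]

/-- the partial sums -/
lemma val_acc (x : ℤ → ℂ) (g : ℕ → ℂ) (ha : ∀ r, a r ≤ n) (hb : ∀ r, b r ≤ n)
    (hpos : ∀ i r, 0 ≤ pos i r) (i : ℕ) (r : ℕ) (hr : r ≤ R) :
    val (evalProg n R a b pos) x g (n + 1 + (i * (3 * R + 2) + 3 * r)) =
      ∑ s ∈ range r, x (pos i s) *
        (val (evalProg n R a b pos) x g (a s) * val (evalProg n R a b pos) x g (b s)) := by
  set p := evalProg n R a b pos with hp
  induction r with
  | zero =>
    rw [Finset.range_zero, Finset.sum_empty]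
    apply val_cst
    rw [hp, evalProg_block i (3 * 0) (by omega)]
    simp
  | succ r ih =>
    have ih' := ih (by omega)
    set q := n + 1 + (i * (3 * R + 2) + 3 * r) with hq
    have q1 : p (q + 1) = .mul (cell (a r)) (cell (b r)) := by
      have e : q + 1 = n + 1 + (i * (3 * R + 2) + (3 * r + 1)) := by omega
      rw [e, hp, evalProg_block i (3 * r + 1) (by omega)]
      rw [if_neg (by omega), if_neg (by omega), if_pos (by omega)]
      have : (3 * r + 1 - 1) / 3 = r := by omega
      rw [this]
    have q2 : p (q + 2) = .mul (pos i r) (cell (q + 1)) := by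
      have e : q + 2 = n + 1 + (i * (3 * R + 2) + (3 * r + 2)) := by omega
      rw [e, hp, evalProg_block i (3 * r + 2) (by omega)]
      rw [if_neg (by omega), if_neg (by omega), if_neg (by omega), if_pos (by omega)]
      have : (3 * r + 2 - 1) / 3 = r := by omega
      rw [this]
      congr 2
    have q3 : p (q + 3) = .add (cell q) (cell (q + 2)) := by
      have e : q + 3 = n + 1 + (i * (3 * R + 2) + (3 * r + 3)) := by omega
      rw [e, hp, evalProg_block i (3 * r + 3) (by omega)]
      rw [if_neg (by omega), if_neg (by omega), if_neg (by omega), if_neg (by omega)]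
      congr 2
    have v1 : val p x g (q + 1) = val p x g (a r) * val p x g (b r) := by
      rw [val_mul p x g (q + 1) _ _ q1, tp_cell, tp_cell]
      · have := hb r; omega
      · have := ha r; omega
    have v2 : val p x g (q + 2) = x (pos i r) * val p x g (q + 1) := by
      rw [val_mul p x g (q + 2) _ _ q2, tp_nonneg _ _ _ _ _ (hpos i r), tp_cell _ _ _ _ _ (by omega)]
    have v3 : val p x g (q + 3) = val p x g q + val p x g (q + 2) := by
      rw [val_add p x g (q + 3) _ _ q3, tp_cell _ _ _ _ _ (by omega), tp_cell _ _ _ _ _ (by omega)]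
    have e : n + 1 + (i * (3 * R + 2) + 3 * (r + 1)) = q + 3 := by omega
    rw [e, v3, ih', v2, v1, Finset.sum_range_succ]

lemma pass_evalProg (x : ℤ → ℂ) (g : ℕ → ℂ) (ha : ∀ r, a r ≤ n) (hb : ∀ r, b r ≤ n)
    (hpos : ∀ i r, 0 ≤ pos i r) (k : ℕ) :
    Pass (evalProg n R a b pos) x g (n + 1 + k * (3 * R + 2)) ↔
      ∀ i < k, ∑ s ∈ range R, x (pos i s) *
        (val (evalProg n R a b pos) x g (a s) * val (evalProg n R a b pos) x g (b s)) = 0 := by
  constructor
  · intro h i hi
    rw [← val_acc x g ha hb hpos i R le_rfl]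
    have hlt : n + 1 + (i * (3 * R + 2) + (3 * R + 1)) < n + 1 + k * (3 * R + 2) := by
      have : (i + 1) * (3 * R + 2) ≤ k * (3 * R + 2) := Nat.mul_le_mul_right _ hi
      have e : (i + 1) * (3 * R + 2) = i * (3 * R + 2) + (3 * R + 2) := by ring
      omega
    have h1 := h (n + 1 + (i * (3 * R + 2) + (3 * R + 1))) hlt
      (cell (n + 1 + (i * (3 * R + 2) + 3 * R))) (by
        rw [evalProg_block i (3 * R + 1) (by omega)]
        rw [if_neg (by omega), if_pos rfl]
        congr 2)
    rwa [tp_cell _ _ _ _ _ (by omega)] at h1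
  · intro h j hj c hc
    by_cases h1 : j < n
    · unfold evalProg at hc; rw [if_pos h1] at hc; cases hc
    by_cases h2 : j = n
    · unfold evalProg at hc; rw [if_neg h1, if_pos h2] at hc; cases hc
    obtain ⟨i, o, ho, hij⟩ : ∃ i o, o < 3 * R + 2 ∧ j = n + 1 + (i * (3 * R + 2) + o) := by
      refine ⟨(j - (n + 1)) / (3 * R + 2), (j - (n + 1)) % (3 * R + 2), Nat.mod_lt _ (by omega), ?_⟩
      have := Nat.div_add_mod (j - (n + 1)) (3 * R + 2)
      rw [mul_comm] at this
      omega
    rw [hij, evalProg_block i o ho] at hc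
    by_cases h3 : o = 3 * R + 1
    · subst h3
      rw [if_neg (by omega), if_pos rfl] at hc
      have hik : i < k := by
        by_contra hge
        push Not at hge
        have : k * (3 * R + 2) ≤ i * (3 * R + 2) := Nat.mul_le_mul_right _ hge
        omega
      have hcc : c = cell (n + 1 + (i * (3 * R + 2) + 3 * R)) := by
        have := Ins.tst.inj hc
        rw [← this]
        congr 1
      rw [hcc, hij, tp_cell _ _ _ _ _ (by omega), val_acc x g ha hb hpos i R le_rfl]
      exact h i hik
    · exfalso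
      rw [if_neg h3] at hc
      split_ifs at hc

end evalProg

end Pool.Agent.L0h79.BSS
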