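import Pool.Agent.L0h79.BSS.Upper

/-!
# The solvable quadratic systems are recognized nondeterministically in linear time
-/

open MvPolynomial Finset

namespace Pool.Agent.L0h79.BSS

/-- the coordinates of `z`, and `1` -/
noncomputable def zx {n : ℕ} (z : Fin n → ℂ) (j : ℕ) : ℂ := if h : j < n then z ⟨j, h⟩ else 1

lemma exists_factors {n : ℕ} (m : Fin n →₀ ℕ) (hm : (m.sum fun _ e => e) ≤ 2) :
    ∃ a b : ℕ, a ≤ n ∧ b ≤ n ∧ ∀ z : Fin n → ℂ, (m.prod fun i e => z i ^ e) = zx z a * zx z b := by
  have hprod : ∀ z : Fin n → ℂ, (m.prod fun i e => z i ^ e) = (m.toMultiset.map z).prod := by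
    intro z
    rw [Finsupp.toMultiset_map, Finsupp.prod_toMultiset, Finsupp.prod_mapDomain_index]
    · intro b; simp
    · intro b e1 e2; rw [pow_add]
  have hcard : m.toMultiset.card ≤ 2 := by
    rw [Finsupp.card_toMultiset]; exact hm
  have hone : ∀ z : Fin n → ℂ, zx z n = 1 := fun z => dif_neg (lt_irrefl n)
  have hzx : ∀ (z : Fin n → ℂ) (i : Fin n), zx z i = z i := fun z i => dif_pos i.2
  have h3 : m.toMultiset.card = 0 ∨ m.toMultiset.card = 1 ∨ m.toMultiset.card = 2 := by omega
  rcases h3 with h | h | h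
  · rw [Multiset.card_eq_zero] at h
    refine ⟨n, n, le_rfl, le_rfl, fun z => ?_⟩
    rw [hprod, h, hone]; simp
  · obtain ⟨i, hi⟩ := Multiset.card_eq_one.1 h
    refine ⟨i, n, i.2.le, le_rfl, fun z => ?_⟩
    rw [hprod, hi, hone, hzx]; simp
  · obtain ⟨i, j, hi⟩ := Multiset.card_eq_two.1 h
    refine ⟨i, j, i.2.le, j.2.le, fun z => ?_⟩
    rw [hprod, hi, hzx, hzx]; simp

/-- the position of a coefficient on the input tape -/
lemma exists_pos (mon : ∀ n : ℕ, ℕ → List (Fin n →₀ ℕ)) (n k : ℕ) (i : Fin k) (m : Fin n →₀ ℕ)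
    (hm : m ∈ mon n 2) : ∃ p : ℕ, ∀ f : Fin k → MvPolynomial (Fin n) ℂ,
      (∀ i, (f i).totalDegree = 2) → tape (encode mon f) (p : ℤ) = coeff m (f i) := by
  let L : List ((Fin k → MvPolynomial (Fin n) ℂ) → ℂ) :=
    [fun _ => (n : ℂ), fun _ => (k : ℂ)]
      ++ (List.ofFn fun _ : Fin k => fun _ => ((2 : ℕ) : ℂ))
      ++ (List.ofFn fun e : Fin k => (mon n 2).map fun m => fun f => coeff m (f e)).flatten
  have hL : ∀ f : Fin k → MvPolynomial (Fin n) ℂ, (∀ i, (f i).totalDegree = 2) →
      encode mon f = L.map fun φ => φ f := by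
    intro f hf
    unfold encode
    simp only [hf, L, List.map_append, List.map_cons, List.map_nil, List.map_ofFn, List.map_flatten]
    congr 1
    congr 1
    congr 1
    funext e
    simp [Function.comp_def]
  have hmem : (fun f : Fin k → MvPolynomial (Fin n) ℂ => coeff m (f i)) ∈ L := by
    simp only [L, List.mem_append, List.mem_flatten, List.mem_ofFn]
    right
    exact ⟨_, ⟨i, rfl⟩, List.mem_map.2 ⟨m, hm, rfl⟩⟩
  obtain ⟨p, hp, he⟩ := List.getElem_of_mem hmem
  refine ⟨p, fun f hf => ?_⟩
  unfold tape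
  rw [if_pos (by positivity), hL f hf, Int.toNat_natCast, List.getD_eq_getElem?_getD,
    List.getElem?_map, List.getElem?_eq_getElem hp, he]
  rfl

/-- evaluation as a sum over the list of monomials -/
lemma eval_eq_sum (mon : ∀ n : ℕ, ℕ → List (Fin n →₀ ℕ)) (hmon : IsMonomialList mon) {n : ℕ}
    (p : MvPolynomial (Fin n) ℂ) (hp : p.totalDegree ≤ 2) (z : Fin n → ℂ) :
    eval z p = ∑ s : Fin (mon n 2).length,
      coeff ((mon n 2).get s) p * (((mon n 2).get s).prod fun i e => z i ^ e) := by
  classical
  rw [eval_eq]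
  have h1 : ∑ d ∈ p.support, coeff d p * ∏ i ∈ d.support, z i ^ d i
      = ∑ d ∈ (mon n 2).toFinset, coeff d p * ∏ i ∈ d.support, z i ^ d i := by
    refine Finset.sum_subset ?_ ?_
    · intro d hd
      rw [List.mem_toFinset, (hmon n 2).2]
      exact (le_totalDegree hd).trans hp
    · intro d _ hd
      rw [notMem_support_iff.1 hd, zero_mul]
  rw [h1, List.sum_toFinset _ (hmon n 2).1]
  have h2 : (mon n 2) = List.ofFn (mon n 2).get := (List.ofFn_get _).symm
  conv_lhs => rw [h2]
  rw [List.map_ofFn, List.sum_ofFn]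
  rfl

/-- **Linear certificates for solvability.** -/
theorem linear_certificates (mon : ∀ n : ℕ, ℕ → List (Fin n →₀ ℕ)) (hmon : IsMonomialList mon)
    (n k : ℕ) (hk : 0 < k) :
    ∃ M : Machine, (∀ v, (M.prog v).standardOrGuess) ∧
      ∀ f : Fin k → MvPolynomial (Fin n) ℂ, (∀ i, (f i).totalDegree = 2) →
        (∀ g t, Answers M (tape (encode mon f)) g t true → HasZero f) ∧
        (HasZero f → ∃ g t, t ≤ 6 * size mon f ∧ Answers M (tape (encode mon f)) g t true) := by
  classical
  set R := (mon n 2).length with hR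
  have hfac : ∀ s : Fin R, ∃ ab : ℕ × ℕ, ab.1 ≤ n ∧ ab.2 ≤ n ∧ ∀ z : Fin n → ℂ,
      (((mon n 2).get s).prod fun i e => z i ^ e) = zx z ab.1 * zx z ab.2 := by
    intro s
    obtain ⟨a, b, ha, hb, h⟩ := exists_factors ((mon n 2).get s)
      (((hmon n 2).2 _).1 (List.get_mem _ _))
    exact ⟨(a, b), ha, hb, h⟩
  choose ab hab1 hab2 hab3 using hfac
  have hpos : ∀ (i : Fin k) (s : Fin R), ∃ p : ℕ, ∀ f : Fin k → MvPolynomial (Fin n) ℂ,
      (∀ i, (f i).totalDegree = 2) → tape (encode mon f) (p : ℤ) = coeff ((mon n 2).get s) (f i) :=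
    fun i s => exists_pos mon n k i _ (List.get_mem _ _)
  choose pos hpos using hpos
  let a : ℕ → ℕ := fun r => if h : r < R then (ab ⟨r, h⟩).1 else 0
  let b : ℕ → ℕ := fun r => if h : r < R then (ab ⟨r, h⟩).2 else 0
  let ps : ℕ → ℕ → ℤ := fun i r => if h : i < k ∧ r < R then (pos ⟨i, h.1⟩ ⟨r, h.2⟩ : ℤ) else 0
  have ha : ∀ r, a r ≤ n := by
    intro r; simp only [a]; split_ifs
    · exact hab1 _
    · omega
  have hb : ∀ r, b r ≤ n := by
    intro r; simp only [b]; split_ifs
    · exact hab2 _
    · omega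
  have hps : ∀ i r, 0 ≤ ps i r := by
    intro i r; simp only [ps]; split_ifs <;> positivity
  set L := n + 1 + k * (3 * R + 2) with hL
  have hsize : ∀ f : Fin k → MvPolynomial (Fin n) ℂ, (∀ i, (f i).totalDegree = 2) →
      size mon f = k * R := by
    intro f hf
    unfold size
    rw [List.length_flatten, List.map_ofFn, List.sum_ofFn]
    simp [hf, hR]
  -- the list of monomials contains `1` and all the variables
  have hRn : n + 1 ≤ R := by
    have h1 : Function.Injective (fun o : Option (Fin n) =>
        (o.elim 0 fun i => Finsupp.single i 1 : Fin n →₀ ℕ)) := by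
      intro o o' h
      cases o with
      | none =>
        cases o' with
        | none => rfl
        | some j =>
          simp only [Option.elim] at h
          exact absurd h.symm (by simp)
      | some i =>
        cases o' with
        | none =>
          simp only [Option.elim] at h
          exact absurd h (by simp)
        | some j =>
          simp only [Option.elim] at h
          rw [Finsupp.single_left_injective one_ne_zero h]
    have h2 : (Finset.univ.image (fun o : Option (Fin n) =>
        (o.elim 0 fun i => Finsupp.single i 1 : Fin n →₀ ℕ))) ⊆ (mon n 2).toFinset := by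
      intro m hm
      rw [Finset.mem_image] at hm
      obtain ⟨o, -, rfl⟩ := hm
      rw [List.mem_toFinset, (hmon n 2).2]
      cases o with
      | none => simp
      | some i => simp
    have h3 := Finset.card_le_card h2
    rw [Finset.card_image_of_injective _ h1, Finset.card_univ, Fintype.card_option,
      Fintype.card_fin, List.toFinset_card_of_nodup (hmon n 2).1] at h3
    exact h3
  -- the values of the guessed cells
  have hvg : ∀ x g j, j < n → val (evalProg n R a b ps) x g j = g j := by
    intro x g j hj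
    apply val_guess
    unfold evalProg
    rw [if_pos hj]
  have hv1 : ∀ x g, val (evalProg n R a b ps) x g n = 1 := by
    intro x g
    apply val_cst
    unfold evalProg
    rw [if_neg (lt_irrefl n), if_pos rfl]
  have hvz : ∀ x g j, j ≤ n → val (evalProg n R a b ps) x g j = zx (fun i : Fin n => g i) j := by
    intro x g j hj
    unfold zx
    split_ifs with h
    · exact hvg x g j h
    · have : j = n := by omega
      subst this
      exact hv1 x g
  have key : ∀ f : Fin k → MvPolynomial (Fin n) ℂ, (∀ i, (f i).totalDegree = 2) → ∀ g : ℕ → ℂ,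
      (Pass (evalProg n R a b ps) (tape (encode mon f)) g L ↔
        ∀ i, eval (fun j : Fin n => g j) (f i) = 0) := by
    intro f hf g
    rw [hL, pass_evalProg _ _ ha hb hps]
    have e : ∀ i : Fin k, ∑ s ∈ range R, tape (encode mon f) (ps i s) *
        (val (evalProg n R a b ps) (tape (encode mon f)) g (a s) *
          val (evalProg n R a b ps) (tape (encode mon f)) g (b s))
        = eval (fun j : Fin n => g j) (f i) := by
      intro i
      rw [eval_eq_sum mon hmon (f i) (hf i).le, Finset.sum_range]
      refine Finset.sum_congr rfl fun s _ => ?_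
      rw [hvz _ _ _ (ha s), hvz _ _ _ (hb s), hab3 s]
      have e1 : ps i s = (pos i s : ℤ) := by
        simp only [ps]
        rw [dif_pos ⟨i.2, s.2⟩]
      have e2 : a s = (ab s).1 := by
        simp only [a]; rw [dif_pos s.2]
      have e3 : b s = (ab s).2 := by
        simp only [b]; rw [dif_pos s.2]
      rw [e1, e2, e3, hpos i s f hf]
    constructor
    · intro h i
      rw [← e i]
      exact h i i.2
    · intro h i hi
      rw [e ⟨i, hi⟩]
      exact h ⟨i, hi⟩
  refine ⟨slm L (evalProg n R a b ps), ?_, fun f hf => ⟨?_, ?_⟩⟩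
  · intro v
    show (if h : (v : Fin (L + 2)).val < L then _ else _ : Node (Fin (L + 2))).standardOrGuess
    split_ifs
    · cases (evalProg n R a b ps) (v : Fin (L + 2)).val <;> exact trivial
    · exact trivial
  · intro g t h
    exact ⟨fun j => g j, (key f hf g).1 (pass_of_answers L _ _ g t h)⟩
  · rintro ⟨z, hz⟩
    let g : ℕ → ℂ := fun j => if h : j < n then z ⟨j, h⟩ else 0
    have hg : (fun j : Fin n => g j) = z := by
      funext j
      simp only [g]
      rw [dif_pos j.2]
    refine ⟨g, L, ?_, answers_of_pass L _ _ g ((key f hf g).2 ?_)⟩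
    · rw [hsize f hf, hL]
      have h1 : R ≤ k * R := Nat.le_mul_of_pos_left _ hk
      have h2 : k ≤ k * R := Nat.le_mul_of_pos_right _ (by omega)
      have h3 : k * (3 * R + 2) = 3 * (k * R) + 2 * k := by ring
      omega
    · rw [hg]; exact hz

end Pool.Agent.L0h79.BSS
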