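import Pool.Agent.L0h79.BSS.Final
import Pool.Agent.L0h79.BSS.Root

/-!
# Perturbed walls and perturbed cells
-/

open MvPolynomial Finset Metric

namespace Pool.Agent.L0h79.BSS

/-- the exponents of the monomials of degree at most `2` in `n` variables -/
abbrev Mon (n : ℕ) := {m : Fin n →₀ ℕ // m ∈ expo (Fin n) 2}

/-- the system of `k` polynomials of degree at most `2` in `n` variables with the coefficients `c` -/
noncomputable def quad {n k : ℕ} (c : Fin k × Mon n → ℂ) (e : Fin k) : MvPolynomial (Fin n) ℂ :=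
  ∑ m : Mon n, monomial m.1 (c (e, m))

lemma eval_quad {n k : ℕ} (c : Fin k × Mon n → ℂ) (e : Fin k) (z : Fin n → ℂ) :
    eval z (quad c e) = ∑ m : Mon n, c (e, m) * ∏ v, z v ^ (m.1 v) := by
  unfold quad
  rw [map_sum]
  refine Finset.sum_congr rfl fun m _ => ?_
  rw [eval_monomial, Finsupp.prod_fintype _ _ (fun _ => pow_zero _)]

/-- the perturbed system -/
noncomputable def tsys (ℓ : ℕ) (c : Fin (5 * ℓ + 1) × Mon (5 * ℓ) → ℝ) (q : Par ℓ → ℝ) :
    Fin (5 * ℓ + 1) → MvPolynomial (Fin (5 * ℓ)) ℂ :=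
  fun e => psys ℓ q e + quad (fun j => (c j : ℂ)) e

lemma hasZero_tsys (ℓ : ℕ) (c : Fin (5 * ℓ + 1) × Mon (5 * ℓ) → ℝ) (q : Par ℓ → ℝ)
    (z : Fin (5 * ℓ) → ℂ)
    (h1 : ∀ d i, eval z (blockPoly ℓ (fun i j k => ((q (i, j, k) : ℝ) : ℂ)) d i)
      + eval z (quad (fun j => (c j : ℂ)) (Fin.castSucc (vr ℓ d i))) = 0)
    (h2 : eval z (lastPoly ℓ) + eval z (quad (fun j => (c j : ℂ)) (Fin.last _)) = 0) :
    HasZero (tsys ℓ c q) := by
  refine ⟨z, fun e => ?_⟩
  unfold tsys psys sys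
  rw [map_add]
  refine Fin.lastCases ?_ (fun v => ?_) e
  · rw [dif_neg (by simp)]
    exact h2
  · rw [dif_pos (by simp)]
    have := h1 (finProdFinEquiv.symm v).1 (finProdFinEquiv.symm v).2
    have e1 : vr ℓ (finProdFinEquiv.symm v).1 (finProdFinEquiv.symm v).2 = v := by
      unfold vr
      rw [Prod.mk.eta, Equiv.apply_symm_apply]
    rw [e1] at this
    exact this

section point

variable (ℓ : ℕ) (bit : Fin 5 → Fin ℓ → ℝ)

/-- the point near the `0-1`-vector `bit` -/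
noncomputable def Zpt (p : (Par ℓ → ℝ) × (Fin (5 * ℓ) → ℝ)) (v : Fin (5 * ℓ)) : ℝ :=
  if (finProdFinEquiv.symm v).1 = 4 then
    p.2 v + ∑ j, ∑ k, p.1 ((finProdFinEquiv.symm v).2, j, k) *
      ((bit 1 j + p.2 (vr ℓ 1 j)) * (bit 2 k + p.2 (vr ℓ 2 k)))
      - ((bit 3 (finProdFinEquiv.symm v).2 + p.2 (vr ℓ 3 (finProdFinEquiv.symm v).2)) ^ 2
        - (bit 3 (finProdFinEquiv.symm v).2 + p.2 (vr ℓ 3 (finProdFinEquiv.symm v).2)))
  else bit (finProdFinEquiv.symm v).1 (finProdFinEquiv.symm v).2 + p.2 v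

lemma contDiff_Zpt (v : Fin (5 * ℓ)) : ContDiff ℝ 1 (fun p => Zpt ℓ bit p v) := by
  unfold Zpt
  split_ifs
  · fun_prop
  · fun_prop

lemma Zpt_ne (p : (Par ℓ → ℝ) × (Fin (5 * ℓ) → ℝ)) (d : Fin 5) (hd : d ≠ 4) (i : Fin ℓ) :
    Zpt ℓ bit p (vr ℓ d i) = bit d i + p.2 (vr ℓ d i) := by
  unfold Zpt
  have e : finProdFinEquiv.symm (vr ℓ d i) = (d, i) := by
    unfold vr; rw [Equiv.symm_apply_apply]
  rw [e, if_neg hd]

lemma Zpt_four (p : (Par ℓ → ℝ) × (Fin (5 * ℓ) → ℝ)) (i : Fin ℓ) :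
    Zpt ℓ bit p (vr ℓ 4 i) = p.2 (vr ℓ 4 i) + ∑ j, ∑ k, p.1 (i, j, k) *
      (Zpt ℓ bit p (vr ℓ 1 j) * Zpt ℓ bit p (vr ℓ 2 k))
      - (Zpt ℓ bit p (vr ℓ 3 i) ^ 2 - Zpt ℓ bit p (vr ℓ 3 i)) := by
  rw [Zpt_ne ℓ bit p 3 (by decide)]
  have e1 : ∀ j, Zpt ℓ bit p (vr ℓ 1 j) = bit 1 j + p.2 (vr ℓ 1 j) := Zpt_ne ℓ bit p 1 (by decide)
  have e2 : ∀ j, Zpt ℓ bit p (vr ℓ 2 j) = bit 2 j + p.2 (vr ℓ 2 j) := Zpt_ne ℓ bit p 2 (by decide)
  simp only [e1, e2]
  unfold Zpt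
  have e : finProdFinEquiv.symm (vr ℓ 4 i) = (4, i) := by
    unfold vr; rw [Equiv.symm_apply_apply]
  rw [e, if_pos rfl]

/-- the monomials at the point -/
noncomputable def fmon (p : (Par ℓ → ℝ) × (Fin (5 * ℓ) → ℝ)) (m : Mon (5 * ℓ)) : ℝ :=
  ∏ v, Zpt ℓ bit p v ^ (m.1 v)

lemma contDiff_fmon : ContDiff ℝ 1 (fmon ℓ bit) := by
  unfold fmon
  refine contDiff_pi.2 fun m => ?_
  exact contDiff_prod fun v _ => (contDiff_Zpt ℓ bit v).pow _

/-- the value of the last equation at the point -/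
noncomputable def lastVal (p : (Par ℓ → ℝ) × (Fin (5 * ℓ) → ℝ)) : ℝ :=
  ∑ i, Zpt ℓ bit p (vr ℓ 3 i) * Zpt ℓ bit p (vr ℓ 4 i) - 1
    - ∑ i : Fin ℓ, 2 ^ ((i : ℕ) + 1) * Zpt ℓ bit p (vr ℓ 0 i)

lemma contDiff_lastVal : ContDiff ℝ 1 (lastVal ℓ bit) := by
  unfold lastVal
  refine (ContDiff.sub (ContDiff.sub ?_ contDiff_const) ?_)
  · exact ContDiff.sum fun i _ => (contDiff_Zpt ℓ bit _).mul (contDiff_Zpt ℓ bit _)
  · exact ContDiff.sum fun i _ => contDiff_const.mul (contDiff_Zpt ℓ bit _)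

lemma eval_quad_Zpt (c : Fin (5 * ℓ + 1) × Mon (5 * ℓ) → ℝ) (e : Fin (5 * ℓ + 1))
    (p : (Par ℓ → ℝ) × (Fin (5 * ℓ) → ℝ)) :
    eval (fun v => ((Zpt ℓ bit p v : ℝ) : ℂ)) (quad (fun j => (c j : ℂ)) e)
      = ((∑ m, c (e, m) * fmon ℓ bit p m : ℝ) : ℂ) := by
  rw [eval_quad]
  unfold fmon
  push_cast
  rfl

/-- if the equations hold for the real point then the perturbed system is solvable -/
lemma hasZero_of_point (hbit : ∀ d i, bit d i = 0 ∨ bit d i = 1)
    (c : Fin (5 * ℓ + 1) × Mon (5 * ℓ) → ℝ) (q : Par ℓ → ℝ) (δ : Fin (5 * ℓ) → ℝ)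
    (h1 : ∀ d, d ≠ 4 → ∀ i, δ (vr ℓ d i) = - (2 * bit d i - 1) * (1 * δ (vr ℓ d i) ^ 2
      + ∑ m, c (Fin.castSucc (vr ℓ d i), m) * fmon ℓ bit (q, δ) m))
    (h2 : ∀ i, δ (vr ℓ 4 i) = - 1 * (0 * δ (vr ℓ 4 i) ^ 2
      + ∑ m, c (Fin.castSucc (vr ℓ 4 i), m) * fmon ℓ bit (q, δ) m))
    (h3 : lastVal ℓ bit (q, δ) + ∑ m, c (Fin.last _, m) * fmon ℓ bit (q, δ) m = 0) :
    HasZero (tsys ℓ c q) := by
  refine hasZero_tsys ℓ c q (fun v => ((Zpt ℓ bit (q, δ) v : ℝ) : ℂ)) ?_ ?_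
  · intro d i
    rw [eval_quad_Zpt]
    unfold blockPoly
    split_ifs with hd
    · subst hd
      simp only [map_add, map_sub, map_sum, map_mul, eval_X, eval_C, map_pow]
      have h4 := Zpt_four ℓ bit (q, δ) i
      have h5 := h2 i
      have key : Zpt ℓ bit (q, δ) (vr ℓ 4 i) - ∑ j, ∑ k, q (i, j, k) *
          (Zpt ℓ bit (q, δ) (vr ℓ 1 j) * Zpt ℓ bit (q, δ) (vr ℓ 2 k))
          + (Zpt ℓ bit (q, δ) (vr ℓ 3 i) ^ 2 - Zpt ℓ bit (q, δ) (vr ℓ 3 i))
          + ∑ m, c (Fin.castSucc (vr ℓ 4 i), m) * fmon ℓ bit (q, δ) m = 0 := by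
        simp only at h4
        linarith
      have := congrArg (fun x : ℝ => (x : ℂ)) key
      push_cast at this ⊢
      exact this
    · simp only [map_sub, map_pow, eval_X]
      have h4 := Zpt_ne ℓ bit (q, δ) d hd i
      have h5 := h1 d hd i
      have key : Zpt ℓ bit (q, δ) (vr ℓ d i) ^ 2 - Zpt ℓ bit (q, δ) (vr ℓ d i)
          + ∑ m, c (Fin.castSucc (vr ℓ d i), m) * fmon ℓ bit (q, δ) m = 0 := by
        rw [h4]
        simp only
        rcases hbit d i with hb | hb <;> rw [hb] at h5 ⊢ <;> linarith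
      have := congrArg (fun x : ℝ => (x : ℂ)) key
      push_cast at this ⊢
      exact this
  · rw [eval_quad_Zpt]
    unfold lastPoly
    simp only [map_sub, map_sum, map_mul, eval_X, eval_C, map_one]
    unfold lastVal at h3
    have := congrArg (fun x : ℝ => (x : ℂ)) h3
    push_cast at this ⊢
    exact this

end point

/-- **Perturbed walls.** -/
theorem exists_wall (ℓ : ℕ) (R : ℝ) (hR : 0 ≤ R) (a : Par ℓ) (X₀ : Fin (2 ^ ℓ)) :
    ∃ r > 0, ∀ c : Fin (5 * ℓ + 1) × Mon (5 * ℓ) → ℝ, (∀ j, |c j| ≤ r) →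
      ∃ Λ : (Par ℓ → ℝ) → ℝ, Continuous Λ ∧ ∀ q, (∀ a, |q a| ≤ R) →
        |Λ q - (q a - (2 * ((X₀ : ℕ) : ℝ) + 1))| ≤ 1 / 4 ∧ (Λ q = 0 → HasZero (tsys ℓ c q)) := by
  obtain ⟨i, j, k⟩ := a
  obtain ⟨b, hb, hs⟩ := exists_bits ℓ X₀ X₀.2
  set bit : Fin 5 → Fin ℓ → ℝ := ![fun i' => (b i' : ℝ), fun i' => if i' = j then 1 else 0,
    fun i' => if i' = k then 1 else 0, fun i' => if i' = i then 1 else 0, fun _ => 0] with hbitdef
  have hbit : ∀ d i, bit d i = 0 ∨ bit d i = 1 := by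
    intro d i'
    rw [hbitdef]
    have hd : d = 0 ∨ d = 1 ∨ d = 2 ∨ d = 3 ∨ d = 4 := by omega
    rcases hd with rfl | rfl | rfl | rfl | rfl
    · rcases hb i' with h | h <;> simp [h]
    · simp only [Matrix.cons_val]; split_ifs <;> simp
    · simp only [Matrix.cons_val]; split_ifs <;> simp
    · simp only [Matrix.cons_val]; split_ifs <;> simp
    · simp
  set σ : Fin (5 * ℓ) → ℝ := fun v => if (finProdFinEquiv.symm v).1 = 4 then 1 else
    2 * bit (finProdFinEquiv.symm v).1 (finProdFinEquiv.symm v).2 - 1 with hσdef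
  set s : Fin (5 * ℓ) → ℝ := fun v => if (finProdFinEquiv.symm v).1 = 4 then 0 else 1 with hsdef
  have hσ : ∀ v, |σ v| ≤ 1 := by
    intro v
    simp only [hσdef]
    split_ifs
    · simp
    · rcases hbit (finProdFinEquiv.symm v).1 (finProdFinEquiv.symm v).2 with h | h <;> rw [h] <;>
        norm_num
  have hs1 : ∀ v, |s v| ≤ 1 := by
    intro v
    simp only [hsdef]
    split_ifs <;> simp
  -- the Lipschitz constant of the last value
  set K : Set ((Par ℓ → ℝ) × (Fin (5 * ℓ) → ℝ)) := closedBall 0 R ×ˢ closedBall 0 1 with hK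
  have hKc : IsCompact K := (isCompact_closedBall _ _).prod (isCompact_closedBall _ _)
  obtain ⟨L, hL⟩ := ((contDiff_lastVal ℓ bit).locallyLipschitz.locallyLipschitzOn
    (s := K)).exists_lipschitzOnWith_of_compact hKc
  have hL0 : (0 : ℝ) ≤ L := L.2
  set η : ℝ := 1 / (8 * (L + 1)) with hη
  have hη0 : 0 < η := by positivity
  have hη1 : η ≤ 1 / 8 := by
    rw [hη]
    apply one_div_le_one_div_of_le (by norm_num)
    linarith
  have hηL : L * η ≤ 1 / 8 := by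
    rw [hη, mul_one_div, div_le_div_iff₀ (by positivity) (by norm_num)]
    linarith
  obtain ⟨r, hr, hroot⟩ := exists_root (fmon ℓ bit) (contDiff_fmon ℓ bit) σ s hσ hs1 R η hR hη0
  refine ⟨r, hr, fun c hc => ?_⟩
  obtain ⟨δ, hδc, hδ⟩ := hroot (fun v m => c (Fin.castSucc v, m)) fun v m => hc _
  refine ⟨fun q => lastVal ℓ bit (q, δ q) + ∑ m, c (Fin.last _, m) * fmon ℓ bit (q, δ q) m, ?_, ?_⟩
  · refine ((contDiff_lastVal ℓ bit).continuous.comp (continuous_id.prodMk hδc)).add ?_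
    refine continuous_finsetSum _ fun m _ => continuous_const.mul ?_
    exact (continuous_pi_iff.1 (contDiff_fmon ℓ bit).continuous m).comp (continuous_id.prodMk hδc)
  · intro q hq
    obtain ⟨h1, h2, h3⟩ := hδ q hq
    constructor
    · have h0 : lastVal ℓ bit (q, 0) = q (i, j, k) - (2 * ((X₀ : ℕ) : ℝ) + 1) := by
        have hZ0 : ∀ i', Zpt ℓ bit (q, 0) (vr ℓ 0 i') = (b i' : ℝ) := by
          intro i'
          rw [Zpt_ne ℓ bit _ 0 (by decide)]
          simp [hbitdef]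
        have hZ1 : ∀ i', Zpt ℓ bit (q, 0) (vr ℓ 1 i') = if i' = j then 1 else 0 := by
          intro i'
          rw [Zpt_ne ℓ bit _ 1 (by decide)]
          simp [hbitdef]
        have hZ2 : ∀ i', Zpt ℓ bit (q, 0) (vr ℓ 2 i') = if i' = k then 1 else 0 := by
          intro i'
          rw [Zpt_ne ℓ bit _ 2 (by decide)]
          simp [hbitdef]
        have hZ3 : ∀ i', Zpt ℓ bit (q, 0) (vr ℓ 3 i') = if i' = i then 1 else 0 := by
          intro i'
          rw [Zpt_ne ℓ bit _ 3 (by decide)]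
          simp [hbitdef]
        have hZ4 : Zpt ℓ bit (q, 0) (vr ℓ 4 i) = q (i, j, k) := by
          rw [Zpt_four]
          simp only [hZ1, hZ2, hZ3]
          rw [Finset.sum_eq_single j]
          · rw [Finset.sum_eq_single k]
            · simp
            · intro k' _ hk'; simp [hk']
            · intro hk'; exact absurd (Finset.mem_univ _) hk'
          · intro j' _ hj'; simp [hj']
          · intro hj'; exact absurd (Finset.mem_univ _) hj'
        unfold lastVal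
        simp only [hZ0, hZ3]
        have e1 : ∑ i', (if i' = i then (1:ℝ) else 0) * Zpt ℓ bit (q, 0) (vr ℓ 4 i')
            = q (i, j, k) := by
          rw [Finset.sum_eq_single i]
          · simp [hZ4]
          · intro i' _ hi'; simp [hi']
          · intro hi'; exact absurd (Finset.mem_univ _) hi'
        have e2 : ∑ i' : Fin ℓ, (2:ℝ) ^ ((i' : ℕ) + 1) * (b i' : ℝ) = 2 * ((X₀ : ℕ) : ℝ) := by
          have : ((∑ i : Fin ℓ, 2 ^ (i : ℕ) * b i : ℕ) : ℝ) = ((X₀ : ℕ) : ℝ) := by rw [hs]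
          rw [← this]
          push_cast
          rw [Finset.mul_sum]
          exact Finset.sum_congr rfl fun i _ => by ring
        rw [e1, e2]
        ring
      have hmem : ∀ δ' : Fin (5 * ℓ) → ℝ, (∀ v, |δ' v| ≤ 1) → (q, δ') ∈ K := by
        intro δ' hδ'
        refine ⟨?_, ?_⟩
        · rw [mem_closedBall_zero_iff, pi_norm_le_iff_of_nonneg hR]
          exact hq
        · rw [mem_closedBall_zero_iff, pi_norm_le_iff_of_nonneg (by norm_num)]
          exact hδ'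
      have h4 : |lastVal ℓ bit (q, δ q) - lastVal ℓ bit (q, 0)| ≤ 1 / 8 := by
        have h5 := hL.dist_le_mul (q, δ q) (hmem _ fun v => (h1 v).trans (by linarith)) (q, 0)
          (hmem 0 fun v => by simp)
        rw [Real.dist_eq] at h5
        refine h5.trans (le_trans ?_ hηL)
        refine mul_le_mul_of_nonneg_left ?_ hL0
        rw [Prod.dist_eq, dist_self]
        refine max_le hη0.le ?_
        rw [dist_zero_right, pi_norm_le_iff_of_nonneg hη0.le]
        exact h1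
      have h5 := h3 (fun m => c (Fin.last _, m)) fun m => hc _
      rw [h0] at h4
      have h6 : lastVal ℓ bit (q, δ q) + ∑ m, c (Fin.last _, m) * fmon ℓ bit (q, δ q) m
          - (q (i, j, k) - (2 * ((X₀ : ℕ) : ℝ) + 1))
          = (lastVal ℓ bit (q, δ q) - (q (i, j, k) - (2 * ((X₀ : ℕ) : ℝ) + 1)))
            + ∑ m, c (Fin.last _, m) * fmon ℓ bit (q, δ q) m := by ring
      show |lastVal ℓ bit (q, δ q) + ∑ m, c (Fin.last _, m) * fmon ℓ bit (q, δ q) m
          - (q (i, j, k) - (2 * ((X₀ : ℕ) : ℝ) + 1))| ≤ 1 / 4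
      rw [h6]
      refine (abs_add_le _ _).trans ?_
      linarith
    · intro h0
      refine hasZero_of_point ℓ bit hbit c q (δ q) ?_ ?_ h0
      · intro d hd i'
        have := h2 (vr ℓ d i')
        have e : finProdFinEquiv.symm (vr ℓ d i') = (d, i') := by
          unfold vr; rw [Equiv.symm_apply_apply]
        simp only [hσdef, hsdef, e, if_neg hd] at this
        exact this
      · intro i'
        have := h2 (vr ℓ 4 i')
        have e : finProdFinEquiv.symm (vr ℓ 4 i') = (4, i') := by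
          unfold vr; rw [Equiv.symm_apply_apply]
        simp only [hσdef, hsdef, e, if_true] at this
        exact this

end Pool.Agent.L0h79.BSS
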